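import Pool.Agent.Helper119.MG.Main

/-! Asymptotic forms of the bounds. -/

open Filter Topology

namespace Pool.Agent.Helper119.MG

variable {g : ℕ}

lemma lower_le_upper {G : Type*} [Group G] {S : Set G} (hS : S.Finite) (H : Set G) :
    lowerLogDensity S H ≤ upperLogDensity S H :=
  liminf_le_limsup (bdd_above hS H) (bdd_below S H)

lemma johnson_anti (g : ℕ) {m m' : ℕ} (h : m ≤ m') : johnson g m' ⊆ johnson g m := by
  rintro x ⟨φ, hx, w, hw⟩
  exact ⟨φ, hx, w, fun y => Subgroup.lowerCentralSeries_antitone _ h (hw y)⟩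

lemma logRatio_mono {G : Type*} [Group G] {S : Set G} (hS : S.Finite) {H H' : Set G}
    (h : H ⊆ H') (h1 : (1 : G) ∈ H) (r : ℕ) : logRatio S H r ≤ logRatio S H' r := by
  unfold logRatio
  refine div_le_div_of_nonneg_right ?_ (Real.log_natCast_nonneg _)
  refine Real.log_le_log ?_ ?_
  · have h2 : (ball S r ∩ H).Nonempty := ⟨1, one_mem_ball S r, h1⟩
    have h3 : 0 < (ball S r ∩ H).ncard :=
      (Set.ncard_pos ((ball_finite hS r).inter_of_left _)).2 h2
    exact_mod_cast h3
  · have h3 : (ball S r ∩ H).ncard ≤ (ball S r ∩ H').ncard :=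
      Set.ncard_le_ncard (Set.inter_subset_inter_right _ h) ((ball_finite hS r).inter_of_left _)
    exact_mod_cast h3

lemma lower_mono {G : Type*} [Group G] {S : Set G} (hS : S.Finite) {H H' : Set G}
    (h : H ⊆ H') (h1 : (1 : G) ∈ H) : lowerLogDensity S H ≤ lowerLogDensity S H' :=
  liminf_le_liminf (Eventually.of_forall (fun r => logRatio_mono hS h h1 r))
    (bdd_below S H) (bdd_above hS H').isCoboundedUnder_ge

lemma upper_mono {G : Type*} [Group G] {S : Set G} (hS : S.Finite) {H H' : Set G}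
    (h : H ⊆ H') (h1 : (1 : G) ∈ H) : upperLogDensity S H ≤ upperLogDensity S H' :=
  limsup_le_limsup (Eventually.of_forall (fun r => logRatio_mono hS h h1 r))
    (bdd_below S H).isCoboundedUnder_le (bdd_above hS H')

lemma one_mem_johnson (g m : ℕ) : (1 : Mod g) ∈ johnson g m := by
  refine ⟨1, rfl, 1, fun y => ?_⟩
  have e : (1 * y * 1⁻¹)⁻¹ * ((1 : orientedAut g) : MulAut (SurfaceGroup g)) y = 1 := by
    simp
  rw [e]
  exact one_mem _

/-- bounds with an explicit error term -/
theorem half_rate (C : ℝ) : ∃ K : ℝ, ∀ g : ℕ, 2 ≤ g → ∀ (S : Finset (Mod g)) (n : ℕ), 2 ≤ n →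
    (S.card : ℝ) ^ 2 ≤ C * n → Subgroup.closure ((S : Set (Mod g)) ∪ fifthTwists g n) = ⊤ →
    ∀ m : ℕ, 1 ≤ m →
      1 / 2 - K / Real.log n ≤
        lowerLogDensity ((S : Set (Mod g)) ∪ fifthTwists g n) (johnson g m) ∧
      lowerLogDensity ((S : Set (Mod g)) ∪ fifthTwists g n) (johnson g m) ≤
        upperLogDensity ((S : Set (Mod g)) ∪ fifthTwists g n) (johnson g m) ∧
      upperLogDensity ((S : Set (Mod g)) ∪ fifthTwists g n) (johnson g m) ≤
        1 / 2 + K / Real.log n := by
  classical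
  set C' := max C 0 with hC'
  have hC0 : 0 ≤ C' := le_max_right _ _
  refine ⟨Real.log (24 * C' + 15), ?_⟩
  intro g hg S n hn hcard hgen m hm
  have hn' : (2 : ℝ) ≤ n := by exact_mod_cast hn
  have hlogn : 0 < Real.log n := Real.log_pos (by linarith)
  have hcard' : (S.card : ℝ) ^ 2 ≤ C' * n :=
    hcard.trans (by gcongr; exact le_max_left _ _)
  have hK : 0 ≤ Real.log (24 * C' + 15) := Real.log_nonneg (by linarith)
  have hcard0 : (0 : ℝ) ≤ S.card := by positivity
  have hsq : (S.card : ℝ) ≤ (S.card : ℝ) ^ 2 := by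
    rcases Nat.eq_zero_or_pos S.card with h | h
    · rw [h]; simp
    · have : (1 : ℝ) ≤ S.card := by exact_mod_cast h
      nlinarith
  have hfin : ((S : Set (Mod g)) ∪ fifthTwists g n).Finite := by
    rw [fifthTwists_coe hg]
    exact S.finite_toSet.union (Finset.finite_toSet _)
  refine ⟨?_, lower_le_upper hfin _, ?_⟩
  · refine le_trans ?_ (half_lower hg S n hn hgen m)
    have h1 : 2 * (S.card + n) + 1 ≤ (24 * C' + 15) * n := by nlinarith
    have h2 : Real.log (2 * (S.card + n) + 1) ≤ Real.log (24 * C' + 15) + Real.log n := by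
      rw [← Real.log_mul (by positivity) (by positivity)]
      exact Real.log_le_log (by positivity) h1
    have h3 : 0 < Real.log (2 * (S.card + n) + 1) := Real.log_pos (by linarith)
    have h4 : Real.log n ≤ Real.log (2 * (S.card + n) + 1) :=
      Real.log_le_log (by linarith) (by linarith)
    rw [le_div_iff₀ (by positivity)]
    have h5 : (1 / 2 - Real.log (24 * C' + 15) / Real.log n) *
        (2 * Real.log (2 * (S.card + n) + 1)) =
        Real.log (2 * (S.card + n) + 1) -
          2 * Real.log (24 * C' + 15) * (Real.log (2 * (S.card + n) + 1) / Real.log n) := by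
      field_simp
    rw [h5]
    have h6 : 1 ≤ Real.log (2 * (S.card + n) + 1) / Real.log n := by
      rw [le_div_iff₀ hlogn]; linarith
    nlinarith
  · refine (half_upper hg S n hn m hm).trans ?_
    have h1 : 3 * ((2 * (S.card : ℝ) + 1) ^ 2 + 4 * n) ≤ (24 * C' + 15) * n := by nlinarith
    have h2 : Real.log (3 * ((2 * (S.card : ℝ) + 1) ^ 2 + 4 * n)) ≤
        Real.log (24 * C' + 15) + Real.log n := by
      rw [← Real.log_mul (by positivity) (by positivity)]
      exact Real.log_le_log (by positivity) h1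
    rw [div_le_iff₀ (by positivity)]
    have h5 : (1 / 2 + Real.log (24 * C' + 15) / Real.log n) * (2 * Real.log n) =
        Real.log n + 2 * Real.log (24 * C' + 15) := by
      field_simp
    rw [h5]
    linarith

lemma nearHalf_mono {S : Set (Mod g)} {m : ℕ} {δ δ' : ℝ} (h : δ ≤ δ') (hS : NearHalf S m δ) :
    NearHalf S m δ' :=
  ⟨by linarith [hS.1], hS.2.1, by linarith [hS.2.2]⟩

/-- For fixed `g` and `S`, adding more and more twists drives all densities to `1/2`. -/
theorem half_limit_n (hg : 2 ≤ g) (S : Finset (Mod g))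
    (hgen : Generates (S : Set (Mod g))) {ε : ℝ} (hε : 0 < ε) :
    ∀ᶠ n : ℕ in atTop, ∀ m : ℕ, 1 ≤ m → NearHalf (withTwists S n) m ε := by
  obtain ⟨K, hK⟩ := half_rate ((S.card : ℝ) ^ 2)
  have ht : Tendsto (fun n : ℕ => K / Real.log n) atTop (𝓝 0) :=
    tendsto_const_nhds.div_atTop (Real.tendsto_log_atTop.comp tendsto_natCast_atTop_atTop)
  filter_upwards [eventually_ge_atTop 2, ht.eventually (gt_mem_nhds hε)] with n hn hn2 m hm
  have hgen' : Subgroup.closure ((S : Set (Mod g)) ∪ fifthTwists g n) = ⊤ := by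
    rw [eq_top_iff, ← hgen]
    exact Subgroup.closure_mono Set.subset_union_left
  have hn1 : (1 : ℝ) ≤ n := by exact_mod_cast (by omega : 1 ≤ n)
  have h := hK g hg S n hn (by nlinarith [sq_nonneg (S.card : ℝ)]) hgen' m hm
  exact nearHalf_mono hn2.le h

/-- As `g → ∞`, all densities tend to `1/2`, uniformly in `m`. -/
theorem half_limit_g (S : ∀ g : ℕ, Finset (Mod g)) (n : ℕ → ℕ) (C : ℝ)
    (hn : Tendsto n atTop atTop) (hcard : ∀ g, 2 ≤ g → ((S g).card : ℝ) ^ 2 ≤ C * n g)
    (hgen : ∀ g, 2 ≤ g → Generates (withTwists (S g) (n g)))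
    {ε : ℝ} (hε : 0 < ε) :
    ∀ᶠ g : ℕ in atTop, ∀ m : ℕ, 1 ≤ m → NearHalf (withTwists (S g) (n g)) m ε := by
  obtain ⟨K, hK⟩ := half_rate C
  have ht : Tendsto (fun n : ℕ => K / Real.log n) atTop (𝓝 0) :=
    tendsto_const_nhds.div_atTop (Real.tendsto_log_atTop.comp tendsto_natCast_atTop_atTop)
  have ht2 : Tendsto (fun g : ℕ => K / Real.log (n g)) atTop (𝓝 0) := ht.comp hn
  filter_upwards [eventually_ge_atTop 2, hn.eventually (eventually_ge_atTop 2),
    ht2.eventually (gt_mem_nhds hε)] with g hg hn2 hn3 m hm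
  have h := hK g hg (S g) (n g) hn2 (hcard g hg) (hgen g hg) m hm
  exact nearHalf_mono hn3.le h

/-- Positivity for every finite generating set. -/
theorem positive (hg : 2 ≤ g) (S : Finset (Mod g))
    (hgen : Subgroup.closure (S : Set (Mod g)) = ⊤) :
    ∃ c : ℝ, 0 < c ∧ ∀ m : ℕ, c ≤ lowerLogDensity (S : Set (Mod g)) (johnson g m) := by
  classical
  obtain ⟨L0, h0⟩ := exists_ball (S := (S : Set (Mod g))) (x := toMod (tau ⟨0, by omega⟩ 0))
    (by rw [hgen]; trivial)
  obtain ⟨L1, h1⟩ := exists_ball (S := (S : Set (Mod g))) (x := toMod (tau ⟨0, by omega⟩ 1))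
    (by rw [hgen]; trivial)
  set L := max 1 (max L0 L1) with hL
  have hL1 : 1 ≤ L := le_max_left _ _
  have hSne : 1 ≤ S.card := by
    rw [Nat.one_le_iff_ne_zero]
    intro h
    rw [Finset.card_eq_zero] at h
    subst h
    rw [Finset.coe_empty, Subgroup.closure_empty] at hgen
    have e : ∀ i, toMod (tau (⟨0, by omega⟩ : Fin g) i) = 1 := by
      intro i
      have : toMod (tau (⟨0, by omega⟩ : Fin g) i) ∈ (⊤ : Subgroup (Mod g)) := trivial
      rw [← hgen] at this
      exact this
    have h2 := deep_inj hg 0 [0] [1] rfl (by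
      have e1 : ∀ i, tw (⟨0, by omega⟩ : Fin g) [i] = tau ⟨0, by omega⟩ i := by
        intro i
        unfold tw
        simp
      rw [e1, e1, e, e])
    simp at h2
  have hcard : (1 : ℝ) ≤ S.card := by exact_mod_cast hSne
  refine ⟨Real.log (2 : ℕ) / (2 * L * Real.log (2 * S.card + 1)), ?_, ?_⟩
  · have h2 : 0 < Real.log ((2 : ℕ) : ℝ) := Real.log_pos (by norm_num)
    have h3 : 0 < Real.log (2 * (S.card : ℝ) + 1) := Real.log_pos (by linarith)
    have h4 : (0 : ℝ) < L := by exact_mod_cast hL1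
    positivity
  · intro m
    refine johnson_lower hg S.finite_toSet hgen (K := 2 * S.card + 1) (C := 1) (by linarith)
      le_rfl ?_ (le_refl 2) hL1 ?_ m
    · intro r
      rw [one_mul]
      exact_mod_cast ball_card_le S r
    · intro i hi
      interval_cases i
      · exact ball_mono ((le_max_left _ _).trans (le_max_right _ _)) h0
      · exact ball_mono ((le_max_right _ _).trans (le_max_right _ _)) h1

/-- The limits over `m` exist and are positive. -/
theorem positive_limits (hg : 2 ≤ g) (S : Finset (Mod g))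
    (hgen : Subgroup.closure (S : Set (Mod g)) = ⊤) :
    ∃ a b : ℝ, 0 < a ∧ a ≤ b ∧
      Tendsto (fun m => lowerLogDensity (S : Set (Mod g)) (johnson g m)) atTop (𝓝 a) ∧
      Tendsto (fun m => upperLogDensity (S : Set (Mod g)) (johnson g m)) atTop (𝓝 b) ∧
      ∀ m : ℕ, a ≤ lowerLogDensity (S : Set (Mod g)) (johnson g m) ∧
        b ≤ upperLogDensity (S : Set (Mod g)) (johnson g m) := by
  obtain ⟨c, hc, hcm⟩ := positive hg S hgen
  have anti1 : Antitone (fun m => lowerLogDensity (S : Set (Mod g)) (johnson g m)) := by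
    intro m m' h
    exact lower_mono S.finite_toSet (johnson_anti g h) (one_mem_johnson g m')
  have anti2 : Antitone (fun m => upperLogDensity (S : Set (Mod g)) (johnson g m)) := by
    intro m m' h
    exact upper_mono S.finite_toSet (johnson_anti g h) (one_mem_johnson g m')
  have hlu : ∀ m, lowerLogDensity (S : Set (Mod g)) (johnson g m) ≤
      upperLogDensity (S : Set (Mod g)) (johnson g m) := fun m =>
    lower_le_upper S.finite_toSet _
  have bd1 : BddBelow (Set.range (fun m => lowerLogDensity (S : Set (Mod g)) (johnson g m))) :=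
    ⟨c, by rintro _ ⟨m, rfl⟩; exact hcm m⟩
  have bd2 : BddBelow (Set.range (fun m => upperLogDensity (S : Set (Mod g)) (johnson g m))) :=
    ⟨c, by rintro _ ⟨m, rfl⟩; exact (hcm m).trans (hlu m)⟩
  have t1 := tendsto_atTop_ciInf anti1 bd1
  have t2 := tendsto_atTop_ciInf anti2 bd2
  refine ⟨_, _, lt_of_lt_of_le hc (le_ciInf hcm), le_of_tendsto_of_tendsto' t1 t2 hlu, t1, t2,
    fun m => ⟨ciInf_le bd1 m, ciInf_le bd2 m⟩⟩

end Pool.Agent.Helper119.MG
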