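import Pool.Agent.Helper119.MG.Torelli

/-! From counting to logarithmic densities. -/

open scoped Pointwise
open Filter Topology

namespace Pool.Agent.Helper119.MG

section Ball

variable {G : Type*} [Group G]

lemma ball_mono {S : Set G} {a b : ℕ} (h : a ≤ b) : ball S a ⊆ ball S b := by
  rintro x ⟨l, hl, hS, rfl⟩
  exact ⟨l, hl.trans h, hS, rfl⟩

lemma ball_mono_set {S T : Set G} (h : S ⊆ T) (a : ℕ) : ball S a ⊆ ball T a := by
  rintro x ⟨l, hl, hS, rfl⟩
  exact ⟨l, hl, fun y hy => (hS y hy).imp (fun h1 => h h1) (fun h1 => h h1), rfl⟩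

lemma ball_mul {S : Set G} {a b : ℕ} {x y : G} (hx : x ∈ ball S a) (hy : y ∈ ball S b) :
    x * y ∈ ball S (a + b) := by
  obtain ⟨l, hl, hS, rfl⟩ := hx
  obtain ⟨l', hl', hS', rfl⟩ := hy
  refine ⟨l ++ l', ?_, ?_, by rw [List.prod_append]⟩
  · rw [List.length_append]; omega
  · intro y hy
    rcases List.mem_append.1 hy with h | h
    · exact hS y h
    · exact hS' y h

lemma ball_inv {S : Set G} {a : ℕ} {x : G} (hx : x ∈ ball S a) : x⁻¹ ∈ ball S a := by
  obtain ⟨l, hl, hS, rfl⟩ := hx
  refine ⟨(l.map (fun x => x⁻¹)).reverse, ?_, ?_, ?_⟩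
  · simpa using hl
  · intro y hy
    rw [List.mem_reverse, List.mem_map] at hy
    obtain ⟨z, hz, rfl⟩ := hy
    rw [inv_inv]
    exact (hS z hz).symm
  · rw [List.prod_inv_reverse]

lemma mem_ball_one {S : Set G} {x : G} (hx : x ∈ S) : x ∈ ball S 1 :=
  ⟨[x], by simp, by simpa using Or.inl hx, by simp⟩

lemma exists_ball {S : Set G} {x : G} (hx : x ∈ Subgroup.closure S) : ∃ a, x ∈ ball S a := by
  induction hx using Subgroup.closure_induction with
  | mem x hx => exact ⟨1, mem_ball_one hx⟩
  | one => exact ⟨0, one_mem_ball S 0⟩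
  | mul x y _ _ hx hy =>
    obtain ⟨a, ha⟩ := hx
    obtain ⟨b, hb⟩ := hy
    exact ⟨a + b, ball_mul ha hb⟩
  | inv x _ hx =>
    obtain ⟨a, ha⟩ := hx
    exact ⟨a, ball_inv ha⟩

lemma ball_card_le [DecidableEq G] (S : Finset G) (r : ℕ) :
    (ball (S : Set G) r).ncard ≤ (2 * S.card + 1) ^ r := by
  rw [ball_eq, Set.ncard_coe_finset]
  refine (Finset.card_pow_le).trans ?_
  gcongr
  refine (Finset.card_insert_le _ _).trans ?_
  have h1 := Finset.card_union_le S S⁻¹
  rw [Finset.card_inv] at h1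
  omega

lemma ball_prod {S : Set G} {t : ℕ → G} {n L : ℕ} (ht : ∀ i < n, t i ∈ ball S L) :
    ∀ l : List ℕ, (∀ i ∈ l, i < n) → (l.map t).prod ∈ ball S (L * l.length)
  | [], _ => one_mem_ball S _
  | (i :: l), h => by
    rw [List.map_cons, List.prod_cons, List.length_cons]
    have h1 := ball_mul (ht i (h i (by simp))) (ball_prod ht l (fun j hj => h j (by simp [hj])))
    have e : L + L * l.length = L * (l.length + 1) := by ring
    rw [e] at h1
    exact h1

/-- counting conjugates -/
lemma count_conj {S : Set G} (hS : S.Finite) {t : ℕ → G} {n L c : ℕ}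
    (ht : ∀ i < n, t i ∈ ball S L) {x : G} (hx : x ∈ ball S c) {H : Set G}
    (hH : ∀ l : List ℕ, (l.map t).prod * x * ((l.map t).prod)⁻¹ ∈ H)
    (hinj : ∀ l l' : List ℕ, l.length = l'.length →
      (l.map t).prod * x * ((l.map t).prod)⁻¹ = (l'.map t).prod * x * ((l'.map t).prod)⁻¹ →
      l = l') (k : ℕ) :
    n ^ k ≤ (ball S (2 * L * k + c) ∩ H).ncard := by
  let f : (Fin k → Fin n) → G := fun w =>
    ((List.ofFn (fun i => (w i : ℕ))).map t).prod * x *
      (((List.ofFn (fun i => (w i : ℕ))).map t).prod)⁻¹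
  have hf : Function.Injective f := by
    intro w w' h
    have h1 := hinj _ _ (by simp) h
    have h2 := List.ofFn_injective h1
    funext i
    exact Fin.ext (congrFun h2 i)
  have hsub : Set.range f ⊆ ball S (2 * L * k + c) ∩ H := by
    rintro _ ⟨w, rfl⟩
    refine ⟨?_, hH _⟩
    have h1 : ((List.ofFn (fun i => (w i : ℕ))).map t).prod ∈ ball S (L * k) := by
      have := ball_prod ht (List.ofFn (fun i => (w i : ℕ))) (by
        intro i hi
        rw [List.mem_ofFn] at hi
        obtain ⟨j, rfl⟩ := hi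
        exact (w j).2)
      rwa [List.length_ofFn] at this
    have h2 := ball_mul (ball_mul h1 hx) (ball_inv h1)
    have e : L * k + c + L * k = 2 * L * k + c := by ring
    rw [e] at h2
    exact h2
  have hfin : (ball S (2 * L * k + c) ∩ H).Finite := (ball_finite hS _).inter_of_left _
  have h3 := Set.ncard_le_ncard hsub hfin
  have h4 : (Set.range f).ncard = n ^ k := by
    rw [← Set.image_univ, Set.ncard_image_of_injective _ hf, Set.ncard_univ, Nat.card_fun]
    simp
  rw [← h4]
  exact h3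

end Ball

section Density

variable {G : Type*} [Group G]

lemma ratio_nonneg (S H : Set G) (r : ℕ) : 0 ≤ logRatio S H r :=
  div_nonneg (Real.log_natCast_nonneg _) (Real.log_natCast_nonneg _)

lemma ratio_le_one {S : Set G} (hS : S.Finite) (H : Set G) (r : ℕ) : logRatio S H r ≤ 1 := by
  unfold logRatio
  have h1 : (ball S r ∩ H).ncard ≤ (ball S r).ncard :=
    Set.ncard_le_ncard Set.inter_subset_left (ball_finite hS r)
  rcases Nat.eq_zero_or_pos (ball S r ∩ H).ncard with h0 | h0
  · rw [h0]; simp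
  · refine div_le_one_of_le₀ ?_ (Real.log_natCast_nonneg _)
    exact Real.log_le_log (by exact_mod_cast h0) (by exact_mod_cast h1)

lemma bdd_above {S : Set G} (hS : S.Finite) (H : Set G) :
    IsBoundedUnder (· ≤ ·) atTop (logRatio S H) :=
  isBoundedUnder_of ⟨1, fun r => ratio_le_one hS H r⟩

lemma bdd_below (S H : Set G) : IsBoundedUnder (· ≥ ·) atTop (logRatio S H) :=
  isBoundedUnder_of ⟨0, fun r => ratio_nonneg S H r⟩

lemma tendsto_ratio (A B E F : ℝ) (hE : 0 < E) :
    Tendsto (fun r : ℕ => (A * r + B) / (E * r + F)) atTop (𝓝 (A / E)) := by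
  have h1 : Tendsto (fun r : ℕ => (A + B / (r : ℝ)) / (E + F / (r : ℝ))) atTop
      (𝓝 ((A + 0) / (E + 0))) := by
    refine Tendsto.div ?_ ?_ (by linarith)
    · exact tendsto_const_nhds.add (tendsto_const_div_atTop_nhds_zero_nat B)
    · exact tendsto_const_nhds.add (tendsto_const_div_atTop_nhds_zero_nat F)
  rw [add_zero, add_zero] at h1
  refine h1.congr' ?_
  filter_upwards [eventually_gt_atTop 0] with r hr
  have hr' : (r : ℝ) ≠ 0 := by exact_mod_cast hr.ne'
  have e1 : A + B / (r : ℝ) = (A * r + B) / r := by field_simp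
  have e2 : E + F / (r : ℝ) = (E * r + F) / r := by field_simp
  rw [e1, e2, div_div_div_cancel_right₀ hr']

lemma lower_of_count {S : Set G} (hS : S.Finite) {H : Set G} {K C : ℝ} (hK : 1 < K)
    (hC : 1 ≤ C) (hN : ∀ r, ((ball S r).ncard : ℝ) ≤ C * K ^ r) {n D c : ℕ} (hn : 2 ≤ n)
    (hD : 1 ≤ D) (hH : ∀ k, n ^ k ≤ (ball S (D * k + c) ∩ H).ncard) :
    Real.log n / (D * Real.log K) ≤ lowerLogDensity S H := by
  have hlogK : 0 < Real.log K := Real.log_pos hK
  have hlogn : 0 < Real.log n := Real.log_pos (by exact_mod_cast hn)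
  have hD' : (0 : ℝ) < D := by exact_mod_cast hD
  have ht := tendsto_ratio (Real.log n / D) (-((c : ℝ) / D + 1) * Real.log n) (Real.log K)
    (Real.log C) hlogK
  have e0 : Real.log n / (D * Real.log K) = Real.log n / D / Real.log K := by
    rw [div_div]
  rw [e0, ← ht.liminf_eq]
  unfold lowerLogDensity
  refine liminf_le_liminf ?_ ht.isBoundedUnder_ge (bdd_above hS H).isCoboundedUnder_ge
  filter_upwards [eventually_ge_atTop (c + D)] with r hr
  set k := (r - c) / D with hk
  have hk1 : D * k + c ≤ r := by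
    have := Nat.mul_div_le (r - c) D
    rw [← hk] at this
    omega
  have hk0 : 1 ≤ k := by
    rw [hk, Nat.one_le_div_iff (by omega)]
    omega
  have hfin : (ball S r ∩ H).Finite := (ball_finite hS r).inter_of_left _
  have hNH : n ^ k ≤ (ball S r ∩ H).ncard :=
    (hH k).trans (Set.ncard_le_ncard (Set.inter_subset_inter_left _ (ball_mono hk1)) hfin)
  have hNN : (ball S r ∩ H).ncard ≤ (ball S r).ncard :=
    Set.ncard_le_ncard Set.inter_subset_left (ball_finite hS r)
  have hnk : 2 ≤ n ^ k := hn.trans (Nat.le_self_pow (by omega) n)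
  have hNpos : (2 : ℝ) ≤ ((ball S r).ncard : ℝ) := by exact_mod_cast hnk.trans (hNH.trans hNN)
  have hlogN : 0 < Real.log ((ball S r).ncard : ℝ) := Real.log_pos (by linarith)
  have hlogN2 : Real.log ((ball S r).ncard : ℝ) ≤ Real.log K * r + Real.log C := by
    have h1 := Real.log_le_log (by linarith) (hN r)
    rw [Real.log_mul (by positivity) (by positivity), Real.log_pow] at h1
    linarith
  have hlogH : (k : ℝ) * Real.log n ≤ Real.log ((ball S r ∩ H).ncard : ℝ) := by
    rw [← Real.log_pow]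
    refine Real.log_le_log (by positivity) ?_
    exact_mod_cast hNH
  have hkr : (r : ℝ) / D - ((c : ℝ) / D + 1) ≤ k := by
    have h1 : r - c < D * (k + 1) := by
      have := Nat.lt_mul_div_succ (r - c) (by omega : 0 < D)
      simpa using this
    have h2 : (r : ℝ) ≤ D * (k + 1) + c := by
      have : r ≤ D * (k + 1) + c := by omega
      exact_mod_cast this
    have h3 : (r : ℝ) / D ≤ (k + 1) + c / D := by
      rw [div_le_iff₀ hD']
      have e : ((k : ℝ) + 1 + c / D) * D = D * (k + 1) + c := by field_simp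
      rw [e]; exact h2
    linarith
  unfold logRatio
  rw [div_le_div_iff₀ (by linarith) hlogN]
  have h5 : (Real.log n / D * r + -((c : ℝ) / D + 1) * Real.log n) ≤ k * Real.log n := by
    have e : (Real.log n / D * r + -((c : ℝ) / D + 1) * Real.log n) =
      ((r : ℝ) / D - ((c : ℝ) / D + 1)) * Real.log n := by ring
    rw [e]
    exact mul_le_mul_of_nonneg_right hkr hlogn.le
  have h6 : 0 ≤ (k : ℝ) * Real.log n := by positivity
  calc (Real.log n / D * r + -((c : ℝ) / D + 1) * Real.log n) * Real.log ((ball S r).ncard : ℝ)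
      ≤ (k * Real.log n) * Real.log ((ball S r).ncard : ℝ) :=
        mul_le_mul_of_nonneg_right h5 hlogN.le
    _ ≤ Real.log ((ball S r ∩ H).ncard : ℝ) * (Real.log K * r + Real.log C) :=
        mul_le_mul hlogH hlogN2 hlogN.le (h6.trans hlogH)

lemma upper_of_count {S : Set G} {H : Set G} {M : ℝ} (hM : 1 ≤ M) {n : ℕ}
    (hn : 2 ≤ n) (hH : ∀ r, ((ball S r ∩ H).ncard : ℝ) ^ 2 ≤ M ^ r)
    (hN : ∀ r, n ^ r ≤ (ball S r).ncard) :
    upperLogDensity S H ≤ Real.log M / (2 * Real.log n) := by
  have hlogn : 0 < Real.log n := Real.log_pos (by exact_mod_cast hn)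
  have hlogM : 0 ≤ Real.log M := Real.log_nonneg hM
  unfold upperLogDensity
  refine limsup_le_of_le (bdd_below S H).isCoboundedUnder_le ?_
  filter_upwards [eventually_gt_atTop 0] with r hr
  have hr' : (0 : ℝ) < r := by exact_mod_cast hr
  unfold logRatio
  have h1 : (r : ℝ) * Real.log n ≤ Real.log ((ball S r).ncard : ℝ) := by
    rw [← Real.log_pow]
    refine Real.log_le_log (by positivity) ?_
    exact_mod_cast hN r
  have h2 : 2 * Real.log ((ball S r ∩ H).ncard : ℝ) ≤ r * Real.log M := by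
    rcases Nat.eq_zero_or_pos (ball S r ∩ H).ncard with h0 | h0
    · rw [h0]; simp; positivity
    · have h0' : (0 : ℝ) < (ball S r ∩ H).ncard := by exact_mod_cast h0
      have h3 := Real.log_le_log (by positivity) (hH r)
      rw [Real.log_pow, Real.log_pow] at h3
      exact_mod_cast h3
  have h4 : 0 < Real.log ((ball S r).ncard : ℝ) := lt_of_lt_of_le (by positivity) h1
  rw [div_le_div_iff₀ h4 (by positivity)]
  calc Real.log ((ball S r ∩ H).ncard : ℝ) * (2 * Real.log n)
      = (2 * Real.log ((ball S r ∩ H).ncard : ℝ)) * Real.log n := by ring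
    _ ≤ (r * Real.log M) * Real.log n := mul_le_mul_of_nonneg_right h2 hlogn.le
    _ = Real.log M * (r * Real.log n) := by ring
    _ ≤ Real.log M * Real.log ((ball S r).ncard : ℝ) := mul_le_mul_of_nonneg_left h1 hlogM

end Density

end Pool.Agent.Helper119.MG
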