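import Pool.Agent.Helper119.MG.Tw

/-! The twists as mapping classes. -/

namespace Pool.Agent.Helper119.MG

variable {g : ℕ}

/-! The twists (computation on homology adapted from helper233's file). -/

lemma homologyClass_mul (x y : SurfaceGroup g) :
    homologyClass (x * y) = homologyClass x + homologyClass y := by
  unfold homologyClass
  rw [map_mul, toAdd_mul]

lemma homologyClass_of (j : Fin g ⊕ Fin g) :
    homologyClass (gen j : SurfaceGroup g) = Pi.single j 1 := by
  unfold homologyClass homologyHom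
  rw [outHom_gen]
  rfl

lemma homologyClass_zpow (x : SurfaceGroup g) (k : ℤ) :
    homologyClass (x ^ k) = k • homologyClass x := by
  unfold homologyClass
  rw [map_zpow, toAdd_zpow]

/-- two additive-type functions agreeing on generators agree -/
lemma hom_ext_class {F : SurfaceGroup g → Fin g ⊕ Fin g → ℤ}
    {F' : SurfaceGroup g → Fin g ⊕ Fin g → ℤ}
    (h : ∀ x y, F (x * y) = F x + F y) (h' : ∀ x y, F' (x * y) = F' x + F' y)
    (hof : ∀ j, F (gen j) = F' (gen j)) (x : SurfaceGroup g) :
    F x = F' x := by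
  let Φ : SurfaceGroup g →* Multiplicative (Fin g ⊕ Fin g → ℤ) :=
    MonoidHom.mk' (fun x => Multiplicative.ofAdd (F x)) (fun x y => by rw [h]; rfl)
  let Φ' : SurfaceGroup g →* Multiplicative (Fin g ⊕ Fin g → ℤ) :=
    MonoidHom.mk' (fun x => Multiplicative.ofAdd (F' x)) (fun x y => by rw [h']; rfl)
  have : Φ = Φ' := by
    refine surface_ext ?_
    intro j
    change Multiplicative.ofAdd (F _) = Multiplicative.ofAdd (F' _)
    rw [hof]
  exact Multiplicative.ofAdd.injective (DFunLike.congr_fun this x)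

/-- action on homology of `autA` -/
lemma homologyClass_autA (i0 : Fin g) (k : ℤ) (x : SurfaceGroup g) :
    homologyClass (autA i0 k x) =
      homologyClass x + (k * homologyClass x (Sum.inr i0)) • Pi.single (Sum.inl i0) 1 := by
  refine hom_ext_class (F := fun x => homologyClass (autA i0 k x))
    (F' := fun x => homologyClass x + (k * homologyClass x (Sum.inr i0)) •
      Pi.single (Sum.inl i0) 1) ?_ ?_ ?_ x
  · intro x y
    simp only [map_mul, homologyClass_mul]
  · intro x y
    simp only [homologyClass_mul, Pi.add_apply, mul_add, add_smul]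
    abel
  · intro j
    change homologyClass (twA i0 k (gen j)) = _
    rw [twA_of]
    by_cases h : j = Sum.inr i0
    · subst h
      rw [if_pos rfl]
      simp only [homologyClass_mul, homologyClass_zpow, homologyClass_of]
      simp
    · rw [if_neg h, homologyClass_of]
      simp [Ne.symm h]

/-- action on homology of `autB` -/
lemma homologyClass_autB (i0 : Fin g) (k : ℤ) (x : SurfaceGroup g) :
    homologyClass (autB i0 k x) =
      homologyClass x + (k * homologyClass x (Sum.inl i0)) • Pi.single (Sum.inr i0) 1 := by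
  refine hom_ext_class (F := fun x => homologyClass (autB i0 k x))
    (F' := fun x => homologyClass x + (k * homologyClass x (Sum.inl i0)) •
      Pi.single (Sum.inr i0) 1) ?_ ?_ ?_ x
  · intro x y
    simp only [map_mul, homologyClass_mul]
  · intro x y
    simp only [homologyClass_mul, Pi.add_apply, mul_add, add_smul]
    abel
  · intro j
    change homologyClass (twB i0 k (gen j)) = _
    rw [twB_of]
    by_cases h : j = Sum.inl i0
    · subst h
      rw [if_pos rfl]
      simp only [homologyClass_mul, homologyClass_zpow, homologyClass_of]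
      simp
    · rw [if_neg h, homologyClass_of]
      simp [Ne.symm h]

lemma autA_mem (i0 : Fin g) (k : ℤ) : autA i0 k ∈ orientedAut g := by
  intro x y
  rw [homologyClass_autA, homologyClass_autA]
  unfold intersectionForm
  refine Finset.sum_congr rfl (fun i _ => ?_)
  by_cases h : i = i0
  · subst h
    simp
    ring
  · simp [h]

lemma autB_mem (i0 : Fin g) (k : ℤ) : autB i0 k ∈ orientedAut g := by
  intro x y
  rw [homologyClass_autB, homologyClass_autB]
  unfold intersectionForm
  refine Finset.sum_congr rfl (fun i _ => ?_)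
  by_cases h : i = i0
  · subst h
    simp
    ring
  · simp [h]

/-- `T_a^k` in the handle `i0` -/
def tA (i0 : Fin g) (k : ℤ) : orientedAut g := ⟨autA i0 k, autA_mem i0 k⟩

/-- `T_b^k` in the handle `i0` -/
def tB (i0 : Fin g) (k : ℤ) : orientedAut g := ⟨autB i0 k, autB_mem i0 k⟩

/-- The automorphism `T_a^i T_b^5 T_a^{-i}`, the fifth power of the Dehn twist about the curve
`T_a^i(b)`, in the handle `i0`. -/
def tau (i0 : Fin g) (i : ℕ) : orientedAut g := tA i0 i * tB i0 5 * tA i0 (-i)

lemma iForm_add_left (u v w : Fin g ⊕ Fin g → ℤ) :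
    intersectionForm (u + v) w = intersectionForm u w + intersectionForm v w := by
  unfold intersectionForm
  rw [← Finset.sum_add_distrib]
  refine Finset.sum_congr rfl (fun i _ => ?_)
  simp only [Pi.add_apply]
  ring

lemma iForm_smul_left (s : ℤ) (u w : Fin g ⊕ Fin g → ℤ) :
    intersectionForm (s • u) w = s * intersectionForm u w := by
  unfold intersectionForm
  rw [Finset.mul_sum]
  refine Finset.sum_congr rfl (fun i _ => ?_)
  simp only [Pi.smul_apply, smul_eq_mul]
  ring

lemma iForm_swap (u w : Fin g ⊕ Fin g → ℤ) :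
    intersectionForm u w = -intersectionForm w u := by
  unfold intersectionForm
  rw [← Finset.sum_neg_distrib]
  refine Finset.sum_congr rfl (fun i _ => ?_)
  ring

lemma iForm_single (i : Fin g) (w : Fin g ⊕ Fin g → ℤ) :
    intersectionForm (Pi.single (Sum.inl i) 1) w = w (Sum.inr i) := by
  unfold intersectionForm
  rw [Finset.sum_eq_single i]
  · simp
  · intro j _ hj
    simp [hj]
  · intro h
    exact absurd (Finset.mem_univ i) h

/-- the homology class of the linking curve -/
def eL (i : ℕ) (hi : i + 1 < g) : Fin g ⊕ Fin g → ℤ :=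
  Pi.single (Sum.inl ⟨i, by omega⟩) 1 - Pi.single (Sum.inl ⟨i + 1, hi⟩) 1

lemma homologyClass_linkCurve (i : ℕ) (hi : i + 1 < g) :
    homologyClass (linkCurve i hi) = eL i hi := by
  unfold linkCurve eL
  have hinv : ∀ x : SurfaceGroup g, homologyClass x⁻¹ = -homologyClass x := by
    intro x
    unfold homologyClass
    rw [map_inv, toAdd_inv]
  simp only [homologyClass_mul, hinv, homologyClass_of]
  abel

/-- action on homology of `autL` -/
lemma homologyClass_autL (i : ℕ) (hi : i + 1 < g) (k : ℤ) (x : SurfaceGroup g) :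
    homologyClass (autL i hi k x) =
      homologyClass x + (k * (homologyClass x (Sum.inr ⟨i + 1, hi⟩) -
        homologyClass x (Sum.inr ⟨i, by omega⟩))) • eL i hi := by
  refine hom_ext_class (F := fun x => homologyClass (autL i hi k x))
    (F' := fun x => homologyClass x + (k * (homologyClass x (Sum.inr ⟨i + 1, hi⟩) -
        homologyClass x (Sum.inr ⟨i, by omega⟩))) • eL i hi) ?_ ?_ ?_ x
  · intro x y
    simp only [map_mul, homologyClass_mul]
  · intro x y
    simp only [homologyClass_mul, Pi.add_apply]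
    module
  · intro j
    change homologyClass (twL i hi k (gen j)) = _
    by_cases h1 : j = Sum.inr ⟨i, by omega⟩
    · subst h1
      rw [twL_b, homologyClass_mul, homologyClass_zpow, homologyClass_linkCurve,
        homologyClass_of]
      simp
      abel
    · by_cases h2 : j = Sum.inl ⟨i + 1, hi⟩
      · subst h2
        rw [twL_c, homologyClass_mul, homologyClass_mul, homologyClass_zpow, homologyClass_zpow,
          homologyClass_linkCurve, homologyClass_of]
        simp
      · by_cases h3 : j = Sum.inr ⟨i + 1, hi⟩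
        · subst h3
          rw [twL_d, homologyClass_mul, homologyClass_zpow, homologyClass_linkCurve,
            homologyClass_of]
          simp
        · have h4 : linkFun i hi k j = gen j := by
            simp only [linkFun, if_neg h1, if_neg h2, if_neg h3]
          rw [twL_gen, h4, homologyClass_of]
          simp [Ne.symm h1, Ne.symm h3]

lemma autL_mem (i : ℕ) (hi : i + 1 < g) (k : ℤ) : autL i hi k ∈ orientedAut g := by
  intro x y
  rw [homologyClass_autL, homologyClass_autL]
  set u := homologyClass x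
  set v := homologyClass y
  have hE : ∀ w : Fin g ⊕ Fin g → ℤ, intersectionForm (eL i hi) w =
      w (Sum.inr ⟨i, by omega⟩) - w (Sum.inr ⟨i + 1, hi⟩) := by
    intro w
    have e : eL i hi = Pi.single (Sum.inl ⟨i, by omega⟩) 1 +
        (-1 : ℤ) • Pi.single (Sum.inl ⟨i + 1, hi⟩) 1 := by
      unfold eL; module
    rw [e, iForm_add_left, iForm_smul_left, iForm_single, iForm_single]
    ring
  have hEE : intersectionForm (eL i hi) (eL i hi) = 0 := by
    rw [hE]
    simp [eL]
  rw [iForm_add_left, iForm_smul_left, iForm_swap u, iForm_add_left, iForm_smul_left,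
    iForm_swap (eL i hi) (v + _), iForm_add_left, iForm_smul_left, hEE, hE, iForm_swap v (eL i hi),
    hE, iForm_swap v u]
  ring

/-- the linking twist as an element of `orientedAut` -/
def tL (i : ℕ) (hi : i + 1 < g) (k : ℤ) : orientedAut g := ⟨autL i hi k, autL_mem i hi k⟩

lemma aut_ext {φ ψ : MulAut (SurfaceGroup g)} (h : ∀ j, φ (gen j) = ψ (gen j)) : φ = ψ := by
  have e : φ.toMonoidHom = ψ.toMonoidHom := surface_ext h
  ext x
  exact DFunLike.congr_fun e x

lemma oriented_ext {φ ψ : orientedAut g} (h : ∀ j, (φ : MulAut (SurfaceGroup g)) (gen j) =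
    (ψ : MulAut (SurfaceGroup g)) (gen j)) : φ = ψ :=
  Subtype.ext (aut_ext h)

lemma tA_gen (i0 : Fin g) (k : ℤ) (j : Fin g ⊕ Fin g) :
    (tA i0 k : MulAut (SurfaceGroup g)) (gen j) = if j = Sum.inr i0 then
      gen (Sum.inr i0) * (gen (Sum.inl i0)) ^ k else gen j := twA_of i0 k j

lemma tB_gen (i0 : Fin g) (k : ℤ) (j : Fin g ⊕ Fin g) :
    (tB i0 k : MulAut (SurfaceGroup g)) (gen j) = if j = Sum.inl i0 then
      gen (Sum.inl i0) * (gen (Sum.inr i0)) ^ k else gen j := twB_of i0 k j

lemma tL_gen (i : ℕ) (hi : i + 1 < g) (k : ℤ) (j : Fin g ⊕ Fin g) :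
    (tL i hi k : MulAut (SurfaceGroup g)) (gen j) = linkFun i hi k j := twL_gen i hi k j

lemma isTwistA_iff (i0 : Fin g) (φ : orientedAut g) : IsTwistA i0 φ ↔ φ = tA i0 1 := by
  constructor
  · intro h
    refine oriented_ext (fun j => ?_)
    rw [h j, tA_gen, zpow_one]
  · rintro rfl j
    rw [tA_gen, zpow_one]

lemma isTwistB_iff (i0 : Fin g) (φ : orientedAut g) : IsTwistB i0 φ ↔ φ = tB i0 1 := by
  constructor
  · intro h
    refine oriented_ext (fun j => ?_)
    rw [h j, tB_gen, zpow_one]
  · rintro rfl j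
    rw [tB_gen, zpow_one]

lemma isTwistL_iff (i : ℕ) (hi : i + 1 < g) (φ : orientedAut g) :
    IsTwistL i hi φ ↔ φ = tL i hi 1 := by
  have key : ∀ j, linkFun i hi 1 j =
      if j = Sum.inr ⟨i, by omega⟩ then (linkCurve i hi)⁻¹ * gen j
      else if j = Sum.inl ⟨i + 1, hi⟩ then (linkCurve i hi)⁻¹ * gen j * linkCurve i hi
      else if j = Sum.inr ⟨i + 1, hi⟩ then gen j * linkCurve i hi
      else gen j := by
    intro j
    unfold linkFun
    split_ifs with h1 h2 h3
    · rw [h1, zpow_neg, zpow_one]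
    · rw [h2, zpow_neg, zpow_one]
    · rw [h3, zpow_one]
    · rfl
  constructor
  · intro h
    refine oriented_ext (fun j => ?_)
    rw [h j, tL_gen, key]
  · rintro rfl j
    rw [tL_gen, key]

lemma tA_add (i0 : Fin g) (k l : ℤ) : tA i0 (k + l) = tA i0 k * tA i0 l := by
  refine oriented_ext (fun j => ?_)
  change _ = (tA i0 k : MulAut (SurfaceGroup g)) ((tA i0 l : MulAut (SurfaceGroup g)) (gen j))
  rw [tA_gen, tA_gen]
  by_cases h : j = Sum.inr i0
  · rw [if_pos h, if_pos h, map_mul, map_zpow, tA_gen, tA_gen, if_pos rfl, if_neg (by simp),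
      zpow_add]
    group
  · rw [if_neg h, if_neg h, tA_gen, if_neg h]

lemma tB_add (i0 : Fin g) (k l : ℤ) : tB i0 (k + l) = tB i0 k * tB i0 l := by
  refine oriented_ext (fun j => ?_)
  change _ = (tB i0 k : MulAut (SurfaceGroup g)) ((tB i0 l : MulAut (SurfaceGroup g)) (gen j))
  rw [tB_gen, tB_gen]
  by_cases h : j = Sum.inl i0
  · rw [if_pos h, if_pos h, map_mul, map_zpow, tB_gen, tB_gen, if_pos rfl, if_neg (by simp),
      zpow_add]
    group
  · rw [if_neg h, if_neg h, tB_gen, if_neg h]

lemma tA_zero (i0 : Fin g) : tA i0 0 = 1 := by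
  have h := tA_add i0 0 0
  rw [add_zero] at h
  exact left_eq_mul.1 h

lemma tB_zero (i0 : Fin g) : tB i0 0 = 1 := by
  have h := tB_add i0 0 0
  rw [add_zero] at h
  exact left_eq_mul.1 h

lemma tA_pow (i0 : Fin g) (n : ℕ) : tA i0 1 ^ n = tA i0 n := by
  induction n with
  | zero => rw [pow_zero, Nat.cast_zero, tA_zero]
  | succ n ih => rw [pow_succ, ih, ← tA_add]; norm_cast

lemma tB_pow (i0 : Fin g) (n : ℕ) : tB i0 1 ^ n = tB i0 n := by
  induction n with
  | zero => rw [pow_zero, Nat.cast_zero, tB_zero]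
  | succ n ih => rw [pow_succ, ih, ← tB_add]; norm_cast

lemma tA_inv (i0 : Fin g) (k : ℤ) : (tA i0 k)⁻¹ = tA i0 (-k) := by
  rw [inv_eq_iff_mul_eq_one, ← tA_add, add_neg_cancel, tA_zero]

lemma tB_inv (i0 : Fin g) (k : ℤ) : (tB i0 k)⁻¹ = tB i0 (-k) := by
  rw [inv_eq_iff_mul_eq_one, ← tB_add, add_neg_cancel, tB_zero]

lemma toMod_pow (φ : orientedAut g) (n : ℕ) : toMod (φ ^ n) = toMod φ ^ n := rfl

lemma tau_eq (i0 : Fin g) (i : ℕ) :
    toMod (tA i0 1) ^ i * toMod (tB i0 1) ^ 5 * (toMod (tA i0 1) ^ i)⁻¹ = toMod (tau i0 i) := by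
  have e : tau i0 i = tA i0 1 ^ i * tB i0 1 ^ 5 * (tA i0 1 ^ i)⁻¹ := by
    rw [tA_pow, tB_pow, tA_inv]
    rfl
  rw [e, ← toMod_pow, ← toMod_pow]
  rfl

lemma mem_fifthTwists {n : ℕ} {x : Mod g} :
    x ∈ fifthTwists g n ↔ ∃ (h : 0 < g) (i : ℕ), i < n ∧ x = toMod (tau ⟨0, h⟩ i) := by
  constructor
  · rintro ⟨h, ta, tb, i, ha, hb, hi, rfl⟩
    rw [isTwistA_iff] at ha
    rw [isTwistB_iff] at hb
    subst ha hb
    exact ⟨h, i, hi, by rw [tau_eq]⟩
  · rintro ⟨h, i, hi, rfl⟩
    exact ⟨h, tA _ 1, tB _ 1, i, (isTwistA_iff _ _).2 rfl, (isTwistB_iff _ _).2 rfl, hi,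
      by rw [tau_eq]⟩

lemma mem_lickorish {x : Mod g} : x ∈ lickorish g ↔ (∃ i : Fin g, x = toMod (tA i 1)) ∨
    (∃ i : Fin g, x = toMod (tB i 1)) ∨ (∃ (i : ℕ) (hi : i + 1 < g), x = toMod (tL i hi 1)) := by
  constructor
  · rintro ⟨φ, rfl, ⟨i, h⟩ | ⟨i, h⟩ | ⟨i, hi, h⟩⟩
    · rw [isTwistA_iff] at h
      exact Or.inl ⟨i, by rw [h]⟩
    · rw [isTwistB_iff] at h
      exact Or.inr (Or.inl ⟨i, by rw [h]⟩)
    · rw [isTwistL_iff] at h
      exact Or.inr (Or.inr ⟨i, hi, by rw [h]⟩)
  · rintro (⟨i, rfl⟩ | ⟨i, rfl⟩ | ⟨i, hi, rfl⟩)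
    · exact ⟨_, rfl, Or.inl ⟨i, (isTwistA_iff _ _).2 rfl⟩⟩
    · exact ⟨_, rfl, Or.inr (Or.inl ⟨i, (isTwistB_iff _ _).2 rfl⟩)⟩
    · exact ⟨_, rfl, Or.inr (Or.inr ⟨i, hi, (isTwistL_iff _ _ _).2 rfl⟩)⟩

end Pool.Agent.Helper119.MG
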