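import Pool.Agent.Helper119.MG.Words
import Pool.Agent.Helper119.MG.Twists

/-! Deep elements of the Johnson filtration and their conjugates. -/

namespace Pool.Agent.Helper119.MG

variable {g : ℕ}

/-- product of the twists along a list -/
def tw (i0 : Fin g) (l : List ℕ) : orientedAut g := (l.map (tau i0)).prod

lemma impl_tau (hg : 2 ≤ g) (i : ℕ) :
    Impl hg (tau ⟨0, by omega⟩ i : orientedAut g) (tm i) := by
  have h := impl_mul hg (impl_mul hg (impl_autA hg i) (impl_autB hg 5)) (impl_autA hg (-i))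
  have e : tv (-(i : ℤ)) (1, 0) * tv 5 (0, 1) * tv (- -(i : ℤ)) (1, 0) = tm i := by
    rw [← tv_inv_eq (-(i : ℤ)), conj_tv]
    unfold tm
    congr 1
    rw [tv_apply]
    simp [om]
  rw [e] at h
  exact h

lemma impl_tw (hg : 2 ≤ g) (l : List ℕ) :
    Impl hg (tw ⟨0, by omega⟩ l : orientedAut g) (wm l) := by
  induction l with
  | nil => exact impl_one hg
  | cons i l ih =>
    have h := impl_mul hg (impl_tau hg i) ih
    have e1 : (tw ⟨0, by omega⟩ (i :: l) : orientedAut g) =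
        tau ⟨0, by omega⟩ i * tw ⟨0, by omega⟩ l := by
      unfold tw; rw [List.map_cons, List.prod_cons]
    have e2 : wm (i :: l) = tm i * wm l := by
      unfold wm; rw [List.map_cons, List.prod_cons]
    rw [e1, e2]
    exact h

/-- the first Torelli element -/
def u0 (hg : 2 ≤ g) : MulAut (SurfaceGroup g) :=
  (autA ⟨0, by omega⟩ (-3) * autB ⟨0, by omega⟩ 1) * uAut hg *
    (autA ⟨0, by omega⟩ (-3) * autB ⟨0, by omega⟩ 1)⁻¹

/-- the second Torelli element -/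
def u1 (hg : 2 ≤ g) : MulAut (SurfaceGroup g) :=
  (autA ⟨0, by omega⟩ (-4) * autB ⟨0, by omega⟩ 1) * uAut hg *
    (autA ⟨0, by omega⟩ (-4) * autB ⟨0, by omega⟩ 1)⁻¹

lemma triv_u0 (hg : 2 ≤ g) : TrivMod (u0 hg) 1 := triv_conj (triv_u hg) _
lemma triv_u1 (hg : 2 ≤ g) : TrivMod (u1 hg) 1 := triv_conj (triv_u hg) _

lemma impl_u0 (hg : 2 ≤ g) : Impl hg (u0 hg) (tv 4 (-2, 1)) := by
  have h := impl_mul hg (impl_mul hg (impl_mul hg (impl_autA hg (-3)) (impl_autB hg 1))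
    (impl_u hg)) (impl_inv hg (impl_mul hg (impl_autA hg (-3)) (impl_autB hg 1)))
  have e : tv (- -3) (1, 0) * tv 1 (0, 1) * tv 4 (1, 0) * (tv (- -3) (1, 0) * tv 1 (0, 1))⁻¹ =
      tv 4 (-2, 1) := by
    rw [mul_inv_rev, mul_assoc, mul_assoc, ← mul_assoc (tv 4 (1, 0)), ← mul_assoc (tv 1 (0, 1)),
      ← mul_assoc (tv 1 (0, 1)), conj_tv, ← mul_assoc, conj_tv]
    congr 1
  rw [e] at h
  exact h

lemma impl_u1 (hg : 2 ≤ g) : Impl hg (u1 hg) (tv 4 (-3, 1)) := by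
  have h := impl_mul hg (impl_mul hg (impl_mul hg (impl_autA hg (-4)) (impl_autB hg 1))
    (impl_u hg)) (impl_inv hg (impl_mul hg (impl_autA hg (-4)) (impl_autB hg 1)))
  have e : tv (- -4) (1, 0) * tv 1 (0, 1) * tv 4 (1, 0) * (tv (- -4) (1, 0) * tv 1 (0, 1))⁻¹ =
      tv 4 (-3, 1) := by
    rw [mul_inv_rev, mul_assoc, mul_assoc, ← mul_assoc (tv 4 (1, 0)), ← mul_assoc (tv 1 (0, 1)),
      ← mul_assoc (tv 1 (0, 1)), conj_tv, ← mul_assoc, conj_tv]
    congr 1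
  rw [e] at h
  exact h

/-- iterated commutators -/
def xa (hg : 2 ≤ g) : ℕ → MulAut (SurfaceGroup g)
  | 0 => u0 hg
  | (m + 1) => xa hg m * u1 hg * (xa hg m)⁻¹ * (u1 hg)⁻¹

lemma triv_xa (hg : 2 ≤ g) (m : ℕ) : TrivMod (xa hg m) (m + 1) := by
  induction m with
  | zero => exact triv_u0 hg
  | succ m ih => exact triv_comm ih (triv_u1 hg)

lemma impl_xa (hg : 2 ≤ g) (m : ℕ) : Impl hg (xa hg (m + 1)) (xm m) := by
  induction m with
  | zero =>
    have h := impl_mul hg (impl_mul hg (impl_mul hg (impl_u0 hg) (impl_u1 hg))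
      (impl_inv hg (impl_u0 hg))) (impl_inv hg (impl_u1 hg))
    rw [conj_tv] at h
    have e : tv 4 (-2, 1) (-3, 1) = fv 0 := by
      rw [tv_apply]
      simp [fv, pq, om]
    rw [e] at h
    exact h
  | succ m ih =>
    have h := impl_mul hg (impl_mul hg (impl_mul hg ih (impl_u1 hg))
      (impl_inv hg ih)) (impl_inv hg (impl_u1 hg))
    have e : xm m * tv 4 (-3, 1) * (xm m)⁻¹ * (tv 4 (-3, 1))⁻¹ = xm (m + 1) := by
      unfold xm
      have e2 : tv 4 (fv m) * (tv 4 (-3, 1))⁻¹ * tv 4 (-3, 1) *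
          (tv 4 (fv m) * (tv 4 (-3, 1))⁻¹)⁻¹ =
          tv 4 (fv m) * tv 4 (-3, 1) * (tv 4 (fv m))⁻¹ := by group
      rw [e2, conj_tv, fv_succ]
    rw [e] at h
    exact h

lemma xa_mem (hg : 2 ≤ g) (m : ℕ) : xa hg m ∈ orientedAut g := by
  have h0 : u0 hg ∈ orientedAut g := triv_one_preserves (triv_u0 hg)
  have h1 : u1 hg ∈ orientedAut g := triv_one_preserves (triv_u1 hg)
  induction m with
  | zero => exact h0
  | succ m ih => exact mul_mem (mul_mem (mul_mem ih h1) (inv_mem ih)) (inv_mem h1)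

/-- the deep element of `T_g(m)` -/
def deep (hg : 2 ≤ g) (m : ℕ) : orientedAut g := ⟨xa hg (m + 1), xa_mem hg (m + 1)⟩

lemma toMod_mul (φ ψ : orientedAut g) : toMod (φ * ψ) = toMod φ * toMod ψ := rfl
lemma toMod_inv (φ : orientedAut g) : toMod φ⁻¹ = (toMod φ)⁻¹ := rfl

lemma johnson_of_triv {φ : orientedAut g} {m : ℕ}
    (h : TrivMod (φ : MulAut (SurfaceGroup g)) m) : toMod φ ∈ johnson g m := by
  refine ⟨φ, rfl, 1, ?_⟩
  intro y
  have h1 := h y
  have h2 := (lc_normal m).conj_mem _ h1 y⁻¹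
  have e : y⁻¹ * ((φ : MulAut (SurfaceGroup g)) y * y⁻¹) * y⁻¹⁻¹ =
    (1 * y * 1⁻¹)⁻¹ * (φ : MulAut (SurfaceGroup g)) y := by group
  rw [← e]
  exact h2

lemma deep_conj_mem (hg : 2 ≤ g) (m : ℕ) (φ : orientedAut g) :
    toMod φ * toMod (deep hg m) * (toMod φ)⁻¹ ∈ johnson g m := by
  rw [← toMod_mul, ← toMod_inv, ← toMod_mul]
  apply johnson_of_triv
  have h := triv_conj (triv_xa hg (m + 1)) (φ : MulAut (SurfaceGroup g))
  intro y
  have h2 := h y
  exact Subgroup.lowerCentralSeries_antitone _ (by omega : m ≤ m + 1 + 1) h2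

/-- The conjugates of the deep element by positive words of the same length are distinct. -/
lemma deep_inj (hg : 2 ≤ g) (m : ℕ) (l l' : List ℕ) (hlen : l.length = l'.length)
    (h : toMod (tw ⟨0, by omega⟩ l) * toMod (deep hg m) * (toMod (tw ⟨0, by omega⟩ l))⁻¹ =
      toMod (tw ⟨0, by omega⟩ l') * toMod (deep hg m) * (toMod (tw ⟨0, by omega⟩ l'))⁻¹) :
    l = l' := by
  rw [← toMod_mul, ← toMod_inv, ← toMod_mul, ← toMod_mul, ← toMod_inv, ← toMod_mul] at h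
  have h' : (QuotientGroup.mk (tw ⟨0, by omega⟩ l' * deep hg m * (tw ⟨0, by omega⟩ l')⁻¹) :
      orientedAut g ⧸ innerAut g) =
      QuotientGroup.mk (tw ⟨0, by omega⟩ l * deep hg m * (tw ⟨0, by omega⟩ l)⁻¹) := h.symm
  rw [QuotientGroup.eq, innerAut, Subgroup.mem_subgroupOf] at h'
  obtain ⟨w, hw⟩ := h'
  have e : ((tw ⟨0, by omega⟩ l * deep hg m * (tw ⟨0, by omega⟩ l)⁻¹ : orientedAut g) :
      MulAut (SurfaceGroup g)) =
      ((tw ⟨0, by omega⟩ l' * deep hg m * (tw ⟨0, by omega⟩ l')⁻¹ : orientedAut g) :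
      MulAut (SurfaceGroup g)) * MulAut.conj w := by
    rw [hw, ← Subgroup.coe_mul]
    congr 1
    group
  have i1 : Impl hg ((tw ⟨0, by omega⟩ l * deep hg m * (tw ⟨0, by omega⟩ l)⁻¹ : orientedAut g) :
      MulAut (SurfaceGroup g)) (wm l * xm m * (wm l)⁻¹) :=
    impl_mul hg (impl_mul hg (impl_tw hg l) (impl_xa hg m)) (impl_inv hg (impl_tw hg l))
  have i2 : Impl hg ((tw ⟨0, by omega⟩ l' * deep hg m * (tw ⟨0, by omega⟩ l')⁻¹ : orientedAut g) :
      MulAut (SurfaceGroup g)) (wm l' * xm m * (wm l')⁻¹) :=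
    impl_mul hg (impl_mul hg (impl_tw hg l') (impl_xa hg m)) (impl_inv hg (impl_tw hg l'))
  have key := impl_unique hg i1 i2 w e
  refine form_inj (Q := qf m) (fun i v hv => qf_pos m i v hv) ⟨fv m, qf_fv m⟩ (qf_zero m)
    l l' hlen ?_
  have hq : ∀ (l : List ℕ) (v : ℤ × ℤ), qf m ((wm l)⁻¹ v) =
      om v ((wm l * xm m * (wm l)⁻¹) v) := by
    intro l v
    rw [Equiv.Perm.mul_apply, Equiv.Perm.mul_apply, wm_inv_om]
    rfl
  rcases key with key | key
  · left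
    intro v
    rw [hq, hq, key]
  · right
    intro v
    rw [hq, hq, key]
    simp only [om, Prod.fst_neg, Prod.snd_neg]
    ring

end Pool.Agent.Helper119.MG
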