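import Mathlib

/-! Definitions: surface groups, mapping class groups, the Johnson filtration, balls and
logarithmic densities. Adapted from helper233's file on the Torelli group. -/

open Filter Topology

namespace Pool.Agent.Helper119.MG

/-- The ball of radius `r` for the word length given by the set `S` and the inverses of its
elements: all products of at most `r` factors, each of which lies in `S` or has its inverse
in `S`. -/
def ball {G : Type*} [Group G] (S : Set G) (r : ℕ) : Set G :=
  {x | ∃ l : List G, l.length ≤ r ∧ (∀ y ∈ l, y ∈ S ∨ y⁻¹ ∈ S) ∧ l.prod = x}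

/-- The quotient `log #(B(r) ∩ A) / log #B(r)`, for the word length of `S`. -/
noncomputable def logRatio {G : Type*} [Group G] (S A : Set G) (r : ℕ) : ℝ :=
  Real.log ((ball S r ∩ A).ncard) / Real.log ((ball S r).ncard)

/-- The lower logarithmic density of `A`, for the word length of `S`. -/
noncomputable def lowerLogDensity {G : Type*} [Group G] (S A : Set G) : ℝ :=
  liminf (logRatio S A) atTop

/-- The upper logarithmic density of `A`, for the word length of `S`. -/
noncomputable def upperLogDensity {G : Type*} [Group G] (S A : Set G) : ℝ :=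
  limsup (logRatio S A) atTop

/-- The relator `[a_1,b_1] [a_2,b_2] ... [a_g,b_g]`; `Sum.inl i` stands for `a_i` and
`Sum.inr i` for `b_i`. -/
def surfaceRelator (g : ℕ) : FreeGroup (Fin g ⊕ Fin g) :=
  (List.ofFn (fun i : Fin g =>
    FreeGroup.of (Sum.inl i) * FreeGroup.of (Sum.inr i) *
      (FreeGroup.of (Sum.inl i))⁻¹ * (FreeGroup.of (Sum.inr i))⁻¹)).prod

/-- The fundamental group of the closed oriented surface of genus `g`. -/
def SurfaceGroup (g : ℕ) : Type :=
  PresentedGroup ({surfaceRelator g} : Set (FreeGroup (Fin g ⊕ Fin g)))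

instance (g : ℕ) : Group (SurfaceGroup g) :=
  instGroupPresentedGroup ({surfaceRelator g} : Set (FreeGroup (Fin g ⊕ Fin g)))

/-- The generators of the surface group. -/
def gen {g : ℕ} (j : Fin g ⊕ Fin g) : SurfaceGroup g :=
  PresentedGroup.of (rels := {surfaceRelator g}) j

/-- Homomorphisms out of the surface group, given by the images of the generators. -/
def outHom {g : ℕ} {H : Type*} [Group H] (f : Fin g ⊕ Fin g → H)
    (h : FreeGroup.lift f (surfaceRelator g) = 1) : SurfaceGroup g →* H :=
  PresentedGroup.toGroup (rels := {surfaceRelator g}) (f := f)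
    (fun r hr => by rw [Set.mem_singleton_iff.1 hr]; exact h)

lemma outHom_gen {g : ℕ} {H : Type*} [Group H] (f : Fin g ⊕ Fin g → H)
    (h : FreeGroup.lift f (surfaceRelator g) = 1) (j : Fin g ⊕ Fin g) :
    outHom f h (gen j) = f j :=
  PresentedGroup.toGroup.of (rels := {surfaceRelator g}) _

lemma surface_ext {g : ℕ} {H : Type*} [Group H] {φ ψ : SurfaceGroup g →* H}
    (h : ∀ j, φ (gen j) = ψ (gen j)) : φ = ψ :=
  PresentedGroup.ext (rels := {surfaceRelator g}) h

lemma lift_relator {g : ℕ} {H : Type*} [Group H] (f : Fin g ⊕ Fin g → H) :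
    FreeGroup.lift f (surfaceRelator g) =
      (List.ofFn (fun i : Fin g => f (Sum.inl i) * f (Sum.inr i) *
      (f (Sum.inl i))⁻¹ * (f (Sum.inr i))⁻¹)).prod := by
  unfold surfaceRelator
  rw [map_list_prod, List.map_ofFn]
  congr 2
  funext i
  simp

/-- The homology class in `H_1 = ℤ^{2g}` of an element of the surface group: the homomorphism
sending each generator to the corresponding basis vector. -/
def homologyHom (g : ℕ) : SurfaceGroup g →* Multiplicative (Fin g ⊕ Fin g → ℤ) :=
  outHom (fun j => Multiplicative.ofAdd (Pi.single j 1 : Fin g ⊕ Fin g → ℤ)) (by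
      rw [lift_relator]
      refine List.prod_eq_one ?_
      intro x hx
      rw [List.mem_ofFn] at hx
      obtain ⟨i, rfl⟩ := hx
      rw [mul_comm (Multiplicative.ofAdd _) (Multiplicative.ofAdd _)]
      group)

/-- The coordinates of the homology class. -/
def homologyClass {g : ℕ} (x : SurfaceGroup g) : Fin g ⊕ Fin g → ℤ :=
  Multiplicative.toAdd (homologyHom g x)

/-- The algebraic intersection form on `ℤ^{2g}`, with `a_i · b_i = 1`. -/
def intersectionForm {g : ℕ} (u v : Fin g ⊕ Fin g → ℤ) : ℤ :=
  ∑ i : Fin g, (u (Sum.inl i) * v (Sum.inr i) - u (Sum.inr i) * v (Sum.inl i))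

/-- The automorphism `φ` of the surface group preserves the intersection form on homology. -/
def PreservesForm {g : ℕ} (φ : MulAut (SurfaceGroup g)) : Prop :=
  ∀ x y, intersectionForm (homologyClass (φ x)) (homologyClass (φ y)) =
    intersectionForm (homologyClass x) (homologyClass y)

/-- Automorphisms of the surface group whose action on homology preserves the algebraic
intersection form (equivalently, the orientation-preserving ones). -/
def orientedAut (g : ℕ) : Subgroup (MulAut (SurfaceGroup g)) where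
  carrier := {φ | PreservesForm φ}
  one_mem' := fun _ _ => rfl
  mul_mem' := by
    intro φ ψ hφ hψ x y
    rw [MulAut.mul_apply, MulAut.mul_apply, hφ, hψ]
  inv_mem' := by
    intro φ hφ x y
    rw [← hφ (φ⁻¹ x) (φ⁻¹ y), MulAut.apply_inv_self, MulAut.apply_inv_self]

/-- The inner automorphisms, as a subgroup of `orientedAut g`. -/
def innerAut (g : ℕ) : Subgroup (orientedAut g) :=
  ((MulAut.conj : SurfaceGroup g →* MulAut (SurfaceGroup g)).range).subgroupOf (orientedAut g)

instance innerAut_normal (g : ℕ) : (innerAut g).Normal := by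
  refine ⟨?_⟩
  rintro ⟨φ, hφ⟩ hin ⟨ψ, hψ⟩
  rw [innerAut, Subgroup.mem_subgroupOf] at hin ⊢
  obtain ⟨x, hx⟩ := hin
  refine ⟨ψ x, ?_⟩
  simp only at hx
  ext y
  simp only [Subgroup.coe_mul, InvMemClass.coe_inv, MulAut.mul_apply, ← hx, MulAut.conj_apply,
    map_mul, map_inv, MulAut.apply_inv_self]

/-- The mapping class group `Mod_g` of the closed oriented surface of genus `g`, as the group of
orientation-preserving outer automorphisms of its fundamental group. -/
def Mod (g : ℕ) : Type := orientedAut g ⧸ innerAut g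

instance (g : ℕ) : Group (Mod g) := QuotientGroup.Quotient.group (innerAut g)

/-- The mapping class of an automorphism. -/
def toMod {g : ℕ} (φ : orientedAut g) : Mod g := QuotientGroup.mk φ

/-- The `m`-th term `T_g(m)` of the Johnson filtration: the mapping classes of the automorphisms
`φ` of `π` inducing an inner automorphism `y ↦ w y w⁻¹` of `π / γ_{m+1} π`. In Mathlib the term
`(⊤ : Subgroup π).lowerCentralSeries m` is `γ_{m+1} π`. -/
def johnson (g m : ℕ) : Set (Mod g) :=
  {x | ∃ φ : orientedAut g, toMod φ = x ∧ ∃ w : SurfaceGroup g, ∀ y : SurfaceGroup g,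
    (w * y * w⁻¹)⁻¹ * (φ : MulAut (SurfaceGroup g)) y ∈
      (⊤ : Subgroup (SurfaceGroup g)).lowerCentralSeries m}

/-- `φ` is the Dehn twist about the curve `a` of the handle `i0`: it maps `b` to `b a` and fixes
all other generators. -/
def IsTwistA {g : ℕ} (i0 : Fin g) (φ : orientedAut g) : Prop :=
  ∀ j, (φ : MulAut (SurfaceGroup g)) (gen j) =
    if j = Sum.inr i0 then gen (Sum.inr i0) * gen (Sum.inl i0) else gen j

/-- `φ` is the Dehn twist about the curve `b` of the handle `i0`: it maps `a` to `a b` and fixes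
all other generators. -/
def IsTwistB {g : ℕ} (i0 : Fin g) (φ : orientedAut g) : Prop :=
  ∀ j, (φ : MulAut (SurfaceGroup g)) (gen j) =
    if j = Sum.inl i0 then gen (Sum.inl i0) * gen (Sum.inr i0) else gen j

/-- The curve `c⁻¹ b a b⁻¹`, where `a, b` are the generators of the handle `i` and `c, d` those
of the handle `i+1`. -/
def linkCurve {g : ℕ} (i : ℕ) (hi : i + 1 < g) : SurfaceGroup g :=
  (gen (Sum.inl ⟨i + 1, hi⟩))⁻¹ * gen (Sum.inr ⟨i, by omega⟩) * gen (Sum.inl ⟨i, by omega⟩) *
    (gen (Sum.inr ⟨i, by omega⟩))⁻¹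

/-- `φ` is the Dehn twist about the curve `e = c⁻¹ b a b⁻¹` linking the handles `i` and `i+1`: it
maps `b ↦ e⁻¹ b`, `c ↦ e⁻¹ c e`, `d ↦ d e` and fixes all other generators. -/
def IsTwistL {g : ℕ} (i : ℕ) (hi : i + 1 < g) (φ : orientedAut g) : Prop :=
  ∀ j, (φ : MulAut (SurfaceGroup g)) (gen j) =
    if j = Sum.inr ⟨i, by omega⟩ then (linkCurve i hi)⁻¹ * gen j
    else if j = Sum.inl ⟨i + 1, hi⟩ then (linkCurve i hi)⁻¹ * gen j * linkCurve i hi
    else if j = Sum.inr ⟨i + 1, hi⟩ then gen j * linkCurve i hi
    else gen j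

/-- The mapping classes `t_i = T_a^i T_b^5 T_a^{-i}`, `i < n`, in the first handle: `t_i` is the
fifth power of the Dehn twist about the curve `T_a^i(b)`. -/
def fifthTwists (g n : ℕ) : Set (Mod g) :=
  {x | ∃ (h : 0 < g) (ta tb : orientedAut g) (i : ℕ), IsTwistA ⟨0, h⟩ ta ∧
    IsTwistB ⟨0, h⟩ tb ∧ i < n ∧ x = toMod ta ^ i * toMod tb ^ 5 * (toMod ta ^ i)⁻¹}

/-- The set `S ∪ {t_0, ..., t_{n-1}}` of mapping classes. -/
def withTwists {g : ℕ} (S : Finset (Mod g)) (n : ℕ) : Set (Mod g) :=
  (S : Set (Mod g)) ∪ fifthTwists g n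

/-- The set `S` generates the mapping class group. -/
def Generates {g : ℕ} (S : Set (Mod g)) : Prop := Subgroup.closure S = ⊤

/-- For the word length of `S`, the lower and the upper logarithmic density of `T_g(m)` are
within `δ` of `1/2`. -/
def NearHalf {g : ℕ} (S : Set (Mod g)) (m : ℕ) (δ : ℝ) : Prop :=
  1 / 2 - δ ≤ lowerLogDensity S (johnson g m) ∧
    lowerLogDensity S (johnson g m) ≤ upperLogDensity S (johnson g m) ∧
    upperLogDensity S (johnson g m) ≤ 1 / 2 + δ

/-- Lickorish's twists: the `3g - 1` mapping classes of the Dehn twists about the curves `a_i`,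
`b_i` and the curves `c⁻¹ b a b⁻¹` linking consecutive handles. -/
def lickorish (g : ℕ) : Set (Mod g) :=
  {x | ∃ φ : orientedAut g, x = toMod φ ∧ ((∃ i : Fin g, IsTwistA i φ) ∨
    (∃ i : Fin g, IsTwistB i φ) ∨ (∃ (i : ℕ) (hi : i + 1 < g), IsTwistL i hi φ))}

end Pool.Agent.Helper119.MG
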