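import Pool.Agent.Helper119.MG.Defs

/-! Further definitions for the statements: separating twists. -/

namespace Pool.Agent.Helper119.MG

/-- `φ` is the Dehn twist about the boundary curve `s = a b a⁻¹ b⁻¹` of the handle `i0`: it
conjugates `a` and `b` by `s` and fixes all other generators. -/
def IsTwistS {g : ℕ} (i0 : Fin g) (φ : orientedAut g) : Prop :=
  ∀ j, (φ : MulAut (SurfaceGroup g)) (gen j) =
    if j = Sum.inl i0 ∨ j = Sum.inr i0 then
      (gen (Sum.inl i0) * gen (Sum.inr i0) * (gen (Sum.inl i0))⁻¹ * (gen (Sum.inr i0))⁻¹) *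
        gen j *
      (gen (Sum.inl i0) * gen (Sum.inr i0) * (gen (Sum.inl i0))⁻¹ * (gen (Sum.inr i0))⁻¹)⁻¹
    else gen j

/-- conjugation `c x c⁻¹` -/
def cj {g : ℕ} (c x : Mod g) : Mod g := c * x * c⁻¹

/-- The mapping classes `z_i = (t_i L) T_s (t_i L)⁻¹`, `i < k`, where `t_i = T_a^i T_b^5 T_a^{-i}`
is as in `fifthTwists`, `T_s` is the twist about the boundary curve `s` of the first handle and
`L` is the twist linking the first two handles: `z_i` is the Dehn twist about the separating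
curve `t_i L (s)`. -/
def sepTwists (g k : ℕ) : Set (Mod g) :=
  {x | ∃ (h : 0 + 1 < g) (ta tb tl ts : orientedAut g) (i : ℕ), IsTwistA ⟨0, by omega⟩ ta ∧
    IsTwistB ⟨0, by omega⟩ tb ∧ IsTwistL 0 h tl ∧ IsTwistS ⟨0, by omega⟩ ts ∧ i < k ∧
    x = cj (toMod ta ^ i * toMod tb ^ 5 * (toMod ta ^ i)⁻¹ * toMod tl) (toMod ts)}

/-- The set `S ∪ {t_0, ..., t_{n-1}} ∪ {z_0, ..., z_{k-1}}` of mapping classes. -/
def withBoth {g : ℕ} (S : Finset (Mod g)) (n k : ℕ) : Set (Mod g) :=
  (S : Set (Mod g)) ∪ fifthTwists g n ∪ sepTwists g k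

/-- For the word length of `S`, the lower and the upper logarithmic density of `T_g(m)` are
within `δ` of `α`. -/
def Near {g : ℕ} (S : Set (Mod g)) (m : ℕ) (α δ : ℝ) : Prop :=
  α - δ ≤ lowerLogDensity S (johnson g m) ∧
    lowerLogDensity S (johnson g m) ≤ upperLogDensity S (johnson g m) ∧
    upperLogDensity S (johnson g m) ≤ α + δ

end Pool.Agent.Helper119.MG
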