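import Pool.Agent.Helper119.MG.Deep

/-! Energy estimate for cosets. This part is adapted from helper233's file on the Torelli
group. -/

open scoped ENNReal Pointwise
open Filter Topology

namespace Pool.Agent.Helper119.MG

section General

variable {G : Type*} [Group G] [DecidableEq G] {X : Type*} [MulAction G X]

open Classical in
/-- number of elements `a` of the finite set `A` with `a • x0 = x` -/
noncomputable def cnt (x0 : X) (A : Finset G) (x : X) : ℝ≥0∞ :=
  ((A.filter (fun a => a • x0 = x)).card : ℝ≥0∞)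

lemma cnt_mul (x0 : X) (L A : Finset G) (x : X) :
    cnt x0 (L * A) x ≤ ∑ l ∈ L, cnt x0 A (l⁻¹ • x) := by
  classical
  unfold cnt
  have h1 : (L * A).filter (fun a => a • x0 = x) ⊆
      L.biUnion (fun l => (A.filter (fun a => a • x0 = l⁻¹ • x)).image (fun a => l * a)) := by
    intro y hy
    rw [Finset.mem_filter] at hy
    obtain ⟨hy, hx⟩ := hy
    obtain ⟨l, hl, a, ha, rfl⟩ := Finset.mem_mul.1 hy
    rw [Finset.mem_biUnion]
    refine ⟨l, hl, ?_⟩
    rw [Finset.mem_image]
    refine ⟨a, ?_, rfl⟩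
    rw [Finset.mem_filter]
    refine ⟨ha, ?_⟩
    rw [← hx, mul_smul, inv_smul_smul]
  have h2 : ((L * A).filter (fun a => a • x0 = x)).card ≤
      ∑ l ∈ L, (A.filter (fun a => a • x0 = l⁻¹ • x)).card := by
    refine (Finset.card_le_card h1).trans (Finset.card_biUnion_le.trans ?_)
    exact Finset.sum_le_sum (fun l _ => Finset.card_image_le)
  exact_mod_cast h2

/-- sum of squares -/
noncomputable def en (f : X → ℝ≥0∞) : ℝ≥0∞ := ∑' x, (f x) ^ 2

omit [DecidableEq G] in
lemma en_smul (f : X → ℝ≥0∞) (g : G) : en (fun x => f (g⁻¹ • x)) = en f := by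
  unfold en
  exact (MulAction.toPerm g⁻¹).tsum_eq (fun x => (f x) ^ 2)

lemma sq_sum_le {ι : Type*} (s : Finset ι) (f : ι → ℝ≥0∞) :
    (∑ i ∈ s, f i) ^ 2 ≤ (s.card : ℝ≥0∞) * ∑ i ∈ s, (f i) ^ 2 := by
  have h := ENNReal.rpow_sum_le_const_mul_sum_rpow s f (p := 2) (by norm_num)
  have e : (2 : ℝ) - 1 = 1 := by norm_num
  rw [e, ENNReal.rpow_one] at h
  have e2 : ∀ x : ℝ≥0∞, x ^ (2 : ℝ) = x ^ 2 := fun x => by
    rw [← ENNReal.rpow_natCast]; norm_num
  simpa [e2] using h

lemma en_sum_le {ι : Type*} (s : Finset ι) (f : ι → X → ℝ≥0∞) (E : ℝ≥0∞)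
    (h : ∀ i ∈ s, en (f i) ≤ E) :
    en (fun x => ∑ i ∈ s, f i x) ≤ (s.card : ℝ≥0∞) ^ 2 * E := by
  unfold en at *
  calc ∑' x, (∑ i ∈ s, f i x) ^ 2
      ≤ ∑' x, (s.card : ℝ≥0∞) * ∑ i ∈ s, (f i x) ^ 2 :=
        ENNReal.tsum_le_tsum (fun x => sq_sum_le s _)
    _ = (s.card : ℝ≥0∞) * ∑ i ∈ s, ∑' x, (f i x) ^ 2 := by
        rw [ENNReal.tsum_mul_left, Summable.tsum_finsetSum (fun i _ => ENNReal.summable)]
    _ ≤ (s.card : ℝ≥0∞) * ∑ i ∈ s, E := by gcongr with i hi; exact h i hi
    _ = (s.card : ℝ≥0∞) ^ 2 * E := by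
        rw [Finset.sum_const, nsmul_eq_mul]; ring

lemma add3_sq (a b c : ℝ≥0∞) : (a + b + c) ^ 2 ≤ 3 * (a ^ 2 + b ^ 2 + c ^ 2) := by
  have h := sq_sum_le (Finset.univ : Finset (Fin 3)) ![a, b, c]
  simpa [Fin.sum_univ_three] using h

lemma en_add3 (f g h : X → ℝ≥0∞) :
    en (fun x => f x + g x + h x) ≤ 3 * (en f + en g + en h) := by
  unfold en
  calc ∑' x, (f x + g x + h x) ^ 2 ≤ ∑' x, 3 * ((f x) ^ 2 + (g x) ^ 2 + (h x) ^ 2) :=
        ENNReal.tsum_le_tsum (fun x => add3_sq _ _ _)
    _ = 3 * (∑' x, (f x) ^ 2 + ∑' x, (g x) ^ 2 + ∑' x, (h x) ^ 2) := by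
        rw [ENNReal.tsum_mul_left, ENNReal.tsum_add, ENNReal.tsum_add]

lemma en_mono {f g : X → ℝ≥0∞} (h : ∀ x, f x ≤ g x) : en f ≤ en g :=
  ENNReal.tsum_le_tsum (fun x => by gcongr; exact h x)


lemma sum_indicator_sq_le {I : Type*} [Fintype I] (R : I → Set X)
    (hR : ∀ i j, i ≠ j → Disjoint (R i) (R j)) (h : I → X → ℝ≥0∞) (x : X) :
    (∑ i, (R i).indicator (h i) x) ^ 2 ≤ ∑ i, ((R i).indicator (h i) x) ^ 2 := by
  by_cases hx : ∃ i, x ∈ R i
  · obtain ⟨i, hi⟩ := hx
    have h0 : ∀ j, j ≠ i → (R j).indicator (h j) x = 0 := by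
      intro j hj
      refine Set.indicator_of_notMem ?_ _
      intro hxj
      exact Set.disjoint_left.1 (hR j i hj) hxj hi
    rw [Finset.sum_eq_single i (fun j _ hj => h0 j hj) (fun h => absurd (Finset.mem_univ i) h)]
    exact Finset.single_le_sum (f := fun i => ((R i).indicator (h i) x) ^ 2)
      (fun _ _ => zero_le) (Finset.mem_univ i)
  · have h0 : ∀ j, (R j).indicator (h j) x = 0 := by
      intro j
      exact Set.indicator_of_notMem (fun hj => hx ⟨j, hj⟩) _
    simp [h0]

lemma sum_indicator_sq_le' {I : Type*} [Fintype I] (R : I → Set X)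
    (hR : ∀ i j, i ≠ j → Disjoint (R i) (R j)) (f : X → ℝ≥0∞) (x : X) :
    ∑ i, ((R i).indicator f x) ^ 2 ≤ (f x) ^ 2 := by
  by_cases hx : ∃ i, x ∈ R i
  · obtain ⟨i, hi⟩ := hx
    have h0 : ∀ j, j ≠ i → ((R j).indicator f x) ^ 2 = 0 := by
      intro j hj
      rw [Set.indicator_of_notMem]
      · simp
      · intro hxj
        exact Set.disjoint_left.1 (hR j i hj) hxj hi
    rw [Finset.sum_eq_single i (fun j _ hj => h0 j hj) (fun h => absurd (Finset.mem_univ i) h)]
    rw [Set.indicator_of_mem hi]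
  · have h0 : ∀ j, ((R j).indicator f x) ^ 2 = 0 := by
      intro j
      rw [Set.indicator_of_notMem (fun hj => hx ⟨j, hj⟩) _]
      simp
    simp [h0]

omit [DecidableEq G] in
lemma en_good {I : Type*} [Fintype I] (c : I → G) (R : I → Set X)
    (hR : ∀ i j, i ≠ j → Disjoint (R i) (R j)) (f : X → ℝ≥0∞) :
    en (fun x => ∑ i, (R i).indicator (fun y => f ((c i)⁻¹ • y)) x) ≤
      (Fintype.card I : ℝ≥0∞) * en f := by
  calc en (fun x => ∑ i, (R i).indicator (fun y => f ((c i)⁻¹ • y)) x)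
      ≤ ∑' x, ∑ i, ((R i).indicator (fun y => f ((c i)⁻¹ • y)) x) ^ 2 :=
        ENNReal.tsum_le_tsum (fun x => sum_indicator_sq_le R hR _ x)
    _ ≤ ∑' x, ∑ i, (f ((c i)⁻¹ • x)) ^ 2 := by
        refine ENNReal.tsum_le_tsum (fun x => Finset.sum_le_sum (fun i _ => ?_))
        gcongr
        exact Set.indicator_le_self' (f := fun y => f ((c i)⁻¹ • y)) (fun _ _ => zero_le) x
    _ = ∑ i, ∑' x, (f ((c i)⁻¹ • x)) ^ 2 := by
        rw [Summable.tsum_finsetSum (fun i _ => ENNReal.summable)]
    _ = ∑ i : I, en f := by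
        refine Finset.sum_congr rfl (fun i _ => ?_)
        exact en_smul f (c i)
    _ = (Fintype.card I : ℝ≥0∞) * en f := by
        rw [Finset.sum_const, nsmul_eq_mul, Finset.card_univ]

omit [DecidableEq G] in
lemma en_bad {I : Type*} [Fintype I] (c : I → G) (R : I → Set X)
    (hR : ∀ i j, i ≠ j → Disjoint (R i) (R j)) (f : X → ℝ≥0∞) :
    en (fun x => ∑ i, (R i).indicator f ((c i)⁻¹ • x)) ≤
      (Fintype.card I : ℝ≥0∞) * en f := by
  calc en (fun x => ∑ i, (R i).indicator f ((c i)⁻¹ • x))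
      ≤ ∑' x, (Fintype.card I : ℝ≥0∞) * ∑ i, ((R i).indicator f ((c i)⁻¹ • x)) ^ 2 :=
        ENNReal.tsum_le_tsum (fun x => sq_sum_le _ _)
    _ = (Fintype.card I : ℝ≥0∞) * ∑ i, ∑' x, ((R i).indicator f ((c i)⁻¹ • x)) ^ 2 := by
        rw [ENNReal.tsum_mul_left, Summable.tsum_finsetSum (fun i _ => ENNReal.summable)]
    _ = (Fintype.card I : ℝ≥0∞) * ∑ i, ∑' x, ((R i).indicator f x) ^ 2 := by
        congr 1
        refine Finset.sum_congr rfl (fun i _ => ?_)
        exact en_smul ((R i).indicator f) (c i)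
    _ = (Fintype.card I : ℝ≥0∞) * ∑' x, ∑ i, ((R i).indicator f x) ^ 2 := by
        rw [Summable.tsum_finsetSum (fun i _ => ENNReal.summable)]
    _ ≤ (Fintype.card I : ℝ≥0∞) * en f := by
        gcongr
        exact ENNReal.tsum_le_tsum (fun x => sum_indicator_sq_le' R hR f x)

lemma cnt_union (x0 : X) (A B : Finset G) (x : X) :
    cnt x0 (A ∪ B) x ≤ cnt x0 A x + cnt x0 B x := by
  classical
  unfold cnt
  rw [Finset.filter_union]
  exact_mod_cast Finset.card_union_le _ _

lemma cnt_mul' {I : Type*} [Fintype I] (x0 : X) (c : I → G) (A : Finset G) (x : X) :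
    cnt x0 ((Finset.univ.image c) * A) x ≤ ∑ i, cnt x0 A ((c i)⁻¹ • x) := by
  classical
  unfold cnt
  have h1 : ((Finset.univ.image c) * A).filter (fun a => a • x0 = x) ⊆
      Finset.univ.biUnion
        (fun i => (A.filter (fun a => a • x0 = (c i)⁻¹ • x)).image (fun a => c i * a)) := by
    intro y hy
    rw [Finset.mem_filter] at hy
    obtain ⟨hy, hx⟩ := hy
    obtain ⟨l, hl, a, ha, rfl⟩ := Finset.mem_mul.1 hy
    obtain ⟨i, -, rfl⟩ := Finset.mem_image.1 hl
    rw [Finset.mem_biUnion]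
    refine ⟨i, Finset.mem_univ i, ?_⟩
    rw [Finset.mem_image]
    refine ⟨a, ?_, rfl⟩
    rw [Finset.mem_filter]
    refine ⟨ha, ?_⟩
    rw [← hx, mul_smul, inv_smul_smul]
  have h2 : (((Finset.univ.image c) * A).filter (fun a => a • x0 = x)).card ≤
      ∑ i, (A.filter (fun a => a • x0 = (c i)⁻¹ • x)).card := by
    refine (Finset.card_le_card h1).trans (Finset.card_biUnion_le.trans ?_)
    exact Finset.sum_le_sum (fun l _ => Finset.card_image_le)
  exact_mod_cast h2

/-- one step of the energy estimate -/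
lemma en_step {I : Type*} [Fintype I] (x0 : X) (P : Finset G) (c : I → G) (o : I → I)
    (ho : Function.Injective o) (R : I → Set X)
    (hR : ∀ i j, i ≠ j → Disjoint (R i) (R j))
    (hc : ∀ i x, x ∉ R (o i) → c i • x ∈ R i) (A : Finset G) :
    en (cnt x0 ((P ∪ Finset.univ.image c) * A)) ≤
      3 * ((P.card : ℝ≥0∞) ^ 2 + 2 * (Fintype.card I : ℝ≥0∞)) * en (cnt x0 A) := by
  have hpt : ∀ x, cnt x0 ((P ∪ Finset.univ.image c) * A) x ≤
      (∑ l ∈ P, cnt x0 A (l⁻¹ • x)) +
      (∑ i, (R i).indicator (fun y => cnt x0 A ((c i)⁻¹ • y)) x) +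
      (∑ i, (R (o i)).indicator (cnt x0 A) ((c i)⁻¹ • x)) := by
    intro x
    rw [Finset.union_mul, add_assoc]
    refine (cnt_union x0 _ _ x).trans ?_
    refine add_le_add (cnt_mul x0 P A x) ?_
    refine (cnt_mul' x0 c A x).trans ?_
    rw [← Finset.sum_add_distrib]
    refine Finset.sum_le_sum (fun i _ => ?_)
    by_cases h : (c i)⁻¹ • x ∈ R (o i)
    · rw [Set.indicator_of_mem h]
      exact le_add_self
    · have h2 := hc i _ h
      rw [smul_inv_smul] at h2
      rw [Set.indicator_of_mem h2]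
      exact le_self_add
  refine (en_mono hpt).trans ((en_add3 _ _ _).trans ?_)
  have e1 : en (fun x => ∑ l ∈ P, cnt x0 A (l⁻¹ • x)) ≤ (P.card : ℝ≥0∞) ^ 2 * en (cnt x0 A) := by
    refine en_sum_le P (fun l x => cnt x0 A (l⁻¹ • x)) _ ?_
    intro l _
    exact (en_smul (cnt x0 A) l).le
  have e2 := en_good c R hR (cnt x0 A)
  have e3 := en_bad c (fun i => R (o i)) (fun i j hij => hR _ _ (fun h => hij (ho h))) (cnt x0 A)
  calc 3 * (en (fun x => ∑ l ∈ P, cnt x0 A (l⁻¹ • x)) +
        en (fun x => ∑ i, (R i).indicator (fun y => cnt x0 A ((c i)⁻¹ • y)) x) +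
        en (fun x => ∑ i, (R (o i)).indicator (cnt x0 A) ((c i)⁻¹ • x)))
      ≤ 3 * ((P.card : ℝ≥0∞) ^ 2 * en (cnt x0 A) + (Fintype.card I : ℝ≥0∞) * en (cnt x0 A) +
        (Fintype.card I : ℝ≥0∞) * en (cnt x0 A)) := by gcongr
    _ = 3 * ((P.card : ℝ≥0∞) ^ 2 + 2 * (Fintype.card I : ℝ≥0∞)) * en (cnt x0 A) := by ring

omit [DecidableEq G] in
lemma en_one (x0 : X) : en (cnt x0 (1 : Finset G)) = 1 := by
  classical
  unfold en
  rw [tsum_eq_single x0]
  · unfold cnt
    have : (1 : Finset G).filter (fun a => a • x0 = x0) = 1 := by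
      ext a; simp only [Finset.mem_filter, Finset.mem_one]
      constructor
      · exact fun h => h.1
      · rintro rfl; simp
    rw [this]; simp
  · intro y hy
    unfold cnt
    have : (1 : Finset G).filter (fun a => a • x0 = y) = ∅ := by
      ext a; simp only [Finset.mem_filter, Finset.mem_one, Finset.notMem_empty, iff_false]
      rintro ⟨rfl, h⟩
      exact hy (by rw [← h, one_smul])
    rw [this]; simp

lemma en_pow {I : Type*} [Fintype I] (x0 : X) (P : Finset G) (c : I → G) (o : I → I)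
    (ho : Function.Injective o) (R : I → Set X)
    (hR : ∀ i j, i ≠ j → Disjoint (R i) (R j))
    (hc : ∀ i x, x ∉ R (o i) → c i • x ∈ R i) (r : ℕ) :
    en (cnt x0 ((P ∪ Finset.univ.image c) ^ r)) ≤
      (3 * ((P.card : ℝ≥0∞) ^ 2 + 2 * (Fintype.card I : ℝ≥0∞))) ^ r := by
  induction r with
  | zero => simp [en_one]
  | succ r ih =>
    rw [pow_succ' (P ∪ Finset.univ.image c), pow_succ']
    refine (en_step x0 P c o ho R hR hc _).trans ?_
    gcongr

open Classical in
/-- square of the number of stabilizing elements -/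
lemma card_stab_sq {I : Type*} [Fintype I] (x0 : X) (P : Finset G) (c : I → G) (o : I → I)
    (ho : Function.Injective o) (R : I → Set X)
    (hR : ∀ i j, i ≠ j → Disjoint (R i) (R j))
    (hc : ∀ i x, x ∉ R (o i) → c i • x ∈ R i) (r : ℕ) :
    ((((P ∪ Finset.univ.image c) ^ r).filter (fun a => a • x0 = x0)).card) ^ 2 ≤
      (3 * (P.card ^ 2 + 2 * Fintype.card I)) ^ r := by
  have h := en_pow x0 P c o ho R hR hc r
  have h2 : (cnt x0 ((P ∪ Finset.univ.image c) ^ r) x0) ^ 2 ≤
      en (cnt x0 ((P ∪ Finset.univ.image c) ^ r)) :=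
    ENNReal.le_tsum (f := fun x => (cnt x0 ((P ∪ Finset.univ.image c) ^ r) x) ^ 2) x0
  have h3 := h2.trans h
  unfold cnt at h3
  exact_mod_cast h3

/-- positive words in ping-pong elements are distinct -/
lemma card_pow_pos {n : ℕ} (x1 : X) (t : Fin n → G) (U V : Fin n → Set X)
    (hU : ∀ i j, i ≠ j → Disjoint (U i) (U j))
    (hUV : ∀ i j, Disjoint (U i) (V j))
    (ht : ∀ i x, x ∉ V i → t i • x ∈ U i)
    (hx1 : ∀ i, x1 ∉ V i) (r : ℕ) :
    ((Finset.univ.image t) ^ r).card = n ^ r ∧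
      ∀ a ∈ (Finset.univ.image t) ^ r, ∀ i, a • x1 ∉ V i := by
  have htinj : Function.Injective t := by
    intro i j hij
    by_contra hne
    have h1 := ht i x1 (hx1 i)
    have h2 := ht j x1 (hx1 j)
    rw [hij] at h1
    exact Set.disjoint_left.1 (hU i j hne) h1 h2
  induction r with
  | zero =>
    refine ⟨by simp, ?_⟩
    intro a ha i
    simp only [pow_zero, Finset.mem_one] at ha
    rw [ha, one_smul]; exact hx1 i
  | succ r ih =>
    obtain ⟨ih1, ih2⟩ := ih
    refine ⟨?_, ?_⟩
    · rw [pow_succ']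
      rw [Finset.card_mul_iff.2, ih1, Finset.card_image_of_injective _ htinj, Finset.card_univ,
        Fintype.card_fin, pow_succ']
      rintro ⟨p, a⟩ hpa ⟨q, b⟩ hqb hab
      simp only [Set.mem_prod, Finset.mem_coe] at hpa hqb
      obtain ⟨hp, ha⟩ := hpa
      obtain ⟨hq, hb⟩ := hqb
      obtain ⟨i, -, rfl⟩ := Finset.mem_image.1 hp
      obtain ⟨j, -, rfl⟩ := Finset.mem_image.1 hq
      simp only at hab
      have h1 : (t i * a) • x1 ∈ U i := by
        rw [mul_smul]; exact ht i _ (ih2 a ha i)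
      have h2 : (t j * b) • x1 ∈ U j := by
        rw [mul_smul]; exact ht j _ (ih2 b hb j)
      rw [hab] at h1
      have hij : i = j := by
        by_contra hne
        exact Set.disjoint_left.1 (hU i j hne) h1 h2
      subst hij
      have : a = b := mul_left_cancel hab
      rw [this]
    · intro a ha i
      rw [pow_succ'] at ha
      obtain ⟨l, hl, b, hb, rfl⟩ := Finset.mem_mul.1 ha
      obtain ⟨j, -, rfl⟩ := Finset.mem_image.1 hl
      have h2 : (t j * b) • x1 ∈ U j := by
        rw [mul_smul]; exact ht j _ (ih2 b hb j)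
      exact Set.disjoint_left.1 (hUV j i) h2


end General

lemma ball_eq {G : Type*} [Group G] [DecidableEq G] (S : Finset G) (r : ℕ) :
    ball (S : Set G) r = (((insert 1 (S ∪ S⁻¹)) ^ r : Finset G) : Set G) := by
  ext x
  constructor
  · rintro ⟨l, hl, hS, rfl⟩
    induction r generalizing l with
    | zero =>
      have : l = [] := List.length_eq_zero_iff.1 (Nat.le_zero.1 hl)
      subst this; simp
    | succ r ih =>
      cases l with
      | nil =>
        rw [Finset.mem_coe]
        exact Finset.one_mem_pow (Finset.mem_insert_self _ _)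
      | cons a l =>
        rw [pow_succ', Finset.mem_coe, List.prod_cons]
        refine Finset.mul_mem_mul ?_ ?_
        · rw [Finset.mem_insert, Finset.mem_union, Finset.mem_inv']
          rcases hS a (by simp) with h | h
          · right; left; exact_mod_cast h
          · right; right; exact_mod_cast h
        · have := ih l (by simpa using hl) (fun y hy => hS y (by simp [hy]))
          exact_mod_cast this
  · intro hx
    rw [Finset.mem_coe] at hx
    induction r generalizing x with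
    | zero =>
      simp only [pow_zero, Finset.mem_one] at hx
      exact ⟨[], by simp, by simp, by simp [hx]⟩
    | succ r ih =>
      rw [pow_succ'] at hx
      obtain ⟨a, ha, b, hb, rfl⟩ := Finset.mem_mul.1 hx
      obtain ⟨l, hl, hS, rfl⟩ := ih b hb
      rw [Finset.mem_insert, Finset.mem_union, Finset.mem_inv'] at ha
      rcases ha with rfl | h | h
      · exact ⟨l, by omega, hS, by simp⟩
      · refine ⟨a :: l, by simpa using hl, ?_, by simp⟩
        intro y hy
        rcases List.mem_cons.1 hy with rfl | hy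
        · left; exact_mod_cast h
        · exact hS y hy
      · refine ⟨a :: l, by simpa using hl, ?_, by simp⟩
        intro y hy
        rcases List.mem_cons.1 hy with rfl | hy
        · right; exact_mod_cast h
        · exact hS y hy

/-- Balls of finite sets are finite, so the cardinalities below are honest ones. -/
lemma ball_finite {G : Type*} [Group G] {S : Set G} (hS : S.Finite) (r : ℕ) :
    (ball S r).Finite := by
  classical
  have h := ball_eq hS.toFinset r
  rw [Set.Finite.coe_toFinset] at h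
  rw [h]
  exact Finset.finite_toSet _

/-- Balls contain the identity. -/
lemma one_mem_ball {G : Type*} [Group G] (S : Set G) (r : ℕ) : (1 : G) ∈ ball S r :=
  ⟨[], by simp, by simp, by simp⟩


open Classical in
theorem general_sq {G : Type*} [Group G] {X : Type*} [MulAction G X] (x0 : X)
    (t : ℕ → G) (U V : ℕ → Set X)
    (hU : ∀ i j, i ≠ j → Disjoint (U i) (U j))
    (hV : ∀ i j, i ≠ j → Disjoint (V i) (V j))
    (hUV : ∀ i j, Disjoint (U i) (V j))
    (ht : ∀ i x, x ∉ V i → t i • x ∈ U i)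
    (ht' : ∀ i x, x ∉ U i → (t i)⁻¹ • x ∈ V i)
    (S : Finset G) (n r : ℕ) :
      (ball ((S ∪ (Finset.range n).image t : Finset G) : Set G) r ∩
        {a | a • x0 = x0}).ncard ^ 2 ≤
      (3 * ((insert 1 (S ∪ S⁻¹)).card ^ 2 + 4 * n)) ^ r := by
  set P : Finset G := insert 1 (S ∪ S⁻¹) with hP
  set c : Fin n × Bool → G := fun p => if p.2 then t p.1 else (t p.1)⁻¹ with hc
  set R : Fin n × Bool → Set X := fun p => if p.2 then U p.1 else V p.1 with hRdef
  set o : Fin n × Bool → Fin n × Bool := fun p => (p.1, !p.2) with ho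
  have hoinj : Function.Injective o := by
    rintro ⟨i, a⟩ ⟨j, b⟩ h
    simp only [ho, Prod.mk.injEq] at h
    rw [h.1]
    simpa using h.2
  have hRd : ∀ p q, p ≠ q → Disjoint (R p) (R q) := by
    rintro ⟨i, a⟩ ⟨j, b⟩ hne
    have hij : a = b → (i : ℕ) ≠ j := by
      rintro rfl h
      exact hne (by rw [Fin.ext h])
    cases a <;> cases b <;> simp only [hRdef, if_true, Bool.false_eq_true, if_false]
    · exact hV _ _ (hij rfl)
    · exact (hUV _ _).symm
    · exact hUV _ _
    · exact hU _ _ (hij rfl)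
  have hcR : ∀ p x, x ∉ R (o p) → c p • x ∈ R p := by
    rintro ⟨i, a⟩ x hx
    cases a <;> simp only [hRdef, hc, ho, if_true, Bool.false_eq_true, if_false, Bool.not_true,
      Bool.not_false] at hx ⊢
    · exact ht' _ _ hx
    · exact ht _ _ hx
  have hL : insert 1 ((S ∪ (Finset.range n).image t) ∪ (S ∪ (Finset.range n).image t)⁻¹) =
      P ∪ Finset.univ.image c := by
    ext x
    simp only [hP, Finset.mem_insert, Finset.mem_union, Finset.mem_inv', Finset.mem_image,
      Finset.mem_range, Finset.mem_univ, true_and, Prod.exists, Bool.exists_bool, hc, if_true,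
      Bool.false_eq_true, if_false]
    constructor
    · rintro (h | (h | ⟨i, hi, h⟩) | (h | ⟨i, hi, h⟩))
      · left; left; exact h
      · left; right; left; exact h
      · right; exact ⟨⟨i, hi⟩, Or.inr h⟩
      · left; right; right; exact h
      · right; exact ⟨⟨i, hi⟩, Or.inl (by rw [h, inv_inv])⟩
    · rintro ((h | h | h) | ⟨i, h | h⟩)
      · left; exact h
      · right; left; left; exact h
      · right; right; left; exact h
      · right; right; right; exact ⟨i, i.2, by rw [← h, inv_inv]⟩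
      · right; left; right; exact ⟨i, i.2, h⟩
  rw [ball_eq, hL]
  have hsq := card_stab_sq x0 P c o hoinj R hRd hcR r
  have e1 : ((((P ∪ Finset.univ.image c) ^ r : Finset G) : Set G) ∩ {a | a • x0 = x0}) =
      ((((P ∪ Finset.univ.image c) ^ r).filter (fun a => a • x0 = x0) : Finset G) : Set G) := by
    ext x
    rw [Set.mem_inter_iff, Finset.mem_coe, Finset.mem_coe, Finset.mem_filter]
    rfl
  rw [e1, Set.ncard_coe_finset]
  have hI : Fintype.card (Fin n × Bool) = n * 2 := by simp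
  rw [hI] at hsq
  refine hsq.trans (le_of_eq ?_)
  ring

end Pool.Agent.Helper119.MG
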