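import Pool.Agent.Helper119.MG.Rep

/-! Automorphisms acting trivially modulo terms of the lower central series. -/

namespace Pool.Agent.Helper119.MG

section General

variable {G : Type*} [Group G]

/-- the `(n+1)`-st term of the lower central series -/
abbrev LC (G : Type*) [Group G] (n : ℕ) : Subgroup G := (⊤ : Subgroup G).lowerCentralSeries n

instance lc_normal (n : ℕ) : (LC G n).Normal := inferInstance

lemma lc_comm {n : ℕ} {x : G} (hx : x ∈ LC G n) (y : G) : x * y * x⁻¹ * y⁻¹ ∈ LC G (n + 1) := by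
  have h : x * y * x⁻¹ * y⁻¹ ∈ ⁅LC G n, (⊤ : Subgroup G)⁆ :=
    Subgroup.commutator_mem_commutator hx (Subgroup.mem_top y)
  exact h

lemma lc_map {n : ℕ} (φ : MulAut G) {x : G} (hx : x ∈ LC G n) : φ x ∈ LC G n := by
  have h : (LC G n).Characteristic := inferInstance
  have h1 := h.fixed φ
  rw [← h1] at hx
  exact hx

/-- the automorphism acts trivially modulo the `(n+1)`-st term of the lower central series -/
def TrivMod (φ : MulAut G) (n : ℕ) : Prop := ∀ y, φ y * y⁻¹ ∈ LC G n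

lemma mk_eq_iff {N : Subgroup G} [N.Normal] {x y : G} :
    (QuotientGroup.mk x : G ⧸ N) = QuotientGroup.mk y ↔ x * y⁻¹ ∈ N := by
  rw [QuotientGroup.eq_iff_div_mem, div_eq_mul_inv]

lemma mk_central {n : ℕ} {x : G} (hx : x ∈ LC G n) (q : G ⧸ LC G (n + 1)) :
    (QuotientGroup.mk x : G ⧸ LC G (n + 1)) * q = q * QuotientGroup.mk x := by
  obtain ⟨y, rfl⟩ := QuotientGroup.mk_surjective q
  rw [← QuotientGroup.mk_mul, ← QuotientGroup.mk_mul, mk_eq_iff]
  have h := lc_comm hx y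
  have e : x * y * (y * x)⁻¹ = x * y * x⁻¹ * y⁻¹ := by group
  rw [e]; exact h

lemma comm_le {k : ℕ} {p : G} (hp : p ∈ LC G k) {t : G} (ht : t ∈ LC G 1) :
    p * t * p⁻¹ * t⁻¹ ∈ LC G (k + 2) := by
  let N := LC G (k + 2)
  have hc : ∀ y : G, ∀ q : G ⧸ N, (QuotientGroup.mk (p * y * p⁻¹ * y⁻¹) : G ⧸ N) * q =
      q * QuotientGroup.mk (p * y * p⁻¹ * y⁻¹) := fun y q => mk_central (lc_comm hp y) q
  let f : G →* G ⧸ N := MonoidHom.mk' (fun x => QuotientGroup.mk (p * x * p⁻¹ * x⁻¹)) (by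
    intro x y
    have h1 := hc y (QuotientGroup.mk x⁻¹)
    have e : p * (x * y) * p⁻¹ * (x * y)⁻¹ =
        (p * x * p⁻¹ * x⁻¹) * x * ((p * y * p⁻¹ * y⁻¹) * x⁻¹) := by group
    rw [e, QuotientGroup.mk_mul, QuotientGroup.mk_mul _ (p * y * p⁻¹ * y⁻¹) x⁻¹, h1,
      ← QuotientGroup.mk_mul, ← QuotientGroup.mk_mul, ← QuotientGroup.mk_mul]
    congr 1
    group)
  have hle : (LC G 1) ≤ f.ker := by
    change ⁅(⊤ : Subgroup G), (⊤ : Subgroup G)⁆ ≤ f.ker
    rw [Subgroup.commutator_le]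
    intro x _ y _
    rw [MonoidHom.mem_ker, map_commutatorElement, commutatorElement_def]
    have h2 : f x * f y = f y * f x := hc x (f y)
    rw [h2]
    group
  have h := hle ht
  rw [MonoidHom.mem_ker] at h
  have h' : (QuotientGroup.mk (p * t * p⁻¹ * t⁻¹) : G ⧸ N) = 1 := h
  rwa [QuotientGroup.eq_one_iff] at h'

/-- a general induction principle for the terms of the lower central series -/
lemma lc_succ_induction {k n : ℕ} (φ : MulAut G)
    (h : ∀ p ∈ LC G k, ∀ q : G,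
      φ (p * q * p⁻¹ * q⁻¹) * (p * q * p⁻¹ * q⁻¹)⁻¹ ∈ LC G n) {y : G}
    (hy : y ∈ LC G (k + 1)) : φ y * y⁻¹ ∈ LC G n := by
  let K : Subgroup G :=
    { carrier := {y | φ y * y⁻¹ ∈ LC G n}
      one_mem' := by
        simp only [Set.mem_ofPred_eq, map_one, inv_one, mul_one]
        exact one_mem _
      mul_mem' := by
        intro a b ha hb
        simp only [Set.mem_ofPred_eq] at ha hb ⊢
        have e : φ (a * b) * (a * b)⁻¹ = (φ a * (φ b * b⁻¹) * (φ a)⁻¹) * (φ a * a⁻¹) := by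
          rw [map_mul]; group
        rw [e]
        exact mul_mem ((lc_normal n).conj_mem _ hb _) ha
      inv_mem' := by
        intro a ha
        simp only [Set.mem_ofPred_eq] at ha ⊢
        have e : φ a⁻¹ * (a⁻¹)⁻¹ = (φ a)⁻¹ * (φ a * a⁻¹)⁻¹ * ((φ a)⁻¹)⁻¹ := by
          rw [map_inv]; group
        rw [e]
        exact (lc_normal n).conj_mem _ (inv_mem ha) _ }
  have hle : LC G (k + 1) ≤ K := by
    change ⁅LC G k, (⊤ : Subgroup G)⁆ ≤ K
    rw [Subgroup.commutator_le]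
    intro p hp q _
    exact h p hp q
  exact hle hy

lemma triv_one_lc {τ : MulAut G} (hτ : TrivMod τ 1) : ∀ k : ℕ, ∀ y ∈ LC G k,
    τ y * y⁻¹ ∈ LC G (k + 1)
  | 0, y, _ => hτ y
  | (k + 1), y, hy => by
    refine lc_succ_induction (k := k) (n := k + 2) τ ?_ hy
    intro p hp q
    have hs := triv_one_lc hτ k p hp
    have ht := hτ q
    set s := τ p * p⁻¹ with hsdef
    set t := τ q * q⁻¹ with htdef
    have e1 : τ p = s * p := by rw [hsdef]; group
    have e2 : τ q = t * q := by rw [htdef]; group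
    rw [← mk_eq_iff]
    simp only [map_mul, map_inv, e1, e2]
    let N := LC G (k + 2)
    have cs : ∀ q : G ⧸ N, (QuotientGroup.mk s : G ⧸ N) * q = q * QuotientGroup.mk s :=
      mk_central hs
    have cpq : ∀ q' : G ⧸ N, (QuotientGroup.mk (p * q * p⁻¹ * q⁻¹) : G ⧸ N) * q' =
        q' * QuotientGroup.mk (p * q * p⁻¹ * q⁻¹) := mk_central (lc_comm hp q)
    have hpt : (QuotientGroup.mk (p * t * p⁻¹ * t⁻¹) : G ⧸ N) = 1 := by
      rw [QuotientGroup.eq_one_iff]
      exact comm_le hp ht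
    calc (QuotientGroup.mk (s * p * (t * q) * (s * p)⁻¹ * (t * q)⁻¹) : G ⧸ N)
        = QuotientGroup.mk s * QuotientGroup.mk (p * (t * q) * p⁻¹) * (QuotientGroup.mk s)⁻¹ *
            QuotientGroup.mk (t * q)⁻¹ := by
          rw [← QuotientGroup.mk_inv, ← QuotientGroup.mk_mul, ← QuotientGroup.mk_mul,
            ← QuotientGroup.mk_mul]
          congr 1
          group
      _ = QuotientGroup.mk (p * (t * q) * p⁻¹) * QuotientGroup.mk (t * q)⁻¹ := by
          rw [cs]; group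
      _ = QuotientGroup.mk (p * t * p⁻¹ * t⁻¹) *
          (QuotientGroup.mk t * (QuotientGroup.mk (p * q * p⁻¹ * q⁻¹) *
            (QuotientGroup.mk t)⁻¹)) := by
          rw [← QuotientGroup.mk_inv, ← QuotientGroup.mk_mul, ← QuotientGroup.mk_mul,
            ← QuotientGroup.mk_mul, ← QuotientGroup.mk_mul]
          congr 1
          group
      _ = QuotientGroup.mk (p * q * p⁻¹ * q⁻¹) := by
          rw [hpt, cpq]; group

lemma triv_lc_one {n : ℕ} {φ : MulAut G} (hφ : TrivMod φ n) {y : G} (hy : y ∈ LC G 1) :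
    φ y * y⁻¹ ∈ LC G (n + 1) := by
  refine lc_succ_induction (k := 0) (n := n + 1) φ ?_ hy
  intro p _ q
  have hs := hφ p
  have ht := hφ q
  set s := φ p * p⁻¹ with hsdef
  set t := φ q * q⁻¹ with htdef
  have e1 : φ p = s * p := by rw [hsdef]; group
  have e2 : φ q = t * q := by rw [htdef]; group
  rw [← mk_eq_iff]
  simp only [map_mul, map_inv, e1, e2]
  let N := LC G (n + 1)
  have cs : ∀ q : G ⧸ N, (QuotientGroup.mk s : G ⧸ N) * q = q * QuotientGroup.mk s :=
    mk_central hs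
  have ct : ∀ q : G ⧸ N, (QuotientGroup.mk t : G ⧸ N) * q = q * QuotientGroup.mk t :=
    mk_central ht
  calc (QuotientGroup.mk (s * p * (t * q) * (s * p)⁻¹ * (t * q)⁻¹) : G ⧸ N)
      = QuotientGroup.mk s * QuotientGroup.mk (p * (t * q) * p⁻¹) * (QuotientGroup.mk s)⁻¹ *
          QuotientGroup.mk (t * q)⁻¹ := by
        rw [← QuotientGroup.mk_inv, ← QuotientGroup.mk_mul, ← QuotientGroup.mk_mul,
          ← QuotientGroup.mk_mul]
        congr 1
        group
    _ = QuotientGroup.mk (p * (t * q) * p⁻¹) * QuotientGroup.mk (t * q)⁻¹ := by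
        rw [cs]; group
    _ = QuotientGroup.mk p * (QuotientGroup.mk t * QuotientGroup.mk (q * p⁻¹ * q⁻¹)) *
          (QuotientGroup.mk t)⁻¹ := by
        rw [← QuotientGroup.mk_inv, ← QuotientGroup.mk_mul, ← QuotientGroup.mk_mul,
          ← QuotientGroup.mk_mul, ← QuotientGroup.mk_mul]
        congr 1
        group
    _ = QuotientGroup.mk p * QuotientGroup.mk (q * p⁻¹ * q⁻¹) := by
        rw [ct]; group
    _ = QuotientGroup.mk (p * q * p⁻¹ * q⁻¹) := by
        rw [← QuotientGroup.mk_mul]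
        congr 1
        group

lemma triv_comm {n : ℕ} {φ τ : MulAut G} (hφ : TrivMod φ n) (hτ : TrivMod τ 1) :
    TrivMod (φ * τ * φ⁻¹ * τ⁻¹) (n + 1) := by
  have key : ∀ z, φ (τ z) * (τ (φ z))⁻¹ ∈ LC G (n + 1) := by
    intro z
    rw [← mk_eq_iff]
    obtain ⟨k, hk, e1⟩ : ∃ k ∈ LC G 1, τ z = k * z := ⟨τ z * z⁻¹, hτ z, by group⟩
    obtain ⟨l, hl, e2⟩ : ∃ l ∈ LC G n, φ z = l * z := ⟨φ z * z⁻¹, hφ z, by group⟩
    let N := LC G (n + 1)
    have h1 : (QuotientGroup.mk (φ k) : G ⧸ N) = QuotientGroup.mk k :=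
      mk_eq_iff.2 (triv_lc_one hφ hk)
    have h2 : (QuotientGroup.mk (τ l) : G ⧸ N) = QuotientGroup.mk l :=
      mk_eq_iff.2 (triv_one_lc hτ n l hl)
    have cl : ∀ q : G ⧸ N, (QuotientGroup.mk l : G ⧸ N) * q = q * QuotientGroup.mk l :=
      mk_central hl
    calc (QuotientGroup.mk (φ (τ z)) : G ⧸ N) = QuotientGroup.mk (φ k * φ z) := by
          rw [e1, map_mul]
      _ = QuotientGroup.mk k * (QuotientGroup.mk l * QuotientGroup.mk z) := by
          rw [QuotientGroup.mk_mul, h1, e2, QuotientGroup.mk_mul]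
      _ = QuotientGroup.mk l * (QuotientGroup.mk k * QuotientGroup.mk z) := by
          rw [← mul_assoc, ← cl, mul_assoc]
      _ = QuotientGroup.mk (τ l * τ z) := by
          rw [QuotientGroup.mk_mul, h2, e1, QuotientGroup.mk_mul]
      _ = QuotientGroup.mk (τ (φ z)) := by
          rw [e2, map_mul]
  intro y
  have h := key ((φ⁻¹ * τ⁻¹) y)
  have e : τ (φ ((φ⁻¹ * τ⁻¹) y)) = y := by
    rw [MulAut.mul_apply, MulAut.apply_inv_self, MulAut.apply_inv_self]
  rw [e] at h
  exact h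

lemma triv_conj {n : ℕ} {φ : MulAut G} (hφ : TrivMod φ n) (ψ : MulAut G) :
    TrivMod (ψ * φ * ψ⁻¹) n := by
  intro y
  have h := lc_map ψ (hφ (ψ⁻¹ y))
  rw [map_mul, map_inv, MulAut.apply_inv_self] at h
  exact h

lemma triv_mul {n : ℕ} {φ ψ : MulAut G} (hφ : TrivMod φ n) (hψ : TrivMod ψ n) :
    TrivMod (φ * ψ) n := by
  intro y
  have h := mul_mem (hφ (ψ y)) (hψ y)
  rw [MulAut.mul_apply]
  have e : φ (ψ y) * y⁻¹ = φ (ψ y) * (ψ y)⁻¹ * (ψ y * y⁻¹) := by group
  rw [e]; exact h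

lemma triv_inv {n : ℕ} {φ : MulAut G} (hφ : TrivMod φ n) : TrivMod φ⁻¹ n := by
  intro y
  have h := inv_mem (hφ (φ⁻¹ y))
  rw [MulAut.apply_inv_self] at h
  have e : (y * (φ⁻¹ y)⁻¹)⁻¹ = φ⁻¹ y * y⁻¹ := by group
  rw [e] at h
  exact h

end General

section Surface

variable {g : ℕ}

lemma triv_one_preserves {φ : MulAut (SurfaceGroup g)} (h : TrivMod φ 1) : φ ∈ orientedAut g := by
  have h1 : ∀ x, homologyClass (φ x) = homologyClass x := by
    intro x
    have h2 : φ x * x⁻¹ ∈ commutator (SurfaceGroup g) := h x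
    have h3 := Abelianization.commutator_subset_ker (homologyHom g) h2
    rw [MonoidHom.mem_ker, map_mul, map_inv, mul_inv_eq_one] at h3
    unfold homologyClass
    rw [h3]
  intro x y
  rw [h1, h1]

lemma triv_autS (i0 : Fin g) (k : ℤ) : TrivMod (autS i0 k) 1 := by
  intro y
  have e : (Abelianization.of : SurfaceGroup g →* _).comp (twS i0 k) = Abelianization.of := by
    refine surface_ext ?_
    intro j
    rw [MonoidHom.comp_apply, twS_of]
    split_ifs
    · simp [mul_comm]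
    · rfl
  have h := DFunLike.congr_fun e y
  have h2 : (Abelianization.of : SurfaceGroup g →* _) (autS i0 k y * y⁻¹) = 1 := by
    rw [map_mul, map_inv, mul_inv_eq_one]
    exact h
  rw [← MonoidHom.mem_ker, Abelianization.ker_of] at h2
  exact h2

lemma triv_u (hg : 2 ≤ g) : TrivMod (uAut hg) 1 := triv_conj (triv_autS _ _) _

end Surface

end Pool.Agent.Helper119.MG
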