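import Pool.Agent.Helper119.MG.NF

/-! A lower bound, uniform in `g` and `m`, for Lickorish's twists. -/

open Filter Topology

namespace Pool.Agent.Helper119.MG

variable {g : ℕ}

/-! ### The boundary twist as a product of twists -/

lemma autA_gen (i0 : Fin g) (k : ℤ) (j : Fin g ⊕ Fin g) :
    autA i0 k (gen j) = if j = Sum.inr i0 then
      gen (Sum.inr i0) * (gen (Sum.inl i0)) ^ k else gen j := twA_of i0 k j

lemma autB_gen (i0 : Fin g) (k : ℤ) (j : Fin g ⊕ Fin g) :
    autB i0 k (gen j) = if j = Sum.inl i0 then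
      gen (Sum.inl i0) * (gen (Sum.inr i0)) ^ k else gen j := twB_of i0 k j

lemma sigma_six (i0 : Fin g) :
    (autA i0 1 * autB i0 (-1)) ^ 6 = autS i0 (-1) := by
  set σ := autA i0 1 * autB i0 (-1) with hσ
  have sa : σ (gen (Sum.inl i0)) = (gen (Sum.inr i0))⁻¹ := by
    rw [hσ, MulAut.mul_apply, autB_gen, if_pos rfl, map_mul, map_zpow, autA_gen, autA_gen,
      if_neg (by simp), if_pos rfl]
    group
  have sb : σ (gen (Sum.inr i0)) = gen (Sum.inr i0) * gen (Sum.inl i0) := by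
    rw [hσ, MulAut.mul_apply, autB_gen, if_neg (by simp), autA_gen, if_pos rfl]
    group
  have so : ∀ j, j ≠ Sum.inl i0 → j ≠ Sum.inr i0 → σ (gen j) = gen j := by
    intro j h1 h2
    rw [hσ, MulAut.mul_apply, autB_gen, if_neg h1, autA_gen, if_neg h2]
  have e6 : ∀ x, (σ ^ 6) x = σ (σ (σ (σ (σ (σ x))))) := by
    intro x
    simp only [pow_succ, pow_zero, one_mul, MulAut.mul_apply]
  refine aut_ext (fun j => ?_)
  rw [e6, show autS i0 (-1) (gen j) = twS i0 (-1) (gen j) from rfl, twS_of]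
  by_cases h1 : j = Sum.inl i0
  · subst h1
    rw [if_pos (Or.inl rfl)]
    simp only [sa, sb, map_mul, map_inv]
    unfold bw
    group
  · by_cases h2 : j = Sum.inr i0
    · subst h2
      rw [if_pos (Or.inr rfl)]
      simp only [sa, sb, map_mul, map_inv]
      unfold bw
      group
    · rw [if_neg (by rintro (h | h) <;> contradiction)]
      simp only [so j h1 h2]

/-! ### Membership in the subgroup generated by three twists -/

/-- the automorphisms whose class lies in the subgroup generated by `S` -/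
def LH {g : ℕ} (S : Set (Mod g)) : Subgroup (orientedAut g) where
  carrier := {φ | toMod φ ∈ Subgroup.closure S}
  one_mem' := one_mem (Subgroup.closure S)
  mul_mem' := by
    intro a b ha hb
    change toMod (a * b) ∈ Subgroup.closure S
    rw [toMod_mul]
    exact mul_mem ha hb
  inv_mem' := by
    intro a ha
    change toMod a⁻¹ ∈ Subgroup.closure S
    rw [toMod_inv]
    exact inv_mem ha

/-- `S` contains the twists about `a`, `b` in the first handle and the first linking twist -/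
structure HasBase (hg : 2 ≤ g) (S : Set (Mod g)) : Prop where
  a : toMod (tA ⟨0, by omega⟩ 1) ∈ S
  b : toMod (tB ⟨0, by omega⟩ 1) ∈ S
  l : toMod (tL 0 (by omega) 1) ∈ S

section
variable {hg : 2 ≤ g} {S : Set (Mod g)} (h : HasBase hg S)
include h

lemma tA_nat_LH (n : ℕ) : tA ⟨0, by omega⟩ n ∈ LH S := by
  rw [← tA_pow]; exact pow_mem (Subgroup.subset_closure h.a) n

lemma tB_nat_LH (n : ℕ) : tB ⟨0, by omega⟩ n ∈ LH S := by
  rw [← tB_pow]; exact pow_mem (Subgroup.subset_closure h.b) n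

lemma tA_neg_LH (n : ℕ) : tA ⟨0, by omega⟩ (-n) ∈ LH S := by
  rw [← tA_inv]; exact inv_mem (tA_nat_LH h n)

lemma tB_neg_LH (n : ℕ) : tB ⟨0, by omega⟩ (-n) ∈ LH S := by
  rw [← tB_inv]; exact inv_mem (tB_nat_LH h n)

omit h in
lemma autS_mem (i0 : Fin g) (k : ℤ) : autS i0 k ∈ orientedAut g :=
  triv_one_preserves (triv_autS _ _)

omit h in
lemma autS_inv (i0 : Fin g) : autS i0 1 = (autS i0 (-1))⁻¹ := by
  rw [eq_inv_iff_mul_eq_one]
  ext x
  exact DFunLike.congr_fun (twS_comp i0 1) x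

lemma tS_LH : (⟨autS ⟨0, by omega⟩ 1, autS_mem _ 1⟩ : orientedAut g) ∈ LH S := by
  have e : (⟨autS ⟨0, by omega⟩ 1, autS_mem _ 1⟩ : orientedAut g) =
      ((tA ⟨0, by omega⟩ ((1 : ℕ) : ℤ) * tB ⟨0, by omega⟩ (-(1 : ℕ))) ^ 6)⁻¹ := by
    refine Subtype.ext ?_
    change autS ⟨0, by omega⟩ 1 = ((autA ⟨0, by omega⟩ ((1 : ℕ) : ℤ) *
      autB ⟨0, by omega⟩ (-(1 : ℕ))) ^ 6)⁻¹
    rw [autS_inv, ← sigma_six]
    rfl
  rw [e]
  exact inv_mem (pow_mem (mul_mem (tA_nat_LH h 1) (tB_neg_LH h 1)) 6)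

lemma uO_LH : uO hg ∈ LH S := by
  have hl : tL 0 (by omega) 1 ∈ LH S := Subgroup.subset_closure h.l
  have e : uO hg = tL 0 (by omega) 1 * ⟨autS ⟨0, by omega⟩ 1, autS_mem _ 1⟩ *
      (tL 0 (by omega) 1)⁻¹ := Subtype.ext rfl
  rw [e]
  exact mul_mem (mul_mem hl (tS_LH h)) (inv_mem hl)

lemma xa_LH (m : ℕ) : (⟨xa hg m, xa_mem hg m⟩ : orientedAut g) ∈ LH S := by
  have h0 : (⟨u0 hg, triv_one_preserves (triv_u0 hg)⟩ : orientedAut g) ∈ LH S := by
    have e : (⟨u0 hg, triv_one_preserves (triv_u0 hg)⟩ : orientedAut g) =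
        (tA ⟨0, by omega⟩ (-(3 : ℕ)) * tB ⟨0, by omega⟩ ((1 : ℕ) : ℤ)) * uO hg *
        (tA ⟨0, by omega⟩ (-(3 : ℕ)) * tB ⟨0, by omega⟩ ((1 : ℕ) : ℤ))⁻¹ := Subtype.ext rfl
    rw [e]
    have h' := mul_mem (tA_neg_LH h 3) (tB_nat_LH h 1)
    exact mul_mem (mul_mem h' (uO_LH h)) (inv_mem h')
  have h1 : (⟨u1 hg, triv_one_preserves (triv_u1 hg)⟩ : orientedAut g) ∈ LH S := by
    have e : (⟨u1 hg, triv_one_preserves (triv_u1 hg)⟩ : orientedAut g) =
        (tA ⟨0, by omega⟩ (-(4 : ℕ)) * tB ⟨0, by omega⟩ ((1 : ℕ) : ℤ)) * uO hg *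
        (tA ⟨0, by omega⟩ (-(4 : ℕ)) * tB ⟨0, by omega⟩ ((1 : ℕ) : ℤ))⁻¹ := Subtype.ext rfl
    rw [e]
    have h' := mul_mem (tA_neg_LH h 4) (tB_nat_LH h 1)
    exact mul_mem (mul_mem h' (uO_LH h)) (inv_mem h')
  induction m with
  | zero => exact h0
  | succ m ih =>
    have e : (⟨xa hg (m + 1), xa_mem hg (m + 1)⟩ : orientedAut g) =
        ⟨xa hg m, xa_mem hg m⟩ * ⟨u1 hg, triv_one_preserves (triv_u1 hg)⟩ *
        (⟨xa hg m, xa_mem hg m⟩)⁻¹ * (⟨u1 hg, triv_one_preserves (triv_u1 hg)⟩)⁻¹ :=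
      Subtype.ext rfl
    rw [e]
    exact mul_mem (mul_mem (mul_mem ih h1) (inv_mem ih)) (inv_mem h1)

lemma deep_LH (m : ℕ) : deep hg m ∈ LH S := xa_LH h (m + 1)

end

/-! ### Positive words in the two twists of the first handle -/

/-- the letters -/
def pl (hg : 2 ≤ g) (b : Bool) : orientedAut g :=
  if b then tA ⟨0, by omega⟩ 1 else tB ⟨0, by omega⟩ 1

/-- their matrices -/
def pm (b : Bool) : Equiv.Perm (ℤ × ℤ) := if b then tv (-1) (1, 0) else tv 1 (0, 1)

lemma pm_true (x y : ℤ) : pm true (x, y) = (x + y, y) := by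
  change tv (-1) (1, 0) (x, y) = _
  rw [tv_apply]
  ext <;> simp [om]

lemma pm_false (x y : ℤ) : pm false (x, y) = (x, x + y) := by
  change tv 1 (0, 1) (x, y) = _
  rw [tv_apply]
  ext <;> simp [om]
  ring

lemma pm_inv_true (x y : ℤ) : (pm true)⁻¹ (x, y) = (x - y, y) := by
  apply (pm true).injective
  rw [papi, pm_true]
  ext <;> simp

lemma pm_inv_false (x y : ℤ) : (pm false)⁻¹ (x, y) = (x, y - x) := by
  apply (pm false).injective
  rw [papi, pm_false]
  ext <;> simp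

/-- matrices of words -/
def pw (l : List Bool) : Equiv.Perm (ℤ × ℤ) := (l.map pm).prod

lemma pw_cons (b : Bool) (l : List Bool) : pw (b :: l) = pm b * pw l := by
  unfold pw; rw [List.map_cons, List.prod_cons]

lemma pw_cons_inv (b : Bool) (l : List Bool) (v : ℤ × ℤ) :
    (pw (b :: l))⁻¹ v = (pw l)⁻¹ ((pm b)⁻¹ v) := by
  rw [pw_cons, mul_inv_rev]; rfl

lemma addP_pm (b : Bool) : AddP (pm b) := by
  unfold pm
  split_ifs
  · exact tv_add _ _
  · exact tv_add _ _

lemma addP_pw (l : List Bool) : AddP (pw l) := by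
  induction l with
  | nil => intro v w; rfl
  | cons i l ih => rw [pw_cons]; exact addP_mul (addP_pm i) ih

lemma inv_ne_zero' {A : Equiv.Perm (ℤ × ℤ)} (hA : AddP A) {v : ℤ × ℤ} (hv : v ≠ 0) :
    A⁻¹ v ≠ 0 := by
  intro h
  apply hv
  have h0 : A 0 = 0 := by
    have := hA 0 0
    rw [add_zero] at this
    exact left_eq_add.1 this
  have := congrArg A h
  rwa [papi, h0] at this

lemma pm_region (b : Bool) (v : ℤ × ℤ) (h : v.1 * v.2 ≤ 0) :
    ((pm b)⁻¹ v).1 * ((pm b)⁻¹ v).2 ≤ 0 := by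
  obtain ⟨x, y⟩ := v
  simp only at h
  cases b
  · rw [pm_inv_false]; simp only; nlinarith [sq_nonneg x]
  · rw [pm_inv_true]; simp only; nlinarith [sq_nonneg y]

lemma pw_region {Q : ℤ × ℤ → ℤ} (H1 : ∀ v : ℤ × ℤ, v ≠ 0 → v.1 * v.2 ≤ 0 → 0 < Q v) :
    ∀ (l : List Bool) (v : ℤ × ℤ), v ≠ 0 → v.1 * v.2 ≤ 0 → 0 < Q ((pw l)⁻¹ v)
  | [], v, hv, h => by
    have e : (pw [])⁻¹ v = v := rfl
    rw [e]; exact H1 v hv h
  | (b :: l), v, hv, h => by
    rw [pw_cons_inv]
    exact pw_region H1 l _ (inv_ne_zero' (addP_pm b) hv) (pm_region b v h)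

lemma pcover (v : ℤ × ℤ) : ((pm true)⁻¹ v).1 * ((pm true)⁻¹ v).2 ≤ 0 ∨
    ((pm false)⁻¹ v).1 * ((pm false)⁻¹ v).2 ≤ 0 := by
  obtain ⟨x, y⟩ := v
  rw [pm_inv_true, pm_inv_false]
  simp only
  by_contra h
  push Not at h
  nlinarith [sq_nonneg (x - y), h.1, h.2]

lemma pform_inj {Q : ℤ × ℤ → ℤ} (H1 : ∀ v : ℤ × ℤ, v ≠ 0 → v.1 * v.2 ≤ 0 → 0 < Q v)
    (H2 : ∃ w, Q w < 0) (H3 : Q 0 = 0) : ∀ l l' : List Bool, l.length = l'.length →
    ((∀ v, Q ((pw l)⁻¹ v) = Q ((pw l')⁻¹ v)) ∨ (∀ v, Q ((pw l)⁻¹ v) = -Q ((pw l')⁻¹ v))) →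
    l = l'
  | [], [], _, _ => rfl
  | [], (j :: l'), h, _ => by simp at h
  | (i :: l), [], h, _ => by simp at h
  | (i :: l), (j :: l'), hlen, h => by
    have hpos : ∀ (i : Bool) (l : List Bool) (v : ℤ × ℤ), v ≠ 0 →
        ((pm i)⁻¹ v).1 * ((pm i)⁻¹ v).2 ≤ 0 → 0 < Q ((pw (i :: l))⁻¹ v) := by
      intro i l v hv hr
      rw [pw_cons_inv]
      exact pw_region H1 l _ (inv_ne_zero' (addP_pm i) hv) hr
    have hij : i = j := by
      by_contra hij
      rcases h with h | h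
      · obtain ⟨w, hw⟩ := H2
        have hw0 : w ≠ 0 := by
          rintro rfl
          rw [H3] at hw
          exact lt_irrefl _ hw
        have hne : pw (i :: l) w ≠ 0 := by
          intro h0
          apply inv_ne_zero' (addP_inv (addP_pw (i :: l))) hw0
          rw [inv_inv]; exact h0
        have hv := h (pw (i :: l) w)
        rw [pipa] at hv
        have hi : ¬ ((pm i)⁻¹ (pw (i :: l) w)).1 * ((pm i)⁻¹ (pw (i :: l) w)).2 ≤ 0 := by
          intro hr
          have := hpos i l _ hne hr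
          rw [pipa] at this
          linarith
        have hj : ((pm j)⁻¹ (pw (i :: l) w)).1 * ((pm j)⁻¹ (pw (i :: l) w)).2 ≤ 0 := by
          have hc := pcover (pw (i :: l) w)
          cases i <;> cases j
          · exact absurd rfl hij
          · exact hc.resolve_right hi
          · exact hc.resolve_left hi
          · exact absurd rfl hij
        have := hpos j l' _ hne hj
        rw [← hv] at this
        linarith
      · have hb : ∀ b : Bool, ((pm b)⁻¹ ((1, -1) : ℤ × ℤ)).1 * ((pm b)⁻¹ ((1, -1) : ℤ × ℤ)).2 ≤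
            0 := by
          intro b
          exact pm_region b (1, -1) (by simp)
        have h0 : ((1, -1) : ℤ × ℤ) ≠ 0 := by simp [Prod.ext_iff]
        have h1 := hpos i l _ h0 (hb i)
        have h2 := hpos j l' _ h0 (hb j)
        have h3 := h (1, -1)
        linarith
    subst hij
    have hlen' : l.length = l'.length := by simpa using hlen
    have := pform_inj H1 H2 H3 l l' hlen' (by
      rcases h with h | h
      · left
        intro v
        have := h (pm i v)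
        rw [pw_cons_inv, pw_cons_inv, pipa] at this
        exact this
      · right
        intro v
        have := h (pm i v)
        rw [pw_cons_inv, pw_cons_inv, pipa] at this
        exact this)
    rw [this]

/-! ### The rotated deep elements -/

/-- the rotation -/
def jm : Equiv.Perm (ℤ × ℤ) := tv 1 (1, 0) * tv 1 (0, 1) * tv 1 (1, 0)

lemma jm_apply (x y : ℤ) : jm (x, y) = (-y, x) := by
  unfold jm
  rw [Equiv.Perm.mul_apply, Equiv.Perm.mul_apply, tv_apply, tv_apply, tv_apply]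
  ext <;> simp [om]

lemma jm_inv (x y : ℤ) : jm⁻¹ (x, y) = (y, -x) := by
  apply jm.injective
  rw [papi, jm_apply]
  simp

/-- the rotated deep elements of `T_g(m)` -/
def rot (hg : 2 ≤ g) : orientedAut g :=
  tA ⟨0, by omega⟩ (-(1 : ℕ)) * tB ⟨0, by omega⟩ ((1 : ℕ) : ℤ) * tA ⟨0, by omega⟩ (-(1 : ℕ))

/-- the rotated deep elements of `T_g(m)` -/
def rdeep (hg : 2 ≤ g) (m : ℕ) : orientedAut g := rot hg * deep hg m * (rot hg)⁻¹

lemma rdeep_LH {hg : 2 ≤ g} {S : Set (Mod g)} (h : HasBase hg S) (m : ℕ) :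
    rdeep hg m ∈ LH S := by
  have h' : rot hg ∈ LH S :=
    mul_mem (mul_mem (tA_neg_LH h 1) (tB_nat_LH h 1)) (tA_neg_LH h 1)
  exact mul_mem (mul_mem h' (deep_LH h m)) (inv_mem h')

lemma impl_rot (hg : 2 ≤ g) : Impl hg (rot hg : MulAut (SurfaceGroup g)) jm := by
  have h := impl_mul hg (impl_mul hg (impl_autA hg (-(1 : ℕ))) (impl_autB hg ((1 : ℕ) : ℤ)))
    (impl_autA hg (-(1 : ℕ)))
  have e : tv (-(-((1 : ℕ) : ℤ))) (1, 0) * tv ((1 : ℕ) : ℤ) (0, 1) *
      tv (-(-((1 : ℕ) : ℤ))) (1, 0) = jm := by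
    unfold jm
    norm_num
  rw [e] at h
  exact h

lemma impl_rdeep (hg : 2 ≤ g) (m : ℕ) :
    Impl hg (rdeep hg m : MulAut (SurfaceGroup g)) (jm * xm m * jm⁻¹) :=
  impl_mul hg (impl_mul hg (impl_rot hg) (impl_xa hg m)) (impl_inv hg (impl_rot hg))

/-- the rotated form -/
def qj (m : ℕ) (v : ℤ × ℤ) : ℤ := qf m (jm⁻¹ v)

lemma qf_pos_quad (m : ℕ) (v : ℤ × ℤ) (hv : v ≠ 0) (h : 0 ≤ v.1 * v.2) : 0 < qf m v := by
  obtain ⟨x, y⟩ := v
  simp only at h
  rcases lt_trichotomy y 0 with hy | hy | hy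
  · have hx : x ≤ 0 := by
      by_contra hx
      push Not at hx
      nlinarith
    rw [← qf_neg]
    exact qf_pos_core m (-x) (-y) (by linarith) (by linarith)
  · subst hy
    have hx : x ≠ 0 := by
      rintro rfl
      exact hv rfl
    have hx2 : 0 < x ^ 2 := by positivity
    rw [qf_eq]
    obtain ⟨h1, h2, h3⟩ := pq_inv m
    set p := (pq m).1
    set q := (pq m).2
    have hpq : p + q ≤ -1 := by linarith
    have h4 : 4 ≤ p * (p + q) := by nlinarith
    have e : 4 * ((-p * (x + 2 * 0) - q * (x + 3 * 0)) ^ 2 -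
        4 * (x + 3 * 0) * (-p * (x + 2 * 0) - q * (x + 3 * 0)) * p - (x + 3 * 0) ^ 2) =
        4 * (x ^ 2 * ((p + q) ^ 2 + 4 * (p * (p + q)) - 1)) := by ring
    rw [e]
    have h5 : 0 < (p + q) ^ 2 + 4 * (p * (p + q)) - 1 := by nlinarith [sq_nonneg (p + q)]
    positivity
  · have hx : 0 ≤ x := by
      by_contra hx
      push Not at hx
      nlinarith
    exact qf_pos_core m x y hy (by linarith)

lemma qj_pos (m : ℕ) (v : ℤ × ℤ) (hv : v ≠ 0) (h : v.1 * v.2 ≤ 0) : 0 < qj m v := by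
  unfold qj
  have hj : AddP jm := addP_mul (addP_mul (tv_add _ _) (tv_add _ _)) (tv_add _ _)
  refine qf_pos_quad m _ (inv_ne_zero' hj hv) ?_
  obtain ⟨x, y⟩ := v
  rw [jm_inv]
  simp only at h ⊢
  linarith

lemma qj_neg (m : ℕ) : ∃ w, qj m w < 0 := by
  refine ⟨jm (fv m), ?_⟩
  unfold qj
  rw [pipa]
  exact qf_fv m

lemma qj_zero (m : ℕ) : qj m 0 = 0 := by
  unfold qj
  have h1 : jm⁻¹ ((0, 0) : ℤ × ℤ) = (0, -0) := jm_inv 0 0
  have h2 : jm⁻¹ (0 : ℤ × ℤ) = 0 := h1
  rw [h2, qf_zero]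

/-- words -/
def pwd (hg : 2 ≤ g) (l : List Bool) : orientedAut g := (l.map (pl hg)).prod

lemma impl_pl (hg : 2 ≤ g) (b : Bool) : Impl hg (pl hg b : MulAut (SurfaceGroup g)) (pm b) := by
  cases b
  · exact impl_autB hg 1
  · exact impl_autA hg 1

lemma impl_pwd (hg : 2 ≤ g) (l : List Bool) :
    Impl hg (pwd hg l : MulAut (SurfaceGroup g)) (pw l) := by
  induction l with
  | nil => exact impl_one hg
  | cons i l ih =>
    have h := impl_mul hg (impl_pl hg i) ih
    rw [← pw_cons] at h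
    have e : pwd hg (i :: l) = pl hg i * pwd hg l := by
      unfold pwd; rw [List.map_cons, List.prod_cons]
    rw [e]
    exact h

lemma tv_om' (k : ℤ) (f v w : ℤ × ℤ) : om (tv k f v) (tv k f w) = om v w := tv_om k f v w

lemma pw_om (l : List Bool) (v w : ℤ × ℤ) : om (pw l v) (pw l w) = om v w := by
  induction l generalizing v w with
  | nil => rfl
  | cons b l ih =>
    rw [pw_cons, Equiv.Perm.mul_apply, Equiv.Perm.mul_apply]
    have : ∀ v w, om (pm b v) (pm b w) = om v w := by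
      intro v w
      unfold pm
      split_ifs
      · exact tv_om _ _ _ _
      · exact tv_om _ _ _ _
    rw [this, ih]

lemma jm_om (v w : ℤ × ℤ) : om (jm v) (jm w) = om v w := by
  unfold jm
  simp only [Equiv.Perm.mul_apply, tv_om]

lemma pwd_inj (hg : 2 ≤ g) (m : ℕ) (l l' : List Bool) (hlen : l.length = l'.length)
    (h : toMod (pwd hg l) * toMod (rdeep hg m) * (toMod (pwd hg l))⁻¹ =
      toMod (pwd hg l') * toMod (rdeep hg m) * (toMod (pwd hg l'))⁻¹) :
    l = l' := by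
  rw [← toMod_mul, ← toMod_inv, ← toMod_mul, ← toMod_mul, ← toMod_inv, ← toMod_mul] at h
  have h' : (QuotientGroup.mk (pwd hg l' * rdeep hg m * (pwd hg l')⁻¹) :
      orientedAut g ⧸ innerAut g) =
      QuotientGroup.mk (pwd hg l * rdeep hg m * (pwd hg l)⁻¹) := h.symm
  rw [QuotientGroup.eq, innerAut, Subgroup.mem_subgroupOf] at h'
  obtain ⟨w, hw⟩ := h'
  have e : ((pwd hg l * rdeep hg m * (pwd hg l)⁻¹ : orientedAut g) :
      MulAut (SurfaceGroup g)) =
      ((pwd hg l' * rdeep hg m * (pwd hg l')⁻¹ : orientedAut g) :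
      MulAut (SurfaceGroup g)) * MulAut.conj w := by
    rw [hw, ← Subgroup.coe_mul]
    congr 1
    group
  have i1 : Impl hg ((pwd hg l * rdeep hg m * (pwd hg l)⁻¹ : orientedAut g) :
      MulAut (SurfaceGroup g)) (pw l * (jm * xm m * jm⁻¹) * (pw l)⁻¹) :=
    impl_mul hg (impl_mul hg (impl_pwd hg l) (impl_rdeep hg m)) (impl_inv hg (impl_pwd hg l))
  have i2 : Impl hg ((pwd hg l' * rdeep hg m * (pwd hg l')⁻¹ : orientedAut g) :
      MulAut (SurfaceGroup g)) (pw l' * (jm * xm m * jm⁻¹) * (pw l')⁻¹) :=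
    impl_mul hg (impl_mul hg (impl_pwd hg l') (impl_rdeep hg m)) (impl_inv hg (impl_pwd hg l'))
  have key := impl_unique hg i1 i2 w e
  refine pform_inj (Q := qj m) (fun v hv h => qj_pos m v hv h) (qj_neg m) (qj_zero m)
    l l' hlen ?_
  have hq : ∀ (l : List Bool) (v : ℤ × ℤ), qj m ((pw l)⁻¹ v) =
      om v ((pw l * (jm * xm m * jm⁻¹) * (pw l)⁻¹) v) := by
    intro l v
    obtain ⟨w, rfl⟩ : ∃ w, v = pw l w := ⟨(pw l)⁻¹ v, (papi _ _).symm⟩
    obtain ⟨u, rfl⟩ : ∃ u, w = jm u := ⟨jm⁻¹ w, (papi _ _).symm⟩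
    simp only [Equiv.Perm.mul_apply, pipa, pw_om, jm_om, qj]
    rfl
  rcases key with key | key
  · left
    intro v
    rw [hq, hq, key]
  · right
    intro v
    rw [hq, hq, key]
    simp only [om, Prod.fst_neg, Prod.snd_neg]
    ring

lemma rdeep_conj_mem (hg : 2 ≤ g) (m : ℕ) (φ : orientedAut g) :
    toMod φ * toMod (rdeep hg m) * (toMod φ)⁻¹ ∈ johnson g m := by
  have h := deep_conj_mem hg m (φ * rot hg)
  have e : toMod (φ * rot hg) * toMod (deep hg m) * (toMod (φ * rot hg))⁻¹ =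
      toMod φ * toMod (rdeep hg m) * (toMod φ)⁻¹ := by
    unfold rdeep
    rw [toMod_mul, toMod_mul, toMod_mul, toMod_inv]
    group
  rw [← e]
  exact h

lemma toMod_pwd (hg : 2 ≤ g) (l : List Bool) :
    (l.map (fun b => toMod (pl hg b))).prod = toMod (pwd hg l) := by
  unfold pwd
  rw [toMod_list_prod, List.map_map]
  rfl

/-- products of generators along a list -/
lemma ball_list {G : Type*} [Group G] {S : Set G} {ι : Type*} {t : ι → G}
    (ht : ∀ i, t i ∈ ball S 1) : ∀ l : List ι, (l.map t).prod ∈ ball S l.length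
  | [] => one_mem_ball S _
  | (i :: l) => by
    rw [List.map_cons, List.prod_cons, List.length_cons, add_comm]
    exact ball_mul (ht i) (ball_list ht l)

lemma pos_count (hg : 2 ≤ g) {S : Set (Mod g)} (hS : S.Finite) {c m : ℕ}
    (ht : ∀ b, toMod (pl hg b) ∈ S) (hx : toMod (rdeep hg m) ∈ ball S c) (k : ℕ) :
    2 ^ k ≤ (ball S (2 * k + c) ∩ johnson g m).ncard := by
  let f : (Fin k → Bool) → Mod g := fun w =>
    toMod (pwd hg (List.ofFn w)) * toMod (rdeep hg m) * (toMod (pwd hg (List.ofFn w)))⁻¹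
  have hf : Function.Injective f := by
    intro w w' h
    exact List.ofFn_injective (pwd_inj hg m _ _ (by simp) h)
  have hsub : Set.range f ⊆ ball S (2 * k + c) ∩ johnson g m := by
    rintro _ ⟨w, rfl⟩
    refine ⟨?_, rdeep_conj_mem hg m _⟩
    have h1 : toMod (pwd hg (List.ofFn w)) ∈ ball S k := by
      have := ball_list (S := S) (t := fun b => toMod (pl hg b))
        (fun b => mem_ball_one (ht b)) (List.ofFn w)
      rwa [toMod_pwd, List.length_ofFn] at this
    have h2 := ball_mul (ball_mul h1 hx) (ball_inv h1)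
    have e : k + c + k = 2 * k + c := by ring
    rw [e] at h2
    exact h2
  have hfin : (ball S (2 * k + c) ∩ johnson g m).Finite := (ball_finite hS _).inter_of_left _
  have h3 := Set.ncard_le_ncard hsub hfin
  have h4 : (Set.range f).ncard = 2 ^ k := by
    rw [← Set.image_univ, Set.ncard_image_of_injective _ hf, Set.ncard_univ, Nat.card_fun]
    simp
  rw [← h4]
  exact h3

lemma lickorish_finite (g : ℕ) : (lickorish g).Finite := by
  have hsub : lickorish g ⊆ Set.range (fun p : Fin g × Fin 3 => toMod (lb g p.1 p.2)) := by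
    intro x hx
    rw [mem_lickorish] at hx
    rcases hx with ⟨i, rfl⟩ | ⟨i, rfl⟩ | ⟨i, hi, rfl⟩
    · refine ⟨(i, 0), ?_⟩
      change toMod (lb g i 0) = _
      unfold lb
      rw [dif_pos i.2, if_pos rfl]
    · refine ⟨(i, 1), ?_⟩
      change toMod (lb g i 1) = _
      unfold lb
      rw [dif_pos i.2, if_neg (by decide), if_pos rfl]
    · refine ⟨(⟨i, by omega⟩, 2), ?_⟩
      change toMod (lb g i 2) = _
      unfold lb
      rw [dif_pos (by omega : i < g), if_neg (by decide), if_neg (by decide), dif_pos hi]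
  exact (Set.finite_range _).subset hsub

/-- The lower density is at least `1/10` for all generating sets between the three twists and
Lickorish's twists, for all `g` and `m`. -/
theorem lickorish_lower (hg : 2 ≤ g) {S : Set (Mod g)} (hS : S ⊆ lickorish g)
    (hb : HasBase hg S) (m : ℕ) :
    1 / 10 ≤ lowerLogDensity S (johnson g m) := by
  have hfin : S.Finite := (lickorish_finite g).subset hS
  obtain ⟨c, hc⟩ := exists_ball (S := S) (x := toMod (rdeep hg m)) (rdeep_LH hb m)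
  have h := lower_of_count hfin (H := johnson g m) (K := 24)
    (C := 2 ^ (g + 1)) (by norm_num) (one_le_pow₀ (by norm_num)) (by
      intro r
      have h1 : (ball S r).ncard ≤ 2 ^ (g + 1) * 24 ^ r :=
        (Set.ncard_le_ncard (ball_mono_set hS r) (ball_finite (lickorish_finite g) r)).trans
          (lickorish_ball g r)
      exact_mod_cast h1) (n := 2) (D := 2) (c := c) le_rfl (by norm_num) (by
      intro k
      refine pos_count hg hfin ?_ hc k
      intro b
      cases b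
      · exact hb.b
      · exact hb.a)
  refine le_trans ?_ h
  have h2 : 0 < Real.log 2 := Real.log_pos (by norm_num)
  have h24 : 0 < Real.log 24 := Real.log_pos (by norm_num)
  have h3 : 2 * Real.log 24 ≤ 10 * Real.log 2 := by
    have e1 : 2 * Real.log 24 = Real.log (24 ^ 2) := by rw [Real.log_pow]; norm_num
    have e2 : 10 * Real.log 2 = Real.log (2 ^ 10) := by rw [Real.log_pow]; norm_num
    rw [e1, e2]
    exact Real.log_le_log (by norm_num) (by norm_num)
  push_cast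
  rw [div_le_div_iff₀ (by norm_num) (by positivity)]
  linarith

end Pool.Agent.Helper119.MG
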