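import Pool.Agent.Helper119.MG.Count

/-! Bounds for the logarithmic densities of the terms of the Johnson filtration. -/

open scoped Pointwise
open Filter Topology

namespace Pool.Agent.Helper119.MG

variable {g : ℕ}

lemma fifthTwists_eq (hg : 2 ≤ g) (n : ℕ) :
    fifthTwists g n = (fun i => toMod (tau ⟨0, by omega⟩ i)) '' Set.Iio n := by
  ext x
  rw [mem_fifthTwists]
  constructor
  · rintro ⟨h, i, hi, rfl⟩
    exact ⟨i, hi, rfl⟩
  · rintro ⟨i, hi, rfl⟩
    exact ⟨by omega, i, hi, rfl⟩

lemma fifthTwists_coe [DecidableEq (Mod g)] (hg : 2 ≤ g) (n : ℕ) :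
    fifthTwists g n =
      (((Finset.range n).image (fun i => toMod (tau ⟨0, by omega⟩ i)) : Finset (Mod g)) :
        Set (Mod g)) := by
  rw [fifthTwists_eq hg, Finset.coe_image, Finset.coe_range]

lemma toMod_list_prod (l : List (orientedAut g)) :
    toMod l.prod = (l.map toMod).prod := by
  induction l with
  | nil => rfl
  | cons a l ih => rw [List.prod_cons, toMod_mul, ih, List.map_cons, List.prod_cons]

lemma toMod_tw (i0 : Fin g) (l : List ℕ) :
    (l.map (fun i => toMod (tau i0 i))).prod = toMod (tw i0 l) := by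
  unfold tw
  rw [toMod_list_prod, List.map_map]
  rfl

/-- The number of elements of `T_g(m)` in balls is at least that of the positive words. -/
lemma johnson_count (hg : 2 ≤ g) {S : Set (Mod g)} (hS : S.Finite) {n L c m : ℕ}
    (ht : ∀ i < n, toMod (tau ⟨0, by omega⟩ i) ∈ ball S L)
    (hx : toMod (deep hg m) ∈ ball S c) (k : ℕ) :
    n ^ k ≤ (ball S (2 * L * k + c) ∩ johnson g m).ncard := by
  refine count_conj hS (t := fun i => toMod (tau ⟨0, by omega⟩ i)) ht hx ?_ ?_ k
  · intro l
    rw [toMod_tw]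
    exact deep_conj_mem hg m _
  · intro l l' hlen h
    rw [toMod_tw, toMod_tw] at h
    exact deep_inj hg m l l' hlen h

/-- a general lower bound -/
lemma johnson_lower (hg : 2 ≤ g) {S : Set (Mod g)} (hS : S.Finite)
    (hgen : Subgroup.closure S = ⊤) {K C : ℝ} (hK : 1 < K)
    (hC : 1 ≤ C) (hN : ∀ r, ((ball S r).ncard : ℝ) ≤ C * K ^ r) {n L : ℕ} (hn : 2 ≤ n)
    (hL : 1 ≤ L) (ht : ∀ i < n, toMod (tau ⟨0, by omega⟩ i) ∈ ball S L) (m : ℕ) :
    Real.log n / (2 * L * Real.log K) ≤ lowerLogDensity S (johnson g m) := by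
  obtain ⟨c, hc⟩ := exists_ball (S := S) (x := toMod (deep hg m)) (by rw [hgen]; trivial)
  have h := lower_of_count hS (H := johnson g m) hK hC hN hn (D := 2 * L) (c := c) (by omega)
    (fun k => johnson_count hg hS ht hc k)
  have e : ((2 * L : ℕ) : ℝ) = 2 * (L : ℝ) := by push_cast; ring
  rw [e] at h
  exact h

lemma words_card (hg : 2 ≤ g) {S : Set (Mod g)} (hS : S.Finite) {n : ℕ}
    (hsub : fifthTwists g n ⊆ S) (r : ℕ) : n ^ r ≤ (ball S r).ncard := by
  let t : ℕ → Mod g := fun i => toMod (tau ⟨0, by omega⟩ i)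
  have ht : ∀ i < n, t i ∈ ball S 1 := by
    intro i hi
    apply mem_ball_one
    apply hsub
    exact mem_fifthTwists.2 ⟨by omega, i, hi, rfl⟩
  let f : (Fin r → Fin n) → Mod g := fun w => ((List.ofFn (fun i => (w i : ℕ))).map t).prod
  have hf : Function.Injective f := by
    intro w w' h
    have h' : ((List.ofFn (fun i => (w i : ℕ))).map t).prod =
      ((List.ofFn (fun i => (w' i : ℕ))).map t).prod := h
    have h1 : List.ofFn (fun i => (w i : ℕ)) = List.ofFn (fun i => (w' i : ℕ)) := by
      refine deep_inj hg 0 _ _ (by simp) ?_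
      rw [← toMod_tw, ← toMod_tw]
      change ((List.ofFn (fun i => (w i : ℕ))).map t).prod * _ *
        (((List.ofFn (fun i => (w i : ℕ))).map t).prod)⁻¹ = _
      rw [h']
    have h2 := List.ofFn_injective h1
    funext i
    exact Fin.ext (congrFun h2 i)
  have hsub2 : Set.range f ⊆ ball S r := by
    rintro _ ⟨w, rfl⟩
    have := ball_prod ht (List.ofFn (fun i => (w i : ℕ))) (by
      intro i hi
      rw [List.mem_ofFn] at hi
      obtain ⟨j, rfl⟩ := hi
      exact (w j).2)
    rwa [List.length_ofFn, one_mul] at this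
  have h3 := Set.ncard_le_ncard hsub2 (ball_finite hS r)
  have h4 : (Set.range f).ncard = n ^ r := by
    rw [← Set.image_univ, Set.ncard_image_of_injective _ hf, Set.ncard_univ, Nat.card_fun]
    simp
  rw [← h4]
  exact h3

theorem half_lower (hg : 2 ≤ g) (S : Finset (Mod g)) (n : ℕ) (hn : 2 ≤ n)
    (hS : Subgroup.closure ((S : Set (Mod g)) ∪ fifthTwists g n) = ⊤) (m : ℕ) :
    Real.log n / (2 * Real.log (2 * (S.card + n) + 1)) ≤
      lowerLogDensity ((S : Set (Mod g)) ∪ fifthTwists g n) (johnson g m) := by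
  classical
  have hfin : ((S : Set (Mod g)) ∪ fifthTwists g n).Finite := by
    rw [fifthTwists_coe hg]
    exact S.finite_toSet.union (Finset.finite_toSet _)
  have hn' : (2 : ℝ) ≤ n := by exact_mod_cast hn
  have hcard : (0 : ℝ) ≤ S.card := by positivity
  have h := johnson_lower hg hfin hS (K := 2 * (S.card + n) + 1) (C := 1) (by linarith) le_rfl
    ?_ hn (le_refl 1) ?_ m
  · have e : 2 * ((1 : ℕ) : ℝ) * Real.log (2 * (S.card + n) + 1) =
        2 * Real.log (2 * (S.card + n) + 1) := by push_cast; ring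
    rw [e] at h
    exact h
  · intro r
    rw [fifthTwists_coe hg, ← Finset.coe_union, one_mul]
    have h1 := ball_card_le (S ∪ (Finset.range n).image
      (fun i => toMod (tau ⟨0, by omega⟩ i) : ℕ → Mod g)) r
    have h2 : (S ∪ (Finset.range n).image
      (fun i => toMod (tau ⟨0, by omega⟩ i) : ℕ → Mod g)).card ≤ S.card + n := by
      refine (Finset.card_union_le _ _).trans ?_
      have := Finset.card_image_le (s := Finset.range n)
        (f := (fun i => toMod (tau ⟨0, by omega⟩ i) : ℕ → Mod g))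
      rw [Finset.card_range] at this
      omega
    have h3 : (ball (((S ∪ (Finset.range n).image
      (fun i => toMod (tau ⟨0, by omega⟩ i) : ℕ → Mod g)) : Finset (Mod g)) :
        Set (Mod g)) r).ncard ≤ (2 * (S.card + n) + 1) ^ r := by
      refine h1.trans ?_
      gcongr
    exact_mod_cast h3
  · intro i hi
    apply mem_ball_one
    right
    exact mem_fifthTwists.2 ⟨by omega, i, hi, rfl⟩

theorem half_upper (hg : 2 ≤ g) (S : Finset (Mod g)) (n : ℕ) (hn : 2 ≤ n) (m : ℕ) (hm : 1 ≤ m) :
    upperLogDensity ((S : Set (Mod g)) ∪ fifthTwists g n) (johnson g m) ≤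
      Real.log (3 * ((2 * S.card + 1) ^ 2 + 4 * n)) / (2 * Real.log n) := by
  classical
  have hfin : ((S : Set (Mod g)) ∪ fifthTwists g n).Finite := by
    rw [fifthTwists_coe hg]
    exact S.finite_toSet.union (Finset.finite_toSet _)
  have hn' : (2 : ℝ) ≤ n := by exact_mod_cast hn
  refine upper_of_count (M := 3 * ((2 * S.card + 1) ^ 2 + 4 * n)) ?_ hn ?_ ?_
  · nlinarith [sq_nonneg (2 * (S.card : ℝ) + 1)]
  · intro r
    have h1 := torelli_sq g (by omega) S n r
    rw [Finset.coe_union, ← fifthTwists_coe hg] at h1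
    have h2 : (ball ((S : Set (Mod g)) ∪ fifthTwists g n) r ∩ johnson g m).ncard ≤
        (ball ((S : Set (Mod g)) ∪ fifthTwists g n) r ∩ (torelli g : Set (Mod g))).ncard :=
      Set.ncard_le_ncard (Set.inter_subset_inter_right _ (johnson_subset_torelli g m hm))
        ((ball_finite hfin r).inter_of_left _)
    have h3 : (insert 1 (S ∪ S⁻¹)).card ≤ 2 * S.card + 1 := by
      refine (Finset.card_insert_le _ _).trans ?_
      have h1 := Finset.card_union_le S S⁻¹
      rw [Finset.card_inv] at h1
      omega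
    have h4 : (ball ((S : Set (Mod g)) ∪ fifthTwists g n) r ∩ johnson g m).ncard ^ 2 ≤
        (3 * ((2 * S.card + 1) ^ 2 + 4 * n)) ^ r :=
      calc _ ≤ (ball ((S : Set (Mod g)) ∪ fifthTwists g n) r ∩
              (torelli g : Set (Mod g))).ncard ^ 2 := by gcongr
        _ ≤ _ := h1
        _ ≤ _ := by gcongr
    exact_mod_cast h4
  · exact words_card hg hfin Set.subset_union_right

end Pool.Agent.Helper119.MG
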