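import Pool.Agent.Helper119.MG.Near

/-! Ball growth for groups generated by letters placed on a line, where far letters commute. -/

namespace Pool.Agent.Helper119.MG

section NF

variable {G : Type*} [Group G] {τ : Type*} [Fintype τ]

/-- products of normal forms of length `s`, the first letter being allowed to follow a letter of
index `i` -/
def NF (e : ℕ → τ → G) (g : ℕ) : ℕ → ℕ → Set G
  | 0, _ => {1}
  | (s + 1), i => {x | ∃ j, j < g ∧ i ≤ j + 1 ∧ ∃ t, ∃ w ∈ NF e g s j, x = e j t * w}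

omit [Fintype τ] in
lemma nf_insert {e : ℕ → τ → G} {g : ℕ}
    (hc : ∀ i j s t, j + 2 ≤ i → e i s * e j t = e j t * e i s) :
    ∀ (s : ℕ) (j0 i : ℕ) (t : τ) (w : G), i < g → j0 ≤ i + 1 → w ∈ NF e g s j0 →
      e i t * w ∈ NF e g (s + 1) j0
  | 0, j0, i, t, w, hi, hj, hw => by
    refine ⟨i, hi, hj, t, 1, rfl, ?_⟩
    rw [show w = 1 from hw]
  | (s + 1), j0, i, t, w, hi, hj, hw => by
    obtain ⟨j, hjg, hj0, t', w', hw', rfl⟩ := hw
    rcases Nat.lt_or_ge (j + 1) i with h | h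
    · have ih := nf_insert hc s j i t w' hi (by omega) hw'
      refine ⟨j, hjg, hj0, t', e i t * w', ih, ?_⟩
      rw [← mul_assoc, hc i j t t' (by omega), mul_assoc]
    · exact ⟨i, hi, hj, t, e j t' * w', ⟨j, hjg, by omega, t', w', hw', rfl⟩, rfl⟩

lemma sum_two (d : ℕ) : ∀ a, ∑ j ∈ Finset.Ico a (a + d), 2 ^ (a + d - j) ≤ 2 ^ (d + 1) := by
  induction d with
  | zero => intro a; simp
  | succ d ih =>
    intro a
    rw [Finset.sum_eq_sum_Ico_succ_bot (by omega)]
    have h1 := ih (a + 1)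
    have e1 : a + 1 + d = a + (d + 1) := by ring
    rw [e1] at h1
    have e2 : a + (d + 1) - a = d + 1 := by omega
    rw [e2]
    calc 2 ^ (d + 1) + ∑ k ∈ Finset.Ico (a + 1) (a + (d + 1)), 2 ^ (a + (d + 1) - k)
        ≤ 2 ^ (d + 1) + 2 ^ (d + 1) := by omega
      _ = 2 ^ (d + 1 + 1) := by ring

lemma nf_finite {e : ℕ → τ → G} {g : ℕ} : ∀ (s i : ℕ), (NF e g s i).Finite
  | 0, _ => Set.finite_singleton _
  | (s + 1), i => by
    have h : NF e g (s + 1) i ⊆ ⋃ j ∈ Finset.Ico (i - 1) g, ⋃ t ∈ (Finset.univ : Finset τ),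
        (fun w => e j t * w) '' NF e g s j := by
      rintro x ⟨j, hj, hij, t, w, hw, rfl⟩
      simp only [Set.mem_iUnion]
      exact ⟨j, Finset.mem_Ico.2 ⟨by omega, hj⟩, t, Finset.mem_univ t, w, hw, rfl⟩
    refine Set.Finite.subset ?_ h
    exact Set.Finite.biUnion (Finset.finite_toSet _) (fun j _ =>
      Set.Finite.biUnion (Finset.finite_toSet _) (fun t _ => (nf_finite s j).image _))

lemma nf_card {e : ℕ → τ → G} {g : ℕ} : ∀ (s i : ℕ), i ≤ g →
    (NF e g s i).ncard ≤ (4 * Fintype.card τ) ^ s * 2 ^ (g - i)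
  | 0, i, hi => by
    have : (NF e g 0 i).ncard = 1 := Set.ncard_singleton _
    rw [this]
    simpa using Nat.one_le_two_pow
  | (s + 1), i, hi => by
    have h : NF e g (s + 1) i ⊆ ⋃ j ∈ Finset.Ico (i - 1) g, ⋃ t ∈ (Finset.univ : Finset τ),
        (fun w => e j t * w) '' NF e g s j := by
      rintro x ⟨j, hj, hij, t, w, hw, rfl⟩
      simp only [Set.mem_iUnion]
      exact ⟨j, Finset.mem_Ico.2 ⟨by omega, hj⟩, t, Finset.mem_univ t, w, hw, rfl⟩
    have hfin : (⋃ j ∈ Finset.Ico (i - 1) g, ⋃ t ∈ (Finset.univ : Finset τ),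
        (fun w => e j t * w) '' NF e g s j).Finite :=
      Set.Finite.biUnion (Finset.finite_toSet _) (fun j _ =>
        Set.Finite.biUnion (Finset.finite_toSet _) (fun t _ => (nf_finite s j).image _))
    have h1 : ∀ j ∈ Finset.Ico (i - 1) g, (⋃ t ∈ (Finset.univ : Finset τ),
        (fun w => e j t * w) '' NF e g s j).ncard ≤
        Fintype.card τ * ((4 * Fintype.card τ) ^ s * 2 ^ (g - j)) := by
      intro j hj
      rw [Finset.mem_Ico] at hj
      refine (Finset.set_ncard_biUnion_le _ _).trans ?_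
      have h2 : ∀ t ∈ (Finset.univ : Finset τ), ((fun w => e j t * w) '' NF e g s j).ncard ≤
          (4 * Fintype.card τ) ^ s * 2 ^ (g - j) := fun t _ =>
        (Set.ncard_image_le (nf_finite s j)).trans (nf_card s j (by omega))
      refine (Finset.sum_le_sum h2).trans ?_
      rw [Finset.sum_const, Finset.card_univ, smul_eq_mul]
    calc (NF e g (s + 1) i).ncard ≤ _ := Set.ncard_le_ncard h hfin
      _ ≤ ∑ j ∈ Finset.Ico (i - 1) g, (⋃ t ∈ (Finset.univ : Finset τ),
        (fun w => e j t * w) '' NF e g s j).ncard := Finset.set_ncard_biUnion_le _ _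
      _ ≤ ∑ j ∈ Finset.Ico (i - 1) g, Fintype.card τ * ((4 * Fintype.card τ) ^ s * 2 ^ (g - j)) :=
        Finset.sum_le_sum h1
      _ = Fintype.card τ * (4 * Fintype.card τ) ^ s *
          ∑ j ∈ Finset.Ico (i - 1) g, 2 ^ (g - j) := by
        rw [Finset.mul_sum]
        refine Finset.sum_congr rfl (fun j _ => by ring)
      _ ≤ Fintype.card τ * (4 * Fintype.card τ) ^ s * (4 * 2 ^ (g - i)) := by
        refine Nat.mul_le_mul_left _ ?_
        have h3 := sum_two (g - (i - 1)) (i - 1)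
        have e1 : i - 1 + (g - (i - 1)) = g := by omega
        rw [e1] at h3
        refine h3.trans ?_
        have e2 : (4 : ℕ) * 2 ^ (g - i) = 2 ^ (g - i + 2) := by ring
        rw [e2]
        exact Nat.pow_le_pow_right (by norm_num) (by omega)
      _ = (4 * Fintype.card τ) ^ (s + 1) * 2 ^ (g - i) := by ring

lemma geom_bound {K : ℕ} (hK : 2 ≤ K) (r : ℕ) : ∑ s ∈ Finset.range (r + 1), K ^ s ≤ 2 * K ^ r := by
  induction r with
  | zero => simp
  | succ r ih =>
    rw [Finset.sum_range_succ]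
    have : 2 * K ^ r ≤ K ^ (r + 1) := by
      rw [pow_succ, mul_comm]
      exact Nat.mul_le_mul_left _ hK
    omega

/-- Ball growth. -/
theorem nf_ball {e : ℕ → τ → G} {g : ℕ}
    (hc : ∀ i j s t, j + 2 ≤ i → e i s * e j t = e j t * e i s) {S : Set G}
    (hS : ∀ y, y ∈ S ∨ y⁻¹ ∈ S → ∃ i < g, ∃ t, y = e i t) (hτ : 1 ≤ Fintype.card τ) (r : ℕ) :
    (ball S r).ncard ≤ 2 ^ (g + 1) * (4 * Fintype.card τ) ^ r := by
  have h : ball S r ⊆ ⋃ s ∈ Finset.range (r + 1), NF e g s 0 := by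
    rintro x ⟨l, hl, hlS, rfl⟩
    have key : ∀ l : List G, (∀ y ∈ l, y ∈ S ∨ y⁻¹ ∈ S) → l.prod ∈ NF e g l.length 0 := by
      intro l
      induction l with
      | nil => intro _; exact rfl
      | cons y l ih =>
        intro h
        obtain ⟨i, hi, t, hy⟩ := hS y (h y (by simp))
        rw [List.prod_cons, List.length_cons, hy]
        exact nf_insert hc _ 0 i t _ hi (by omega) (ih (fun z hz => h z (by simp [hz])))
    simp only [Set.mem_iUnion]
    exact ⟨l.length, Finset.mem_range.2 (by omega), key l hlS⟩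
  calc (ball S r).ncard ≤ (⋃ s ∈ Finset.range (r + 1), NF e g s 0).ncard :=
        Set.ncard_le_ncard h (Set.Finite.biUnion (Finset.finite_toSet _)
          (fun s _ => nf_finite s 0))
    _ ≤ ∑ s ∈ Finset.range (r + 1), (NF e g s 0).ncard := Finset.set_ncard_biUnion_le _ _
    _ ≤ ∑ s ∈ Finset.range (r + 1), (4 * Fintype.card τ) ^ s * 2 ^ g :=
        Finset.sum_le_sum (fun s _ => by simpa using nf_card (e := e) s 0 (Nat.zero_le g))
    _ = (∑ s ∈ Finset.range (r + 1), (4 * Fintype.card τ) ^ s) * 2 ^ g := by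
        rw [Finset.sum_mul]
    _ ≤ (2 * (4 * Fintype.card τ) ^ r) * 2 ^ g :=
        Nat.mul_le_mul_right _ (geom_bound (by omega) r)
    _ = 2 ^ (g + 1) * (4 * Fintype.card τ) ^ r := by ring

end NF

/-! ### Commuting automorphisms -/

variable {g : ℕ}

/-- generators with handle index in `I` -/
def handleGens (I : Set ℕ) : Set (SurfaceGroup g) :=
  {x | ∃ i : Fin g, (i : ℕ) ∈ I ∧ (x = gen (Sum.inl i) ∨ x = gen (Sum.inr i))}

/-- `φ` is supported on the handles with index in `I` -/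
def SuppIn (φ : MulAut (SurfaceGroup g)) (I : Set ℕ) : Prop :=
  (∀ i : Fin g, (i : ℕ) ∉ I → φ (gen (Sum.inl i)) = gen (Sum.inl i) ∧
    φ (gen (Sum.inr i)) = gen (Sum.inr i)) ∧
  (∀ i : Fin g, (i : ℕ) ∈ I → φ (gen (Sum.inl i)) ∈ Subgroup.closure (handleGens I) ∧
    φ (gen (Sum.inr i)) ∈ Subgroup.closure (handleGens (g := g) I))

lemma supp_fix {φ : MulAut (SurfaceGroup g)} {I J : Set ℕ} (h : SuppIn φ I)
    (hd : Disjoint I J) {x : SurfaceGroup g} (hx : x ∈ Subgroup.closure (handleGens J)) :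
    φ x = x := by
  induction hx using Subgroup.closure_induction with
  | mem x hx =>
    obtain ⟨i, hi, rfl | rfl⟩ := hx
    · exact (h.1 i (fun hI => Set.disjoint_left.1 hd hI hi)).1
    · exact (h.1 i (fun hI => Set.disjoint_left.1 hd hI hi)).2
  | one => exact map_one φ
  | mul x y _ _ hx hy => rw [map_mul, hx, hy]
  | inv x _ hx => rw [map_inv, hx]

lemma supp_comm {φ ψ : MulAut (SurfaceGroup g)} {I J : Set ℕ} (h : SuppIn φ I)
    (h' : SuppIn ψ J) (hd : Disjoint I J) : φ * ψ = ψ * φ := by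
  refine aut_ext (fun j => ?_)
  rw [MulAut.mul_apply, MulAut.mul_apply]
  rcases j with i | i
  · by_cases hI : (i : ℕ) ∈ I
    · have hJ : (i : ℕ) ∉ J := Set.disjoint_left.1 hd hI
      rw [(h'.1 i hJ).1, supp_fix h' hd.symm (h.2 i hI).1]
    · rw [(h.1 i hI).1]
      by_cases hJ : (i : ℕ) ∈ J
      · exact supp_fix h hd (h'.2 i hJ).1
      · rw [(h'.1 i hJ).1, (h.1 i hI).1]
  · by_cases hI : (i : ℕ) ∈ I
    · have hJ : (i : ℕ) ∉ J := Set.disjoint_left.1 hd hI
      rw [(h'.1 i hJ).2, supp_fix h' hd.symm (h.2 i hI).2]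
    · rw [(h.1 i hI).2]
      by_cases hJ : (i : ℕ) ∈ J
      · exact supp_fix h hd (h'.2 i hJ).2
      · rw [(h'.1 i hJ).2, (h.1 i hI).2]

lemma gens_l {I : Set ℕ} {i : Fin g} (h : (i : ℕ) ∈ I) :
    (gen (Sum.inl i) : SurfaceGroup g) ∈ Subgroup.closure (handleGens I) :=
  Subgroup.subset_closure ⟨i, h, Or.inl rfl⟩

lemma gens_r {I : Set ℕ} {i : Fin g} (h : (i : ℕ) ∈ I) :
    (gen (Sum.inr i) : SurfaceGroup g) ∈ Subgroup.closure (handleGens I) :=
  Subgroup.subset_closure ⟨i, h, Or.inr rfl⟩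

lemma supp_tA (i0 : Fin g) (k : ℤ) : SuppIn (tA i0 k : MulAut (SurfaceGroup g)) {(i0 : ℕ)} := by
  constructor
  · intro i hi
    have hi' : i ≠ i0 := fun h => hi (by rw [h]; rfl)
    rw [tA_gen, tA_gen, if_neg (by simp), if_neg (fun h => hi' (Sum.inr.inj h))]
    exact ⟨rfl, rfl⟩
  · intro i hi
    have hi' : i = i0 := Fin.ext hi
    subst hi'
    rw [tA_gen, tA_gen, if_neg (by simp), if_pos rfl]
    exact ⟨gens_l hi, mul_mem (gens_r hi) (zpow_mem (gens_l hi) _)⟩

lemma supp_tB (i0 : Fin g) (k : ℤ) : SuppIn (tB i0 k : MulAut (SurfaceGroup g)) {(i0 : ℕ)} := by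
  constructor
  · intro i hi
    have hi' : i ≠ i0 := fun h => hi (by rw [h]; rfl)
    rw [tB_gen, tB_gen, if_neg (fun h => hi' (Sum.inl.inj h)), if_neg (by simp)]
    exact ⟨rfl, rfl⟩
  · intro i hi
    have hi' : i = i0 := Fin.ext hi
    subst hi'
    rw [tB_gen, tB_gen, if_pos rfl, if_neg (by simp)]
    exact ⟨mul_mem (gens_l hi) (zpow_mem (gens_r hi) _), gens_r hi⟩

lemma supp_tL (i : ℕ) (hi : i + 1 < g) (k : ℤ) :
    SuppIn (tL i hi k : MulAut (SurfaceGroup g)) {i, i + 1} := by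
  have m1 : ((⟨i, by omega⟩ : Fin g) : ℕ) ∈ ({i, i + 1} : Set ℕ) := Or.inl rfl
  have m2 : ((⟨i + 1, hi⟩ : Fin g) : ℕ) ∈ ({i, i + 1} : Set ℕ) := Or.inr rfl
  have hcurve : (linkCurve i hi : SurfaceGroup g) ∈
      Subgroup.closure (handleGens ({i, i + 1} : Set ℕ)) := by
    unfold linkCurve
    exact mul_mem (mul_mem (mul_mem (inv_mem (gens_l m2)) (gens_r m1)) (gens_l m1))
      (inv_mem (gens_r m1))
  constructor
  · intro j hj
    have h1 : j ≠ ⟨i, by omega⟩ := fun h => hj (by rw [h]; exact m1)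
    have h2 : j ≠ ⟨i + 1, hi⟩ := fun h => hj (by rw [h]; exact m2)
    rw [tL_gen, tL_gen]
    constructor
    · unfold linkFun
      rw [if_neg (by simp), if_neg (fun h => h2 (Sum.inl.inj h)), if_neg (by simp)]
    · unfold linkFun
      rw [if_neg (fun h => h1 (Sum.inr.inj h)), if_neg (by simp),
        if_neg (fun h => h2 (Sum.inr.inj h))]
  · intro j hj
    have hj' : j = ⟨i, by omega⟩ ∨ j = ⟨i + 1, hi⟩ := by
      rcases hj with h | h
      · exact Or.inl (Fin.ext h)
      · exact Or.inr (Fin.ext h)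
    rw [tL_gen, tL_gen]
    unfold linkFun
    constructor
    · split_ifs <;> first
        | exact mul_mem (zpow_mem hcurve _) (gens_r m1)
        | exact mul_mem (mul_mem (zpow_mem hcurve _) (gens_l m2)) (zpow_mem hcurve _)
        | exact mul_mem (gens_r m2) (zpow_mem hcurve _)
        | exact gens_l hj
    · split_ifs <;> first
        | exact mul_mem (zpow_mem hcurve _) (gens_r m1)
        | exact mul_mem (mul_mem (zpow_mem hcurve _) (gens_l m2)) (zpow_mem hcurve _)
        | exact mul_mem (gens_r m2) (zpow_mem hcurve _)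
        | exact gens_r hj

/-- the positive letters -/
def lb (g : ℕ) (j : ℕ) (t : Fin 3) : orientedAut g :=
  if h : j < g then
    (if t = 0 then tA ⟨j, h⟩ 1 else if t = 1 then tB ⟨j, h⟩ 1
      else if h' : j + 1 < g then tL j h' 1 else 1)
  else 1

lemma supp_one (I : Set ℕ) : SuppIn (1 : MulAut (SurfaceGroup g)) I :=
  ⟨fun _ _ => ⟨rfl, rfl⟩, fun _ hi => ⟨gens_l hi, gens_r hi⟩⟩

lemma supp_mono_single {φ : MulAut (SurfaceGroup g)} {i : ℕ} (h : SuppIn φ {i}) :
    SuppIn φ {i, i + 1} := by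
  have hsub : (handleGens {i} : Set (SurfaceGroup g)) ⊆ handleGens {i, i + 1} := by
    rintro x ⟨j, hj, hx⟩
    exact ⟨j, Or.inl hj, hx⟩
  constructor
  · intro j hj
    exact h.1 j (fun h' => hj (Or.inl h'))
  · intro j hj
    by_cases hji : (j : ℕ) = i
    · exact ⟨Subgroup.closure_mono hsub (h.2 j hji).1, Subgroup.closure_mono hsub (h.2 j hji).2⟩
    · rw [(h.1 j hji).1, (h.1 j hji).2]
      exact ⟨gens_l hj, gens_r hj⟩

lemma supp_lb (j : ℕ) (t : Fin 3) : SuppIn (lb g j t : MulAut (SurfaceGroup g)) {j, j + 1} := by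
  unfold lb
  split_ifs with h h1 h2 h3
  · exact supp_mono_single (supp_tA ⟨j, h⟩ 1)
  · exact supp_mono_single (supp_tB ⟨j, h⟩ 1)
  · exact supp_tL j h3 1
  · exact supp_one _
  · exact supp_one _

lemma lb_comm {i j : ℕ} (h : j + 2 ≤ i) (s t : Fin 3) :
    toMod (lb g i s) * toMod (lb g j t) = toMod (lb g j t) * toMod (lb g i s) := by
  have hd : Disjoint ({i, i + 1} : Set ℕ) {j, j + 1} := by
    rw [Set.disjoint_left]
    rintro x (rfl | rfl) (h' | h')
    · omega
    · have : x = j + 1 := h'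
      omega
    · omega
    · have : i + 1 = j + 1 := h'
      omega
  have h1 := supp_comm (supp_lb (g := g) i s) (supp_lb (g := g) j t) hd
  have h2 : lb g i s * lb g j t = lb g j t * lb g i s := Subtype.ext h1
  rw [← toMod_mul, ← toMod_mul, h2]

/-- the letters -/
def le (g : ℕ) (j : ℕ) (t : Fin 3 × Bool) : Mod g :=
  if t.2 then toMod (lb g j t.1) else (toMod (lb g j t.1))⁻¹

lemma le_comm (i j : ℕ) (s t : Fin 3 × Bool) (h : j + 2 ≤ i) :
    le g i s * le g j t = le g j t * le g i s := by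
  have h1 : Commute (toMod (lb g i s.1)) (toMod (lb g j t.1)) := lb_comm h s.1 t.1
  have h2 : Commute (le g i s) (le g j t) := by
    unfold le
    split_ifs
    · exact h1
    · exact h1.inv_right
    · exact h1.inv_left
    · exact h1.inv_inv
  exact h2

/-- Ball growth for Lickorish's twists. -/
theorem lickorish_ball (g r : ℕ) :
    (ball (lickorish g) r).ncard ≤ 2 ^ (g + 1) * 24 ^ r := by
  have key : ∀ x ∈ lickorish g, ∃ i < g, ∃ t : Fin 3, x = toMod (lb g i t) := by
    intro x hx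
    rw [mem_lickorish] at hx
    rcases hx with ⟨i, rfl⟩ | ⟨i, rfl⟩ | ⟨i, hi, rfl⟩
    · refine ⟨i, i.2, 0, ?_⟩
      unfold lb
      rw [dif_pos i.2, if_pos rfl]
    · refine ⟨i, i.2, 1, ?_⟩
      unfold lb
      rw [dif_pos i.2, if_neg (by decide), if_pos rfl]
    · refine ⟨i, by omega, 2, ?_⟩
      unfold lb
      rw [dif_pos (by omega : i < g), if_neg (by decide), if_neg (by decide), dif_pos hi]
  have h := nf_ball (e := le g) (g := g) le_comm (S := lickorish g) (by
    rintro y (hy | hy)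
    · obtain ⟨i, hi, t, rfl⟩ := key y hy
      exact ⟨i, hi, (t, true), rfl⟩
    · obtain ⟨i, hi, t, h⟩ := key _ hy
      refine ⟨i, hi, (t, false), ?_⟩
      rw [← inv_inv y, h]
      rfl) (by simp) r
  have e : 4 * Fintype.card (Fin 3 × Bool) = 24 := by simp
  rw [e] at h
  exact h

end Pool.Agent.Helper119.MG
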