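import Pool.Agent.Helper119.MG.ZPing
import Pool.Agent.Helper119.MG.Defs2

/-! Counting elements of the Johnson filtration with the help of separating twists. -/

open Filter Topology

namespace Pool.Agent.Helper119.MG

/-! ### Real estimates -/

section Real

variable {G : Type*} [Group G]

lemma lower_nonneg {S : Set G} (hS : S.Finite) (H : Set G) : 0 ≤ lowerLogDensity S H :=
  le_liminf_of_le (bdd_above hS H).isCoboundedUnder_ge
    (Eventually.of_forall (fun r => ratio_nonneg S H r))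

lemma lower_of_real {S : Set G} (hS : S.Finite) {H : Set G} {K C : ℝ} (hK : 1 < K)
    (hC : 1 ≤ C) (hN : ∀ r, ((ball S r).ncard : ℝ) ≤ C * K ^ r) {A E : ℝ} (hA : 1 < A)
    (hE : 0 < E) {D c : ℕ} (hD : 1 ≤ D)
    (hH : ∀ k, 1 ≤ k → A ^ k ≤ E * (ball S (D * k + c) ∩ H).ncard) :
    Real.log A / (D * Real.log K) ≤ lowerLogDensity S H := by
  have hlogK : 0 < Real.log K := Real.log_pos hK
  have hlogA : 0 < Real.log A := Real.log_pos hA
  have hD' : (0 : ℝ) < D := by exact_mod_cast hD
  have ht := tendsto_ratio (Real.log A / D) (-((c : ℝ) / D + 1) * Real.log A - Real.log E)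
    (Real.log K) (Real.log C) hlogK
  have e0 : Real.log A / (D * Real.log K) = Real.log A / D / Real.log K := by
    rw [div_div]
  rw [e0, ← ht.liminf_eq]
  unfold lowerLogDensity
  refine liminf_le_liminf ?_ ht.isBoundedUnder_ge (bdd_above hS H).isCoboundedUnder_ge
  obtain ⟨k0, hk0⟩ := (tendsto_pow_atTop_atTop_of_one_lt hA).eventually_ge_atTop (2 * E) |>.exists
  filter_upwards [eventually_ge_atTop (c + D * (k0 + 1))] with r hr
  set k := (r - c) / D with hk
  have hk1 : D * k + c ≤ r := by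
    have := Nat.mul_div_le (r - c) D
    rw [← hk] at this
    have : c ≤ r := by
      have : 0 ≤ D * (k0 + 1) := Nat.zero_le _
      omega
    omega
  have hk2 : k0 + 1 ≤ k := by
    rw [hk, Nat.le_div_iff_mul_le (by omega), mul_comm]
    omega
  have hfin : (ball S r ∩ H).Finite := (ball_finite hS r).inter_of_left _
  have hmono : (ball S (D * k + c) ∩ H).ncard ≤ (ball S r ∩ H).ncard :=
    Set.ncard_le_ncard (Set.inter_subset_inter_left _ (ball_mono hk1)) hfin
  have hNH : A ^ k ≤ E * (ball S r ∩ H).ncard := by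
    refine (hH k (by omega)).trans ?_
    gcongr
  have hNN : (ball S r ∩ H).ncard ≤ (ball S r).ncard :=
    Set.ncard_le_ncard Set.inter_subset_left (ball_finite hS r)
  have hAk : 2 * E ≤ A ^ k := hk0.trans (pow_le_pow_right₀ hA.le (by omega))
  have hcount : (2 : ℝ) ≤ ((ball S r ∩ H).ncard : ℝ) := by
    have : 2 * E ≤ E * (ball S r ∩ H).ncard := hAk.trans hNH
    have h2 : E * 2 ≤ E * (ball S r ∩ H).ncard := by linarith
    exact le_of_mul_le_mul_left h2 hE
  have hNpos : (2 : ℝ) ≤ ((ball S r).ncard : ℝ) := hcount.trans (by exact_mod_cast hNN)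
  have hlogN : 0 < Real.log ((ball S r).ncard : ℝ) := Real.log_pos (by linarith)
  have hlogN2 : Real.log ((ball S r).ncard : ℝ) ≤ Real.log K * r + Real.log C := by
    have h1 := Real.log_le_log (by linarith) (hN r)
    rw [Real.log_mul (by positivity) (by positivity), Real.log_pow] at h1
    linarith
  have hlogH : (k : ℝ) * Real.log A - Real.log E ≤ Real.log ((ball S r ∩ H).ncard : ℝ) := by
    have h1 := Real.log_le_log (by positivity) hNH
    rw [Real.log_mul (by positivity) (by linarith), Real.log_pow] at h1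
    linarith
  have hpos : 0 ≤ (k : ℝ) * Real.log A - Real.log E := by
    have h1 := Real.log_le_log (by linarith) hAk
    rw [Real.log_pow] at h1
    have h2 := Real.log_le_log hE (by linarith : E ≤ 2 * E)
    linarith
  have hkr : (r : ℝ) / D - ((c : ℝ) / D + 1) ≤ k := by
    have h1 : r - c < D * (k + 1) := by
      have := Nat.lt_mul_div_succ (r - c) (by omega : 0 < D)
      simpa using this
    have h2 : (r : ℝ) ≤ D * (k + 1) + c := by
      have : r ≤ D * (k + 1) + c := by omega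
      exact_mod_cast this
    have h3 : (r : ℝ) / D ≤ (k + 1) + c / D := by
      rw [div_le_iff₀ hD']
      have e : ((k : ℝ) + 1 + c / D) * D = D * (k + 1) + c := by field_simp
      rw [e]; exact h2
    linarith
  unfold logRatio
  rw [div_le_div_iff₀ (by linarith) hlogN]
  have h5 : (Real.log A / D * r + (-((c : ℝ) / D + 1) * Real.log A - Real.log E)) ≤
      k * Real.log A - Real.log E := by
    have e : (Real.log A / D * r + (-((c : ℝ) / D + 1) * Real.log A - Real.log E)) =
      ((r : ℝ) / D - ((c : ℝ) / D + 1)) * Real.log A - Real.log E := by ring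
    rw [e]
    have := mul_le_mul_of_nonneg_right hkr hlogA.le
    linarith
  calc (Real.log A / D * r + (-((c : ℝ) / D + 1) * Real.log A - Real.log E)) *
        Real.log ((ball S r).ncard : ℝ)
      ≤ (k * Real.log A - Real.log E) * Real.log ((ball S r).ncard : ℝ) :=
        mul_le_mul_of_nonneg_right h5 hlogN.le
    _ ≤ Real.log ((ball S r ∩ H).ncard : ℝ) * (Real.log K * r + Real.log C) :=
        mul_le_mul hlogH hlogN2 hlogN.le (hpos.trans hlogH)

lemma lower_of_poly {S : Set G} (hS : S.Finite) {H : Set G} {K C : ℝ} (hK : 1 < K)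
    (hC : 1 ≤ C) (hN : ∀ r, ((ball S r).ncard : ℝ) ≤ C * K ^ r) {A : ℝ} (hA : 1 < A)
    {E P : ℕ} {D c : ℕ} (hD : 1 ≤ D)
    (hH : ∀ k, 1 ≤ k → A ^ k ≤ ((E * (k + 1) ^ P : ℕ) : ℝ) *
      (ball S (D * k + c) ∩ H).ncard) :
    Real.log A / (D * Real.log K) ≤ lowerLogDensity S H := by
  have hlogK : 0 < Real.log K := Real.log_pos hK
  have hD' : (0 : ℝ) < D := by exact_mod_cast hD
  have hDK : 0 < D * Real.log K := by positivity
  by_contra hcon
  push Not at hcon
  obtain ⟨t, ht1, ht2⟩ := exists_between hcon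
  have ht0 : 0 < t := lt_of_le_of_lt (lower_nonneg hS H) ht1
  set A' := Real.exp (t * (D * Real.log K)) with hA'
  have hA'1 : 1 < A' := by
    rw [hA', Real.one_lt_exp_iff]; positivity
  have hA'A : A' < A := by
    rw [hA', ← Real.exp_log (by linarith : (0 : ℝ) < A), Real.exp_lt_exp]
    rwa [lt_div_iff₀ hDK] at ht2
  set ρ := A' / A with hρ
  have hρ0 : 0 < ρ := by positivity
  have hρ1 : ρ < 1 := (div_lt_one (by linarith)).2 hA'A
  have htend := tendsto_pow_const_mul_const_pow_of_abs_lt_one P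
    (r := ρ) (by rwa [abs_of_pos hρ0])
  obtain ⟨B, hB⟩ := htend.bddAbove_range
  have hBk : ∀ k : ℕ, ((k : ℝ) ^ P) * ρ ^ k ≤ B := fun k => hB ⟨k, rfl⟩
  have hfinal : Real.log A' / (D * Real.log K) ≤ lowerLogDensity S H := by
    refine lower_of_real hS hK hC hN hA'1 (E := (E * (|B| + 1) / ρ + 1)) (by positivity) hD
      (c := c) ?_
    intro k hk
    have h1 := hH k hk
    have h2 : A' ^ k = ρ ^ k * A ^ k := by
      rw [hρ, div_pow]
      field_simp
    rw [h2]
    have h3 : ρ ^ k * ((E * (k + 1) ^ P : ℕ) : ℝ) ≤ E * (|B| + 1) / ρ + 1 := by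
      have h4 := hBk (k + 1)
      have h5 : ((k + 1 : ℕ) : ℝ) ^ P * ρ ^ (k + 1) ≤ |B| + 1 := by
        have := le_abs_self B
        linarith
      have h6 : ρ ^ k * ((E * (k + 1) ^ P : ℕ) : ℝ) =
          E * (((k + 1 : ℕ) : ℝ) ^ P * ρ ^ (k + 1)) / ρ := by
        push_cast
        rw [pow_succ]
        field_simp
      rw [h6]
      have h7 : E * (((k + 1 : ℕ) : ℝ) ^ P * ρ ^ (k + 1)) / ρ ≤ E * (|B| + 1) / ρ := by
        gcongr
      linarith
    calc ρ ^ k * A ^ k ≤ ρ ^ k * (((E * (k + 1) ^ P : ℕ) : ℝ) *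
          (ball S (D * k + c) ∩ H).ncard) := by gcongr
      _ = (ρ ^ k * ((E * (k + 1) ^ P : ℕ) : ℝ)) * (ball S (D * k + c) ∩ H).ncard := by ring
      _ ≤ (E * (|B| + 1) / ρ + 1) * (ball S (D * k + c) ∩ H).ncard := by gcongr
  rw [hA', Real.log_exp, mul_div_assoc, div_self hDK.ne', mul_one] at hfinal
  linarith

end Real

/-! ### Pairs in the same class -/

lemma pairs_bound {A B : Type*} [Fintype A] [DecidableEq B] (f : A → B) :
    (Fintype.card A) ^ 2 ≤ (Finset.univ.image f).card *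
      (Finset.univ.filter (fun p : A × A => f p.1 = f p.2)).card := by
  classical
  have h1 : Fintype.card A = ∑ c ∈ Finset.univ.image f,
      (Finset.univ.filter (fun a : A => f a = c)).card := by
    rw [← Finset.card_univ]
    exact Finset.card_eq_sum_card_fiberwise (fun a _ => by simp)
  have h2 : (Finset.univ.filter (fun p : A × A => f p.1 = f p.2)).card =
      ∑ c ∈ Finset.univ.image f, (Finset.univ.filter (fun a : A => f a = c)).card ^ 2 := by
    rw [Finset.card_eq_sum_card_fiberwise (f := fun p : A × A => f p.1)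
      (t := Finset.univ.image f) (fun a _ => by simp)]
    refine Finset.sum_congr rfl (fun c _ => ?_)
    rw [sq, ← Finset.card_product]
    congr 1
    ext ⟨a, b⟩
    simp only [Finset.mem_filter, Finset.mem_univ, true_and, Finset.mem_product]
    constructor
    · rintro ⟨h, h'⟩; exact ⟨h', by rw [← h, h']⟩
    · rintro ⟨h, h'⟩; exact ⟨by rw [h, h'], h⟩
  rw [h2, h1]
  exact sq_sum_le_card_mul_sum_sq

variable {g : ℕ}

/-- the automorphisms acting trivially modulo `γ_{m+1}` -/
def trivSub (g m : ℕ) : Subgroup (MulAut (SurfaceGroup g)) where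
  carrier := {φ | TrivMod φ m}
  one_mem' := by
    intro y
    have e : (1 : MulAut (SurfaceGroup g)) y * y⁻¹ = 1 := by simp
    rw [e]; exact one_mem _
  mul_mem' := fun h h' => triv_mul h h'
  inv_mem' := fun h => triv_inv h

instance (g m : ℕ) : (trivSub g m).Normal := ⟨fun _ hφ ψ => triv_conj hφ ψ⟩

lemma triv_anti {φ : MulAut (SurfaceGroup g)} {m m' : ℕ} (h : m ≤ m') (hφ : TrivMod φ m') :
    TrivMod φ m := fun y => Subgroup.lowerCentralSeries_antitone _ h (hφ y)

/-- Finite sets of Torelli automorphisms have polynomial growth modulo `trivSub g m`. -/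
lemma poly_triv_sub (m : ℕ) (Y : Set (MulAut (SurfaceGroup g) ⧸ trivSub g m)) (hfin : Y.Finite)
    (hY : ∀ y ∈ Y, ∃ φ, TrivMod φ 1 ∧ (QuotientGroup.mk φ : _ ⧸ trivSub g m) = y) :
    PolyGr Y := by
  refine poly_main (P := fun k => {y | ∃ φ, TrivMod φ k ∧
    (QuotientGroup.mk φ : _ ⧸ trivSub g m) = y}) (M := m + 1) ?_ ?_ ?_ m 1 le_rfl (by omega) Y
    hfin hY
  · rintro k y ⟨φ, hφ, rfl⟩
    exact ⟨φ, triv_anti (by omega) hφ, rfl⟩
  · rintro k y ⟨φ, hφ, rfl⟩ t ⟨τ, hτ, rfl⟩
    refine ⟨φ⁻¹ * τ⁻¹ * φ⁻¹⁻¹ * τ⁻¹⁻¹, triv_comm (triv_inv hφ) (triv_inv hτ), ?_⟩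
    rw [inv_inv, inv_inv]
    rfl
  · rintro k hk y ⟨φ, hφ, rfl⟩
    rw [QuotientGroup.eq_one_iff]
    exact triv_anti (by omega) hφ

/-! ### The letters -/

/-- the separating twist -/
def uO (hg : 2 ≤ g) : orientedAut g := ⟨uAut hg, triv_one_preserves (triv_u hg)⟩

/-- the `i`-th letter -/
def zt (hg : 2 ≤ g) (i : ℕ) : orientedAut g := tau ⟨0, by omega⟩ i * uO hg * (tau ⟨0, by omega⟩ i)⁻¹

lemma triv_zt (hg : 2 ≤ g) (i : ℕ) : TrivMod (zt hg i : MulAut (SurfaceGroup g)) 1 :=
  triv_conj (triv_u hg) _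

lemma impl_zt (hg : 2 ≤ g) (i : ℕ) : Impl hg (zt hg i : MulAut (SurfaceGroup g)) (zm i) := by
  have h := impl_mul hg (impl_mul hg (impl_tau hg i) (impl_u hg)) (impl_inv hg (impl_tau hg i))
  have e : tm i * tv 4 (1, 0) * (tm i)⁻¹ = zm i := by
    unfold tm zm
    rw [conj_tv]
    congr 1
    rw [tv_apply]
    ext
    · simp [om]; ring
    · simp [om]
  rw [e] at h
  exact h

/-- words in the letters -/
def zw (hg : 2 ≤ g) (l : List ℕ) : orientedAut g := (l.map (zt hg)).prod

lemma zw_cons (hg : 2 ≤ g) (i : ℕ) (l : List ℕ) : zw hg (i :: l) = zt hg i * zw hg l := by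
  unfold zw
  rw [List.map_cons, List.prod_cons]

lemma impl_zw (hg : 2 ≤ g) (l : List ℕ) :
    Impl hg (zw hg l : MulAut (SurfaceGroup g)) (zwm l) := by
  induction l with
  | nil => exact impl_one hg
  | cons i l ih =>
    have h := impl_mul hg (impl_zt hg i) ih
    rw [← zwm_cons] at h
    rw [zw_cons]
    exact h

lemma zw_inj (hg : 2 ≤ g) (m : ℕ) {l k l' k' : List ℕ} (h1 : l.length = k.length)
    (h2 : l'.length = k'.length) (hne : l' ≠ [])
    (h : toMod (zw hg l) * toMod (deep hg m) * (toMod (zw hg l'))⁻¹ =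
      toMod (zw hg k) * toMod (deep hg m) * (toMod (zw hg k'))⁻¹) : l = k ∧ l' = k' := by
  rw [← toMod_mul, ← toMod_inv, ← toMod_mul, ← toMod_mul, ← toMod_inv, ← toMod_mul] at h
  have h' : (QuotientGroup.mk (zw hg k * deep hg m * (zw hg k')⁻¹) :
      orientedAut g ⧸ innerAut g) =
      QuotientGroup.mk (zw hg l * deep hg m * (zw hg l')⁻¹) := h.symm
  rw [QuotientGroup.eq, innerAut, Subgroup.mem_subgroupOf] at h'
  obtain ⟨w, hw⟩ := h'
  have e : ((zw hg l * deep hg m * (zw hg l')⁻¹ : orientedAut g) :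
      MulAut (SurfaceGroup g)) =
      ((zw hg k * deep hg m * (zw hg k')⁻¹ : orientedAut g) :
      MulAut (SurfaceGroup g)) * MulAut.conj w := by
    rw [hw, ← Subgroup.coe_mul]
    congr 1
    group
  have i1 : Impl hg ((zw hg l * deep hg m * (zw hg l')⁻¹ : orientedAut g) :
      MulAut (SurfaceGroup g)) (zwm l * xm m * (zwm l')⁻¹) :=
    impl_mul hg (impl_mul hg (impl_zw hg l) (impl_xa hg m)) (impl_inv hg (impl_zw hg l'))
  have i2 : Impl hg ((zw hg k * deep hg m * (zw hg k')⁻¹ : orientedAut g) :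
      MulAut (SurfaceGroup g)) (zwm k * xm m * (zwm k')⁻¹) :=
    impl_mul hg (impl_mul hg (impl_zw hg k) (impl_xa hg m)) (impl_inv hg (impl_zw hg k'))
  have key := impl_unique hg i1 i2 w e
  rw [mul_assoc, mul_assoc] at key
  exact zx_inj m l k l' k' h1 h2 hne key

lemma toMod_zw (hg : 2 ≤ g) (l : List ℕ) :
    (l.map (fun i => toMod (zt hg i))).prod = toMod (zw hg l) := by
  unfold zw
  rw [toMod_list_prod, List.map_map]
  rfl

/-- If the two words agree modulo `γ_{m+1}`, the product lies in `T_g(m)`. -/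
lemma zw_mem (hg : 2 ≤ g) (m : ℕ) {l l' : List ℕ}
    (h : (QuotientGroup.mk (zw hg l : MulAut (SurfaceGroup g)) : _ ⧸ trivSub g m) =
      QuotientGroup.mk (zw hg l' : MulAut (SurfaceGroup g))) :
    toMod (zw hg l) * toMod (deep hg m) * (toMod (zw hg l'))⁻¹ ∈ johnson g m := by
  rw [← toMod_mul, ← toMod_inv, ← toMod_mul]
  apply johnson_of_triv
  rw [QuotientGroup.eq] at h
  have h1 : (zw hg l : MulAut (SurfaceGroup g)) * (zw hg l' : MulAut (SurfaceGroup g))⁻¹ ∈
      trivSub g m := by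
    have h2 := (inferInstance : (trivSub g m).Normal).conj_mem _ h
      (zw hg l : MulAut (SurfaceGroup g))
    have h3 := inv_mem h2
    have e : ((zw hg l : MulAut (SurfaceGroup g)) * ((zw hg l : MulAut (SurfaceGroup g))⁻¹ *
        (zw hg l' : MulAut (SurfaceGroup g))) * (zw hg l : MulAut (SurfaceGroup g))⁻¹)⁻¹ =
        (zw hg l : MulAut (SurfaceGroup g)) * (zw hg l' : MulAut (SurfaceGroup g))⁻¹ := by
      group
    rw [e] at h3
    exact h3
  have h2 : TrivMod (xa hg (m + 1)) m := triv_anti (by omega) (triv_xa hg (m + 1))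
  have h3 := triv_mul (triv_conj h2 (zw hg l : MulAut (SurfaceGroup g))) h1
  have e : (zw hg l : MulAut (SurfaceGroup g)) * xa hg (m + 1) *
      (zw hg l : MulAut (SurfaceGroup g))⁻¹ *
      ((zw hg l : MulAut (SurfaceGroup g)) * (zw hg l' : MulAut (SurfaceGroup g))⁻¹) =
      ((zw hg l * deep hg m * (zw hg l')⁻¹ : orientedAut g) : MulAut (SurfaceGroup g)) := by
    have e1 : ((zw hg l * deep hg m * (zw hg l')⁻¹ : orientedAut g) :
        MulAut (SurfaceGroup g)) = (zw hg l : MulAut (SurfaceGroup g)) * xa hg (m + 1) *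
        (zw hg l' : MulAut (SurfaceGroup g))⁻¹ := rfl
    rw [e1]
    group
  rw [← e]
  exact h3

/-- Counting. -/
lemma near_count (hg : 2 ≤ g) {S : Set (Mod g)} (hS : S.Finite) {k c m : ℕ}
    (hz : ∀ i < k, toMod (zt hg i) ∈ S) (hx : toMod (deep hg m) ∈ ball S c) :
    ∃ E P : ℕ, ∀ r, 1 ≤ r → (k ^ r) ^ 2 ≤ (E * (r + 1) ^ P) *
      (ball S (2 * r + c) ∩ johnson g m).ncard := by
  classical
  let Q := MulAut (SurfaceGroup g) ⧸ trivSub g m
  let Y : Set Q := (fun i : ℕ => (QuotientGroup.mk (zt hg i : MulAut (SurfaceGroup g)) : Q)) ''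
    Set.Iio k
  have hYfin : Y.Finite := (Set.finite_Iio k).image _
  obtain ⟨E, P, hEP⟩ := poly_triv_sub m Y hYfin (by
    rintro _ ⟨i, -, rfl⟩
    exact ⟨_, triv_zt hg i, rfl⟩)
  refine ⟨E, P, fun r hr => ?_⟩
  let f : (Fin r → Fin k) → Q := fun a =>
    QuotientGroup.mk (zw hg (List.ofFn (fun i => (a i : ℕ))) : MulAut (SurfaceGroup g))
  have hmk : ∀ l : List ℕ, (QuotientGroup.mk (zw hg l : MulAut (SurfaceGroup g)) : Q) =
      (l.map (fun i : ℕ =>
        (QuotientGroup.mk (zt hg i : MulAut (SurfaceGroup g)) : Q))).prod := by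
    intro l
    induction l with
    | nil => rfl
    | cons i l ih =>
      rw [zw_cons, List.map_cons, List.prod_cons, ← ih]
      rfl
  have hfY : ∀ a, f a ∈ wset Y r := by
    intro a
    refine ⟨(List.ofFn (fun i => (a i : ℕ))).map (fun i : ℕ =>
        (QuotientGroup.mk (zt hg i : MulAut (SurfaceGroup g)) : Q)), by simp, ?_,
        (hmk _).symm⟩
    intro y hy
    rw [List.mem_map] at hy
    obtain ⟨i, hi, rfl⟩ := hy
    rw [List.mem_ofFn] at hi
    obtain ⟨j, rfl⟩ := hi
    exact ⟨_, (a j).2, rfl⟩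
  have h1 := pairs_bound f
  rw [Fintype.card_fun, Fintype.card_fin, Fintype.card_fin] at h1
  have h2 : (Finset.univ.image f).card ≤ E * (r + 1) ^ P := by
    refine le_trans ?_ (hEP r)
    rw [← Set.ncard_coe_finset]
    refine Set.ncard_le_ncard ?_ (wset_finite hYfin r)
    intro y hy
    rw [Finset.mem_coe, Finset.mem_image] at hy
    obtain ⟨a, -, rfl⟩ := hy
    exact hfY a
  let F : (Fin r → Fin k) × (Fin r → Fin k) → Mod g := fun p =>
    toMod (zw hg (List.ofFn (fun i => (p.1 i : ℕ)))) * toMod (deep hg m) *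
      (toMod (zw hg (List.ofFn (fun i => (p.2 i : ℕ)))))⁻¹
  have hF : Function.Injective F := by
    rintro ⟨a, b⟩ ⟨a', b'⟩ h
    have h3 := zw_inj hg m (l := List.ofFn (fun i => (a i : ℕ)))
      (k := List.ofFn (fun i => (a' i : ℕ))) (l' := List.ofFn (fun i => (b i : ℕ)))
      (k' := List.ofFn (fun i => (b' i : ℕ))) (by simp) (by simp) (by
        intro h0
        have := congrArg List.length h0
        simp at this
        omega) h
    have h4 := List.ofFn_injective h3.1
    have h5 := List.ofFn_injective h3.2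
    refine Prod.ext ?_ ?_
    · funext i; exact Fin.ext (congrFun h4 i)
    · funext i; exact Fin.ext (congrFun h5 i)
  have hball : ∀ a : Fin r → Fin k, toMod (zw hg (List.ofFn (fun i => (a i : ℕ)))) ∈
      ball S r := by
    intro a
    have h6 := ball_prod (S := S) (t := fun i => toMod (zt hg i)) (n := k) (L := 1)
      (fun i hi => mem_ball_one (hz i hi)) (List.ofFn (fun i => (a i : ℕ))) (by
      intro i hi
      rw [List.mem_ofFn] at hi
      obtain ⟨j, rfl⟩ := hi
      exact (a j).2)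
    rw [toMod_zw, List.length_ofFn, one_mul] at h6
    exact h6
  have h3 : (Finset.univ.filter (fun p : (Fin r → Fin k) × (Fin r → Fin k) =>
      f p.1 = f p.2)).card ≤ (ball S (2 * r + c) ∩ johnson g m).ncard := by
    rw [← Finset.card_image_of_injective _ hF, ← Set.ncard_coe_finset]
    refine Set.ncard_le_ncard ?_ ((ball_finite hS _).inter_of_left _)
    intro y hy
    rw [Finset.mem_coe, Finset.mem_image] at hy
    obtain ⟨⟨a, b⟩, hab, rfl⟩ := hy
    rw [Finset.mem_filter] at hab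
    refine ⟨?_, zw_mem hg m hab.2⟩
    have h7 := ball_mul (ball_mul (hball a) hx) (ball_inv (hball b))
    have e : r + c + r = 2 * r + c := by ring
    rw [e] at h7
    exact h7
  exact h1.trans (Nat.mul_le_mul h2 h3)

end Pool.Agent.Helper119.MG
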