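import Mathlib

/-! Polynomial growth of finitely generated nilpotent groups, in the form of a statement on
positive words in finite sets and a filtration. -/

namespace Pool.Agent.Helper119.MG

variable {Q : Type*} [Group Q]

/-- products of at most `r` elements of `Y` -/
def wset (Y : Set Q) (r : ℕ) : Set Q :=
  {x | ∃ l : List Q, l.length ≤ r ∧ (∀ y ∈ l, y ∈ Y) ∧ l.prod = x}

lemma wset_mono {Y : Set Q} {a b : ℕ} (h : a ≤ b) : wset Y a ⊆ wset Y b := by
  rintro x ⟨l, hl, hY, rfl⟩
  exact ⟨l, hl.trans h, hY, rfl⟩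

lemma wset_mul {Y : Set Q} {a b : ℕ} {x y : Q} (hx : x ∈ wset Y a) (hy : y ∈ wset Y b) :
    x * y ∈ wset Y (a + b) := by
  obtain ⟨l, hl, hY, rfl⟩ := hx
  obtain ⟨l', hl', hY', rfl⟩ := hy
  refine ⟨l ++ l', ?_, ?_, by rw [List.prod_append]⟩
  · rw [List.length_append]; omega
  · intro y hy
    rcases List.mem_append.1 hy with h | h
    · exact hY y h
    · exact hY' y h

lemma wset_one (Y : Set Q) (a : ℕ) : (1 : Q) ∈ wset Y a := ⟨[], by simp, by simp, rfl⟩

lemma wset_single {Y : Set Q} {y : Q} (hy : y ∈ Y) : y ∈ wset Y 1 :=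
  ⟨[y], by simp, by simpa using hy, by simp⟩

lemma wset_zero (Y : Set Q) : wset Y 0 = {1} := by
  ext x
  constructor
  · rintro ⟨l, hl, -, rfl⟩
    have : l = [] := List.length_eq_zero_iff.1 (Nat.le_zero.1 hl)
    rw [this]; rfl
  · rintro rfl
    exact wset_one Y 0

lemma wset_succ (Y : Set Q) (r : ℕ) :
    wset Y (r + 1) ⊆ wset Y r ∪ Set.image2 (· * ·) Y (wset Y r) := by
  rintro x ⟨l, hl, hY, rfl⟩
  rcases l with _ | ⟨y, l⟩
  · exact Or.inl (wset_one Y r)
  · refine Or.inr ⟨y, hY y (by simp), l.prod, ⟨l, ?_, fun z hz => hY z (by simp [hz]), rfl⟩, ?_⟩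
    · simpa using hl
    · simp

lemma wset_finite {Y : Set Q} (hY : Y.Finite) : ∀ r, (wset Y r).Finite
  | 0 => by rw [wset_zero]; exact Set.finite_singleton _
  | (r + 1) => ((wset_finite hY r).union (hY.image2 _ (wset_finite hY r))).subset (wset_succ Y r)

/-- polynomial growth of the set of positive words in `Y` -/
def PolyGr (Y : Set Q) : Prop := ∃ C D : ℕ, ∀ r, (wset Y r).ncard ≤ C * (r + 1) ^ D

/-- iterated commutators -/
def itc (t : Q) (y : Q) : ℕ → Q
  | 0 => y
  | (j + 1) => (itc t y j)⁻¹ * t⁻¹ * itc t y j * t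

lemma pow_ineq (e a : ℕ) : (e + 1) ^ (a + 1) + (e + 1) ^ a ≤ (e + 1 + 1) ^ (a + 1) := by
  have h : (e + 1) ^ a ≤ (e + 1 + 1) ^ a := Nat.pow_le_pow_left (by omega) a
  calc (e + 1) ^ (a + 1) + (e + 1) ^ a = (e + 1) ^ a * (e + 1 + 1) := by ring
    _ ≤ (e + 1 + 1) ^ a * (e + 1 + 1) := Nat.mul_le_mul_right _ h
    _ = _ := by ring

lemma conj_itc {t y : Q} {Y' : Set Q} {M : ℕ} (hY : ∀ j, itc t y j ∈ Y')
    (hM : itc t y M = 1) : ∀ (e a j : ℕ), j + a = M →
    (t ^ e)⁻¹ * itc t y j * t ^ e ∈ wset Y' ((e + 1) ^ a)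
  | e, 0, j, h => by
    have hj : j = M := by omega
    subst hj
    rw [hM]
    have : (t ^ e)⁻¹ * 1 * t ^ e = 1 := by group
    rw [this]
    exact wset_one _ _
  | 0, (a + 1), j, h => by
    have : (t ^ 0)⁻¹ * itc t y j * t ^ 0 = itc t y j := by simp
    rw [this]
    have h1 : (0 + 1) ^ (a + 1) = 1 := by simp
    rw [h1]
    exact wset_single (hY j)
  | (e + 1), (a + 1), j, h => by
    have h1 := conj_itc hY hM e (a + 1) j h
    have h2 := conj_itc hY hM e a (j + 1) (by omega)
    have h3 := wset_mul h1 h2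
    have e1 : (t ^ e)⁻¹ * itc t y j * t ^ e * ((t ^ e)⁻¹ * itc t y (j + 1) * t ^ e) =
        (t ^ (e + 1))⁻¹ * itc t y j * t ^ (e + 1) := by
      rw [itc, pow_succ']
      group
    rw [e1] at h3
    exact wset_mono (pow_ineq e a) h3

lemma collect {t : Q} {Y0 Y' : Set Q} {M : ℕ} (hY : ∀ y ∈ Y0, ∀ j, itc t y j ∈ Y')
    (hM : ∀ y ∈ Y0, itc t y M = 1) : ∀ l : List Q, (∀ y ∈ l, y = t ∨ y ∈ Y0) →
    ∃ e ≤ l.length, ∃ w ∈ wset Y' (l.length * (l.length + 1) ^ M), l.prod = t ^ e * w
  | [], _ => ⟨0, by simp, 1, wset_one _ _, by simp⟩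
  | (y :: l), h => by
    obtain ⟨e, he, w, hw, heq⟩ := collect hY hM l (fun z hz => h z (by simp [hz]))
    have hlen : l.length * (l.length + 1) ^ M ≤
        (y :: l).length * ((y :: l).length + 1) ^ M := by
      rw [List.length_cons]
      exact Nat.mul_le_mul (by omega) (Nat.pow_le_pow_left (by omega) M)
    rcases h y (by simp) with rfl | hy
    · refine ⟨e + 1, by simpa using he, w, wset_mono hlen hw, ?_⟩
      rw [List.prod_cons, heq, pow_succ']
      group
    · refine ⟨e, by simp; omega, (t ^ e)⁻¹ * y * t ^ e * w, ?_, ?_⟩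
      · have h1 := conj_itc (hY y hy) (hM y hy) e M 0 (by omega)
        have h2 := wset_mul h1 hw
        refine wset_mono ?_ h2
        have h3 : (e + 1) ^ M ≤ (l.length + 1) ^ M := Nat.pow_le_pow_left (by omega) M
        have h4 : (l.length + 1) ^ M ≤ (l.length + 1 + 1) ^ M :=
          Nat.pow_le_pow_left (by omega) M
        have h5 : l.length * (l.length + 1) ^ M ≤ l.length * (l.length + 1 + 1) ^ M :=
          Nat.mul_le_mul_left _ h4
        rw [List.length_cons]
        calc (e + 1) ^ M + l.length * (l.length + 1) ^ M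
            ≤ (l.length + 1 + 1) ^ M + l.length * (l.length + 1 + 1) ^ M := by omega
          _ = (l.length + 1) * (l.length + 1 + 1) ^ M := by ring
      · rw [List.prod_cons, heq]
        group

lemma poly_step {t : Q} {Y0 Y' : Set Q} {M : ℕ} (hfin : Y'.Finite)
    (hY : ∀ y ∈ Y0, ∀ j, itc t y j ∈ Y')
    (hM : ∀ y ∈ Y0, itc t y M = 1) (hP : PolyGr Y') : PolyGr (insert t Y0) := by
  obtain ⟨C, D, h⟩ := hP
  refine ⟨C, 1 + (M + 1) * D, fun r => ?_⟩
  have hsub : wset (insert t Y0) r ⊆ ⋃ e ∈ Finset.range (r + 1),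
      (fun w => t ^ e * w) '' wset Y' (r * (r + 1) ^ M) := by
    rintro x ⟨l, hl, hY2, rfl⟩
    obtain ⟨e, he, w, hw, heq⟩ := collect hY hM l (fun y hy => hY2 y hy)
    rw [Set.mem_iUnion₂]
    refine ⟨e, Finset.mem_range.2 (by omega), w, wset_mono ?_ hw, heq.symm⟩
    exact Nat.mul_le_mul hl (Nat.pow_le_pow_left (by omega) M)
  have hfin2 : ∀ e, ((fun w => t ^ e * w) '' wset Y' (r * (r + 1) ^ M)).Finite := fun e =>
    (wset_finite hfin _).image _
  have h1 : (wset (insert t Y0) r).ncard ≤ (⋃ e ∈ Finset.range (r + 1),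
      (fun w => t ^ e * w) '' wset Y' (r * (r + 1) ^ M)).ncard :=
    Set.ncard_le_ncard hsub (Set.Finite.biUnion (Finset.finite_toSet _) (fun e _ => hfin2 e))
  have h2 : (⋃ e ∈ Finset.range (r + 1),
      (fun w => t ^ e * w) '' wset Y' (r * (r + 1) ^ M)).ncard ≤
      ∑ e ∈ Finset.range (r + 1), (wset Y' (r * (r + 1) ^ M)).ncard := by
    refine (Finset.set_ncard_biUnion_le _ _).trans ?_
    exact Finset.sum_le_sum (fun e _ => Set.ncard_image_le (wset_finite hfin _))
  rw [Finset.sum_const, Finset.card_range, smul_eq_mul] at h2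
  have h3 : r * (r + 1) ^ M + 1 ≤ (r + 1) ^ (M + 1) := by
    have : 1 ≤ (r + 1) ^ M := Nat.one_le_pow _ _ (by omega)
    calc r * (r + 1) ^ M + 1 ≤ r * (r + 1) ^ M + (r + 1) ^ M := by omega
      _ = (r + 1) ^ (M + 1) := by ring
  calc (wset (insert t Y0) r).ncard ≤ (r + 1) * (wset Y' (r * (r + 1) ^ M)).ncard := h1.trans h2
    _ ≤ (r + 1) * (C * (r * (r + 1) ^ M + 1) ^ D) := Nat.mul_le_mul_left _ (h _)
    _ ≤ (r + 1) * (C * ((r + 1) ^ (M + 1)) ^ D) :=
        Nat.mul_le_mul_left _ (Nat.mul_le_mul_left _ (Nat.pow_le_pow_left h3 D))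
    _ = C * (r + 1) ^ (1 + (M + 1) * D) := by
        rw [← pow_mul, pow_add, pow_one]; ring

lemma poly_triv {Y : Set Q} (h : ∀ y ∈ Y, y = 1) : PolyGr Y := by
  refine ⟨1, 0, fun r => ?_⟩
  have : wset Y r ⊆ {1} := by
    rintro x ⟨l, -, hY, rfl⟩
    exact List.prod_eq_one (fun y hy => h y (hY y hy))
  have h2 := Set.ncard_le_ncard this (Set.finite_singleton _)
  simpa using h2

/-- Polynomial growth for finite subsets of a group with a finite central filtration. -/
theorem poly_main {P : ℕ → Set Q} {M : ℕ} (hanti : ∀ k, P (k + 1) ⊆ P k)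
    (hcomm : ∀ k, ∀ y ∈ P k, ∀ t ∈ P 1, y⁻¹ * t⁻¹ * y * t ∈ P (k + 1))
    (hM : ∀ k, M ≤ k → ∀ y ∈ P k, y = 1) :
    ∀ (d k : ℕ), 1 ≤ k → M ≤ k + d → ∀ Y : Set Q, Y.Finite → Y ⊆ P k → PolyGr Y := by
  classical
  have hP1 : ∀ k, 1 ≤ k → P k ⊆ P 1 := by
    intro k hk
    induction k, hk using Nat.le_induction with
    | base => exact subset_rfl
    | succ k _ ih => exact (hanti k).trans ih
  intro d
  induction d with
  | zero =>
    intro k hk hMk Y _ hY
    exact poly_triv (fun y hy => hM k (by omega) y (hY hy))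
  | succ d ih =>
    intro k hk hMk
    -- induction on the number of elements outside `P (k+1)`
    have key : ∀ (n : ℕ) (Y : Set Q), Y.Finite → Y ⊆ P k → (Y \ P (k + 1)).ncard ≤ n →
        PolyGr Y := by
      intro n
      induction n with
      | zero =>
        intro Y hfin hY hn
        have h0 : Y \ P (k + 1) = ∅ := by
          rw [← Set.ncard_eq_zero (hfin.sdiff), ← Nat.le_zero]
          exact hn
        exact ih (k + 1) (by omega) (by omega) Y hfin (Set.sdiff_eq_empty.1 h0)
      | succ n ihn =>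
        intro Y hfin hY hn
        by_cases hne : (Y \ P (k + 1)).Nonempty
        · obtain ⟨t, ht, htP⟩ := hne
          set Y0 : Set Q := Y \ {t} with hY0
          have hYt : insert t Y0 = Y := by
            rw [hY0, Set.insert_sdiff_singleton, Set.insert_eq_of_mem ht]
          have hit : ∀ y ∈ Y0, ∀ j, itc t y j ∈ P (k + j) := by
            intro y hy j
            induction j with
            | zero => exact hY hy.1
            | succ j ihj =>
              exact hcomm _ _ ihj t (hP1 k hk (hY ht))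
          have hitM : ∀ y ∈ Y0, ∀ j, M ≤ j → itc t y j = 1 := by
            intro y hy j hj
            exact hM (k + j) (by omega) _ (hit y hy j)
          set Y' : Set Q := insert 1 (Set.image2 (fun y j => itc t y j) Y0 (Set.Iio (M + 1)))
            with hY'
          have hfin0 : Y0.Finite := hfin.sdiff
          have hfin' : Y'.Finite := (hfin0.image2 _ (Set.finite_Iio _)).insert 1
          have hmem : ∀ y ∈ Y0, ∀ j, itc t y j ∈ Y' := by
            intro y hy j
            by_cases hj : j < M + 1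
            · exact Or.inr ⟨y, hy, j, hj, rfl⟩
            · rw [hitM y hy j (by omega)]
              exact Or.inl rfl
          rw [← hYt]
          by_cases h1 : (1 : Q) ∈ P (k + 1)
          · refine poly_step hfin' hmem (fun y hy => hitM y hy M le_rfl) (ihn Y' hfin' ?_ ?_)
            · intro x hx
              rcases hx with rfl | ⟨y, hy, j, -, rfl⟩
              · exact hanti k h1
              · have h2 := hit y hy j
                have h3 : ∀ j, P (k + j) ⊆ P k := by
                  intro j
                  induction j with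
                  | zero => exact subset_rfl
                  | succ j ihj => exact (hanti (k + j)).trans ihj
                exact h3 j h2
            · have hsub : Y' \ P (k + 1) ⊆ (Y \ P (k + 1)) \ {t} := by
                rintro x ⟨hx, hxP⟩
                rcases hx with rfl | ⟨y, hy, j, -, rfl⟩
                · exact absurd h1 hxP
                · rcases j with _ | j
                  · exact ⟨⟨hy.1, hxP⟩, hy.2⟩
                  · exfalso
                    apply hxP
                    have h3 : ∀ j, P (k + (j + 1)) ⊆ P (k + 1) := by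
                      intro j
                      induction j with
                      | zero => exact subset_rfl
                      | succ j ihj => exact (hanti (k + (j + 1))).trans ihj
                    exact h3 j (hit y hy (j + 1))
              have h4 := Set.ncard_le_ncard hsub (hfin.sdiff.sdiff)
              have h5 := Set.ncard_sdiff_singleton_add_one (a := t) (s := Y \ P (k + 1))
                ⟨ht, htP⟩ (hfin.sdiff)
              omega
          · -- then `P (k+1)` does not contain `1`; impossible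
            exfalso
            have h2 := hcomm k t (hY ht) t (hP1 k hk (hY ht))
            have e : t⁻¹ * t⁻¹ * t * t = 1 := by group
            rw [e] at h2
            exact h1 h2
        · rw [Set.not_nonempty_iff_eq_empty] at hne
          exact ih (k + 1) (by omega) (by omega) Y hfin (Set.sdiff_eq_empty.1 hne)
    intro Y hfin hY
    exact key _ Y hfin hY le_rfl

end Pool.Agent.Helper119.MG
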