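import Pool.Agent.Helper119.MG.Tw

/-! A homomorphism from the surface group to the affine maps of `ℤ × ℤ` with linear part `± 1`,
and the action of some mapping classes on it. -/

namespace Pool.Agent.Helper119.MG

variable {g : ℕ}

lemma papi {α : Type*} (f : Equiv.Perm α) (x : α) : f (f⁻¹ x) = x := f.apply_symm_apply x
lemma pipa {α : Type*} (f : Equiv.Perm α) (x : α) : f⁻¹ (f x) = x := f.symm_apply_apply x

/-- translation -/
def tr (v : ℤ × ℤ) : Equiv.Perm (ℤ × ℤ) := Equiv.addRight v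

/-- negation -/
def ng : Equiv.Perm (ℤ × ℤ) := Equiv.neg (ℤ × ℤ)

@[simp] lemma tr_apply (v p : ℤ × ℤ) : tr v p = p + v := rfl
@[simp] lemma tr_inv_apply (v p : ℤ × ℤ) : (tr v)⁻¹ p = p - v := by
  change (Equiv.addRight v).symm p = _
  simp [sub_eq_add_neg]
@[simp] lemma ng_apply (p : ℤ × ℤ) : ng p = -p := rfl
@[simp] lemma ng_inv_apply (p : ℤ × ℤ) : ng⁻¹ p = -p := rfl

/-- the images of the generators -/
def thFun (hg : 2 ≤ g) (j : Fin g ⊕ Fin g) : Equiv.Perm (ℤ × ℤ) :=
  if j = Sum.inl ⟨0, by omega⟩ then tr (1, 0)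
  else if j = Sum.inr ⟨0, by omega⟩ then tr (0, 1)
  else if j = Sum.inl ⟨0 + 1, by omega⟩ then ng
  else 1

/-- the homomorphism -/
def th (hg : 2 ≤ g) : SurfaceGroup g →* Equiv.Perm (ℤ × ℤ) :=
  outHom (thFun hg) (by
    rw [lift_relator]
    refine List.prod_eq_one ?_
    intro x hx
    rw [List.mem_ofFn] at hx
    obtain ⟨i, rfl⟩ := hx
    by_cases h0 : i = ⟨0, by omega⟩
    · subst h0
      refine Equiv.ext ?_
      intro p
      simp [thFun, Equiv.Perm.mul_apply]
      abel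
    · have h1 : thFun hg (Sum.inr i) = 1 := by
        simp [thFun, h0]
      rw [h1]
      group)

lemma th_gen (hg : 2 ≤ g) (j : Fin g ⊕ Fin g) : th hg (gen j) = thFun hg j := outHom_gen _ _ _

lemma th_a (hg : 2 ≤ g) : th hg (gen (Sum.inl ⟨0, by omega⟩)) = tr (1, 0) := by
  rw [th_gen]; simp [thFun]

lemma th_b (hg : 2 ≤ g) : th hg (gen (Sum.inr ⟨0, by omega⟩)) = tr (0, 1) := by
  rw [th_gen]; simp [thFun]

lemma th_c (hg : 2 ≤ g) : th hg (gen (Sum.inl ⟨0 + 1, by omega⟩)) = ng := by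
  rw [th_gen]; simp [thFun]

lemma th_d (hg : 2 ≤ g) : th hg (gen (Sum.inr ⟨0 + 1, by omega⟩)) = 1 := by
  rw [th_gen]; simp [thFun]

lemma th_other (hg : 2 ≤ g) (j : Fin g ⊕ Fin g) (h1 : j ≠ Sum.inl ⟨0, by omega⟩)
    (h2 : j ≠ Sum.inr ⟨0, by omega⟩) (h3 : j ≠ Sum.inl ⟨0 + 1, by omega⟩) :
    th hg (gen j) = 1 := by
  rw [th_gen]; simp only [thFun, if_neg h1, if_neg h2, if_neg h3]

/-- `φ` acts on the representation by an affine map with linear part `M`. -/
def Impl (hg : 2 ≤ g) (φ : MulAut (SurfaceGroup g)) (M : Equiv.Perm (ℤ × ℤ)) : Prop :=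
  ∃ P : Equiv.Perm (ℤ × ℤ), (∀ p q, P (p + q) = M p + P q) ∧
    ∀ x, th hg (φ x) = P * th hg x * P⁻¹

lemma impl_add (hg : 2 ≤ g) {φ : MulAut (SurfaceGroup g)} {M : Equiv.Perm (ℤ × ℤ)}
    (h : Impl hg φ M) (p q : ℤ × ℤ) : M (p + q) = M p + M q := by
  obtain ⟨P, hP, h1⟩ := h
  have h2 := hP (p + q) 0
  rw [add_assoc, hP, hP, ← add_assoc] at h2
  exact (add_right_cancel h2).symm

lemma impl_mul (hg : 2 ≤ g) {φ ψ : MulAut (SurfaceGroup g)} {M N : Equiv.Perm (ℤ × ℤ)}
    (h : Impl hg φ M) (h' : Impl hg ψ N) : Impl hg (φ * ψ) (M * N) := by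
  obtain ⟨P, hP, h1⟩ := h
  obtain ⟨Q, hQ, h2⟩ := h'
  refine ⟨P * Q, ?_, ?_⟩
  · intro p q
    rw [Equiv.Perm.mul_apply, hQ, hP]
    rfl
  · intro x
    rw [MulAut.mul_apply, h1, h2]
    group

lemma impl_inv (hg : 2 ≤ g) {φ : MulAut (SurfaceGroup g)} {M : Equiv.Perm (ℤ × ℤ)}
    (h : Impl hg φ M) : Impl hg φ⁻¹ M⁻¹ := by
  obtain ⟨P, hP, h1⟩ := h
  refine ⟨P⁻¹, ?_, ?_⟩
  · intro p q
    apply P.injective
    rw [papi, hP, papi, papi]
  · intro x
    have h := h1 (φ⁻¹ x)
    rw [MulAut.apply_inv_self] at h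
    rw [h]
    group

lemma impl_one (hg : 2 ≤ g) : Impl hg (1 : MulAut (SurfaceGroup g)) 1 :=
  ⟨1, fun _ _ => rfl, fun x => by simp⟩

lemma th_affine (hg : 2 ≤ g) (x : SurfaceGroup g) :
    (∀ p q, th hg x (p + q) = p + th hg x q) ∨ (∀ p q, th hg x (p + q) = -p + th hg x q) := by
  have hx : x ∈ Subgroup.closure (Set.range (gen (g := g))) := by
    have : Subgroup.closure (Set.range (gen (g := g))) = ⊤ :=
      PresentedGroup.closure_range_of ({surfaceRelator g} : Set (FreeGroup (Fin g ⊕ Fin g)))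
    rw [this]
    trivial
  induction hx using Subgroup.closure_induction with
  | mem x hx =>
    obtain ⟨j, rfl⟩ := hx
    rw [th_gen]
    unfold thFun
    split_ifs
    · left; intro p q; simp only [tr_apply]; abel
    · left; intro p q; simp only [tr_apply]; abel
    · right; intro p q; simp only [ng_apply]; abel
    · left; intro p q; rfl
  | one => left; intro p q; rw [map_one]; rfl
  | mul x y _ _ hx hy =>
    rw [map_mul]
    rcases hx with hx | hx <;> rcases hy with hy | hy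
    · left; intro p q; rw [Equiv.Perm.mul_apply, hy, hx]; rfl
    · right; intro p q; rw [Equiv.Perm.mul_apply, hy, hx]; rfl
    · right; intro p q; rw [Equiv.Perm.mul_apply, hy, hx]; rfl
    · left; intro p q; rw [Equiv.Perm.mul_apply, hy, hx, neg_neg]; rfl
  | inv x _ hx =>
    rw [map_inv]
    rcases hx with hx | hx
    · left
      intro p q
      apply (th hg x).injective
      rw [papi, hx, papi]
    · right
      intro p q
      apply (th hg x).injective
      rw [papi, hx, papi, neg_neg]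

lemma conj_tr (P : Equiv.Perm (ℤ × ℤ)) (L : ℤ × ℤ → ℤ × ℤ) (hP : ∀ p q, P (p + q) = L p + P q)
    (v : ℤ × ℤ) : P * tr v * P⁻¹ = tr (L v) := by
  refine Equiv.ext ?_
  intro p
  simp only [Equiv.Perm.mul_apply, tr_apply]
  rw [add_comm (P⁻¹ p) v, hP, papi, add_comm]

lemma tr_inj {v w : ℤ × ℤ} (h : tr v = tr w) : v = w := by
  have := Equiv.congr_fun h 0
  simpa using this

lemma add_decomp (M : ℤ × ℤ → ℤ × ℤ) (hM : ∀ p q, M (p + q) = M p + M q) (v : ℤ × ℤ) :
    M v = v.1 • M (1, 0) + v.2 • M (0, 1) := by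
  have : v = v.1 • ((1, 0) : ℤ × ℤ) + v.2 • ((0, 1) : ℤ × ℤ) := by
    ext <;> simp
  let F : (ℤ × ℤ) →+ (ℤ × ℤ) := AddMonoidHom.mk' M hM
  have h1 : F v = v.1 • F (1, 0) + v.2 • F (0, 1) := by
    conv_lhs => rw [this]
    rw [map_add, map_zsmul, map_zsmul]
  exact h1

/-- the linear part is determined by the outer class up to sign -/
lemma impl_unique (hg : 2 ≤ g) {φ φ' : MulAut (SurfaceGroup g)} {M M' : Equiv.Perm (ℤ × ℤ)}
    (h : Impl hg φ M) (h' : Impl hg φ' M') (w : SurfaceGroup g)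
    (e : φ = φ' * MulAut.conj w) : (∀ v, M v = M' v) ∨ (∀ v, M v = -M' v) := by
  have hM := impl_add hg h
  have hM' := impl_add hg h'
  obtain ⟨P, hP, h1⟩ := h
  obtain ⟨Q, hQ, h2⟩ := h'
  have key : ∀ x, P * th hg x * P⁻¹ = (Q * th hg w) * th hg x * (Q * th hg w)⁻¹ := by
    intro x
    rw [← h1, e, MulAut.mul_apply, h2, MulAut.conj_apply, map_mul, map_mul, map_inv]
    group
  rcases th_affine hg w with hw | hw
  · left
    have hQw : ∀ p q, (Q * th hg w) (p + q) = M' p + (Q * th hg w) q := by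
      intro p q
      rw [Equiv.Perm.mul_apply, hw, hQ]; rfl
    have ha := key (gen (Sum.inl ⟨0, by omega⟩))
    have hb := key (gen (Sum.inr ⟨0, by omega⟩))
    rw [th_a, conj_tr P M hP, conj_tr _ M' hQw] at ha
    rw [th_b, conj_tr P M hP, conj_tr _ M' hQw] at hb
    intro v
    rw [add_decomp M hM, add_decomp M' hM', tr_inj ha, tr_inj hb]
  · right
    have hneg : ∀ p, M' (-p) = -M' p := by
      intro p
      have h0 : M' 0 = 0 := by
        have := hM' 0 0
        rw [add_zero] at this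
        exact left_eq_add.1 this
      have := hM' (-p) p
      rw [neg_add_cancel, h0] at this
      exact eq_neg_of_add_eq_zero_left this.symm
    have hQw : ∀ p q, (Q * th hg w) (p + q) = (fun p => -M' p) p + (Q * th hg w) q := by
      intro p q
      rw [Equiv.Perm.mul_apply, hw, hQ, hneg]; rfl
    have ha := key (gen (Sum.inl ⟨0, by omega⟩))
    have hb := key (gen (Sum.inr ⟨0, by omega⟩))
    rw [th_a, conj_tr P M hP, conj_tr _ (fun p => -M' p) hQw] at ha
    rw [th_b, conj_tr P M hP, conj_tr _ (fun p => -M' p) hQw] at hb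
    intro v
    rw [add_decomp M hM, add_decomp M' hM', tr_inj ha, tr_inj hb]
    simp only [smul_neg, neg_add]

/-- the determinant form -/
def om (v w : ℤ × ℤ) : ℤ := v.1 * w.2 - v.2 * w.1

/-- the transvection `v ↦ v - k ω(f, v) f` -/
def tv (k : ℤ) (f : ℤ × ℤ) : Equiv.Perm (ℤ × ℤ) where
  toFun v := v - (k * om f v) • f
  invFun v := v + (k * om f v) • f
  left_inv := by
    intro v
    ext <;> simp [om] <;> ring
  right_inv := by
    intro v
    ext <;> simp [om] <;> ring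

lemma tv_apply (k : ℤ) (f v : ℤ × ℤ) : tv k f v = v - (k * om f v) • f := rfl

lemma tv_inv_apply (k : ℤ) (f v : ℤ × ℤ) : (tv k f)⁻¹ v = v + (k * om f v) • f := rfl

lemma tv_add (k : ℤ) (f v w : ℤ × ℤ) : tv k f (v + w) = tv k f v + tv k f w := by
  rw [tv_apply, tv_apply, tv_apply]
  ext <;> simp [om] <;> ring

lemma impl_of_gen (hg : 2 ≤ g) {φ : MulAut (SurfaceGroup g)} {M : Equiv.Perm (ℤ × ℤ)}
    (hM : ∀ p q, M (p + q) = M p + M q)
    (ψ : SurfaceGroup g ≃* SurfaceGroup g)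
    (h : ∀ j, th hg (φ (ψ (gen j))) = M * th hg (ψ (gen j)) * M⁻¹) :
    Impl hg φ M := by
  refine ⟨M, hM, ?_⟩
  intro x
  have e : ((th hg).comp (φ.toMonoidHom)).comp ψ.toMonoidHom =
      ((MulAut.conj M).toMonoidHom.comp (th hg)).comp ψ.toMonoidHom := by
    refine surface_ext ?_
    intro j
    exact h j
  have := DFunLike.congr_fun e (ψ.symm x)
  simpa using this

lemma tr_zpow (v : ℤ × ℤ) (k : ℤ) : (tr v) ^ k = tr (k • v) := by
  let F : Multiplicative (ℤ × ℤ) →* Equiv.Perm (ℤ × ℤ) :=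
    MonoidHom.mk' (fun v => tr v.toAdd) (by
      intro a b
      refine Equiv.ext ?_
      intro p
      simp only [Equiv.Perm.mul_apply, tr_apply, toAdd_mul]
      abel)
  have h := map_zpow F (Multiplicative.ofAdd v) k
  exact h.symm

lemma conj_ng (M : Equiv.Perm (ℤ × ℤ)) (hM : ∀ p q, M (p + q) = M p + M q) :
    M * ng * M⁻¹ = ng := by
  refine Equiv.ext ?_
  intro p
  simp only [Equiv.Perm.mul_apply, ng_apply]
  have h0 : M 0 = 0 := by
    have := hM 0 0
    rw [add_zero] at this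
    exact left_eq_add.1 this
  have := hM (-(M⁻¹ p)) (M⁻¹ p)
  rw [neg_add_cancel, h0, papi] at this
  exact eq_neg_of_add_eq_zero_left this.symm

lemma impl_autA (hg : 2 ≤ g) (k : ℤ) :
    Impl hg (autA ⟨0, by omega⟩ k) (tv (-k) (1, 0)) := by
  refine impl_of_gen hg (tv_add _ _) (MulEquiv.refl _) ?_
  intro j
  change th hg (twA _ k (gen j)) = _ * th hg (gen j) * _
  rw [twA_of]
  by_cases h : j = Sum.inr ⟨0, by omega⟩
  · subst h
    rw [if_pos rfl, map_mul, map_zpow, th_a, th_b, tr_zpow, conj_tr _ _ (tv_add _ _)]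
    refine Equiv.ext ?_
    intro p
    simp only [Equiv.Perm.mul_apply, tr_apply, tv_apply]
    ext <;> simp [om]
  · rw [if_neg h]
    by_cases h1 : j = Sum.inl ⟨0, by omega⟩
    · subst h1
      rw [th_a, conj_tr _ _ (tv_add _ _)]
      congr 1
      rw [tv_apply]; simp [om]
    · by_cases h2 : j = Sum.inl ⟨0 + 1, by omega⟩
      · subst h2
        rw [th_c, conj_ng _ (tv_add _ _)]
      · rw [th_other hg j h1 h h2]
        group

lemma impl_autB (hg : 2 ≤ g) (k : ℤ) :
    Impl hg (autB ⟨0, by omega⟩ k) (tv k (0, 1)) := by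
  refine impl_of_gen hg (tv_add _ _) (MulEquiv.refl _) ?_
  intro j
  change th hg (twB _ k (gen j)) = _ * th hg (gen j) * _
  rw [twB_of]
  by_cases h : j = Sum.inl ⟨0, by omega⟩
  · subst h
    rw [if_pos rfl, map_mul, map_zpow, th_a, th_b, tr_zpow, conj_tr _ _ (tv_add _ _)]
    refine Equiv.ext ?_
    intro p
    simp only [Equiv.Perm.mul_apply, tr_apply, tv_apply]
    ext <;> simp [om]
  · rw [if_neg h]
    by_cases h1 : j = Sum.inr ⟨0, by omega⟩
    · subst h1
      rw [th_b, conj_tr _ _ (tv_add _ _)]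
      congr 1
      rw [tv_apply]; simp [om]
    · by_cases h2 : j = Sum.inl ⟨0 + 1, by omega⟩
      · subst h2
        rw [th_c, conj_ng _ (tv_add _ _)]
      · rw [th_other hg j h h1 h2]
        group

/-- a Torelli element: the twist about the image of the boundary curve of the handle `0` under
the linking twist -/
def uAut (hg : 2 ≤ g) : MulAut (SurfaceGroup g) :=
  autL 0 (by omega) 1 * autS ⟨0, by omega⟩ 1 * (autL 0 (by omega) 1)⁻¹

/-- the affine map `p ↦ - p - (1,1)` -/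
def sg : Equiv.Perm (ℤ × ℤ) := ng * tr (1, 1)

lemma th_curve (hg : 2 ≤ g) : th hg (linkCurve 0 (by omega)) = ng * tr (1, 0) := by
  unfold linkCurve
  rw [map_mul, map_mul, map_mul, map_inv, map_inv, th_a, th_b, th_c]
  refine Equiv.ext ?_
  intro p
  simp only [Equiv.Perm.mul_apply, tr_apply, ng_apply, ng_inv_apply, tr_inv_apply]
  abel

lemma ngtr_inv (v : ℤ × ℤ) : (ng * tr v)⁻¹ = ng * tr v := by
  rw [inv_eq_iff_mul_eq_one]
  refine Equiv.ext ?_
  intro p
  simp only [Equiv.Perm.mul_apply, tr_apply, ng_apply, Equiv.Perm.one_apply]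
  abel

lemma impl_u (hg : 2 ≤ g) : Impl hg (uAut hg) (tv 4 (1, 0)) := by
  have hL : (1 : ℕ) < g := by omega
  refine impl_of_gen hg (tv_add _ _) (autL 0 (by omega) 1) ?_
  intro j
  have e0 : uAut hg ((autL 0 (by omega) 1) (gen j)) =
      twL 0 (by omega) 1 (twS ⟨0, by omega⟩ 1 (gen j)) := by
    unfold uAut
    rw [MulAut.mul_apply, MulAut.mul_apply, MulAut.inv_apply_self]
    rfl
  have e1 : (autL 0 (by omega) 1) (gen j) = twL 0 (by omega : 0 + 1 < g) 1 (gen j) := rfl
  rw [e0, e1]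
  -- images of the generators under the linking twist
  have ta : th hg (twL 0 (by omega) 1 (gen (Sum.inl ⟨0, by omega⟩))) = tr (1, 0) := by
    rw [twL_a, th_a]
  have tb : th hg (twL 0 (by omega) 1 (gen (Sum.inr ⟨0, by omega⟩))) = ng * tr (1, 1) := by
    rw [twL_b, map_mul, map_zpow, th_curve, th_b, zpow_neg, zpow_one, ngtr_inv]
    refine Equiv.ext ?_
    intro p
    simp only [Equiv.Perm.mul_apply, tr_apply, ng_apply]
    rw [add_assoc]
    rfl
  have tc : th hg (twL 0 (by omega) 1 (gen (Sum.inl ⟨0 + 1, by omega⟩))) = ng * tr (2, 0) := by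
    rw [twL_c, map_mul, map_mul, map_zpow, map_zpow, th_curve, th_c, zpow_neg, zpow_one, ngtr_inv]
    refine Equiv.ext ?_
    intro p
    simp only [Equiv.Perm.mul_apply, tr_apply, ng_apply]
    ext <;> simp
    ring
  have td : th hg (twL 0 (by omega) 1 (gen (Sum.inr ⟨0 + 1, by omega⟩))) = ng * tr (1, 0) := by
    rw [twL_d, map_mul, map_zpow, th_curve, th_d, zpow_one, one_mul]
  have tw : th hg (twL 0 (by omega) 1 (bw ⟨0, by omega⟩)) = tr (2, 0) := by
    unfold bw
    simp only [map_mul, map_inv]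
    rw [ta, tb, ngtr_inv]
    refine Equiv.ext ?_
    intro p
    simp only [Equiv.Perm.mul_apply, tr_apply, ng_apply, tr_inv_apply]
    ext <;> simp
    ring
  have cng : ∀ v : ℤ × ℤ, (tv 4 (1, 0)) * (ng * tr v) * (tv 4 (1, 0))⁻¹ =
      ng * tr (tv 4 (1, 0) v) := by
    intro v
    have h1 : (tv 4 (1, 0)) * (ng * tr v) * (tv 4 (1, 0))⁻¹ =
        ((tv 4 (1, 0)) * ng * (tv 4 (1, 0))⁻¹) * ((tv 4 (1, 0)) * tr v * (tv 4 (1, 0))⁻¹) := by
      group
    rw [h1, conj_ng _ (tv_add _ _), conj_tr _ _ (tv_add _ _)]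
  by_cases h1 : j = Sum.inl ⟨0, by omega⟩
  · subst h1
    rw [twS_of, if_pos (Or.inl rfl), map_mul, map_mul, map_zpow, map_zpow, map_mul, map_mul,
      map_zpow, map_zpow, tw, ta, tr_zpow, tr_zpow, conj_tr _ _ (tv_add _ _)]
    refine Equiv.ext ?_
    intro p
    simp only [Equiv.Perm.mul_apply, tr_apply, tv_apply]
    ext <;> simp [om]
    ring
  · by_cases h2 : j = Sum.inr ⟨0, by omega⟩
    · subst h2
      rw [twS_of, if_pos (Or.inr rfl), map_mul, map_mul, map_zpow, map_zpow, map_mul, map_mul,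
        map_zpow, map_zpow, tw, tb, tr_zpow, tr_zpow, cng]
      refine Equiv.ext ?_
      intro p
      simp only [Equiv.Perm.mul_apply, tr_apply, tv_apply, ng_apply]
      ext <;> simp [om]
      ring
    · have h3 : twS ⟨0, by omega⟩ 1 (gen j) = gen j := by
        rw [twS_of, if_neg (by rintro (h | h) <;> contradiction)]
      rw [h3]
      by_cases h4 : j = Sum.inl ⟨0 + 1, by omega⟩
      · subst h4
        rw [tc, cng]
        congr 2
      · by_cases h5 : j = Sum.inr ⟨0 + 1, by omega⟩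
        · subst h5
          rw [td, cng]
          congr 2
        · have h6 : twL 0 (by omega) 1 (gen j) = gen j := by
            rw [twL_gen]
            simp only [linkFun, if_neg h2, if_neg h4, if_neg h5]
          rw [h6, th_other hg j h1 h2 h4]
          group

end Pool.Agent.Helper119.MG
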