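import Pool.Agent.Helper119.MG.Near

/-! All values in `[1/2, 1]` occur as limits of logarithmic densities. -/

open scoped Pointwise
open Filter Topology

namespace Pool.Agent.Helper119.MG

variable {g : ℕ}

lemma tS_gen (i0 : Fin g) (k : ℤ) (j : Fin g ⊕ Fin g) :
    autS i0 k (gen j) = if j = Sum.inl i0 ∨ j = Sum.inr i0 then
      (bw i0) ^ k * gen j * (bw i0) ^ (-k) else gen j := twS_of i0 k j

lemma isTwistS_iff (i0 : Fin g) (φ : orientedAut g) :
    IsTwistS i0 φ ↔ (φ : MulAut (SurfaceGroup g)) = autS i0 1 := by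
  constructor
  · intro h
    refine aut_ext (fun j => ?_)
    rw [h j, tS_gen, zpow_one, zpow_neg, zpow_one]
    rfl
  · intro h j
    rw [h, tS_gen, zpow_one, zpow_neg, zpow_one]
    rfl

lemma mem_sepTwists (hg : 2 ≤ g) {k : ℕ} {x : Mod g} :
    x ∈ sepTwists g k ↔ ∃ i, i < k ∧ x = toMod (zt hg i) := by
  have key : ∀ (i : ℕ) (ts : orientedAut g), (ts : MulAut (SurfaceGroup g)) =
      autS ⟨0, by omega⟩ 1 →
      cj (toMod (tA (⟨0, by omega⟩ : Fin g) 1) ^ i * toMod (tB (⟨0, by omega⟩ : Fin g) 1) ^ 5 *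
        (toMod (tA (⟨0, by omega⟩ : Fin g) 1) ^ i)⁻¹ * toMod (tL 0 (by omega) 1)) (toMod ts) =
      toMod (zt hg i) := by
    intro i ts hts
    have e0 := tau_eq (⟨0, by omega⟩ : Fin g) i
    unfold cj
    rw [e0]
    have e : zt hg i = (tau ⟨0, by omega⟩ i * tL 0 (by omega) 1) * ts *
        (tau ⟨0, by omega⟩ i * tL 0 (by omega) 1)⁻¹ := by
      have e1 : uO hg = tL 0 (by omega) 1 * ts * (tL 0 (by omega) 1)⁻¹ := by
        refine Subtype.ext ?_
        change uAut hg = autL 0 (by omega) 1 * (ts : MulAut (SurfaceGroup g)) *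
          (autL 0 (by omega) 1)⁻¹
        rw [hts]
        rfl
      unfold zt
      rw [e1]
      group
    rw [e]
    rfl
  constructor
  · rintro ⟨h, ta, tb, tl, ts, i, ha, hb, hl, hs, hi, rfl⟩
    rw [isTwistA_iff] at ha
    rw [isTwistB_iff] at hb
    rw [isTwistL_iff] at hl
    rw [isTwistS_iff] at hs
    subst ha hb hl
    exact ⟨i, hi, key i ts hs⟩
  · rintro ⟨i, hi, rfl⟩
    have hts : autS (⟨0, by omega⟩ : Fin g) 1 ∈ orientedAut g :=
      triv_one_preserves (triv_autS _ _)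
    exact ⟨by omega, tA _ 1, tB _ 1, tL _ _ 1, ⟨_, hts⟩, i, (isTwistA_iff _ _).2 rfl,
      (isTwistB_iff _ _).2 rfl, (isTwistL_iff _ _ _).2 rfl, (isTwistS_iff _ _).2 rfl, hi,
      (key i ⟨_, hts⟩ rfl).symm⟩

lemma sepTwists_coe [DecidableEq (Mod g)] (hg : 2 ≤ g) (k : ℕ) :
    sepTwists g k =
      (((Finset.range k).image (fun i => toMod (zt hg i)) : Finset (Mod g)) : Set (Mod g)) := by
  ext x
  rw [mem_sepTwists hg, Finset.coe_image, Finset.coe_range]
  constructor
  · rintro ⟨i, hi, rfl⟩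
    exact ⟨i, hi, rfl⟩
  · rintro ⟨i, hi, rfl⟩
    exact ⟨i, hi, rfl⟩

lemma withBoth_eq [DecidableEq (Mod g)] (hg : 2 ≤ g) (S : Finset (Mod g)) (n k : ℕ) :
    withBoth S n k = ((S ∪ (Finset.range k).image (fun i => toMod (zt hg i)) : Finset (Mod g)) :
      Set (Mod g)) ∪ fifthTwists g n := by
  unfold withBoth
  rw [sepTwists_coe hg, Finset.coe_union, Set.union_assoc, Set.union_assoc,
    Set.union_comm (fifthTwists g n)]

lemma card_zt [DecidableEq (Mod g)] (hg : 2 ≤ g) (S : Finset (Mod g)) (k : ℕ) :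
    (S ∪ (Finset.range k).image (fun i => toMod (zt hg i)) : Finset (Mod g)).card ≤
      S.card + k := by
  refine (Finset.card_union_le _ _).trans ?_
  have := Finset.card_image_le (s := Finset.range k)
    (f := fun i => toMod (zt hg i))
  rw [Finset.card_range] at this
  omega

lemma withBoth_finite (hg : 2 ≤ g) (S : Finset (Mod g)) (n k : ℕ) :
    (withBoth S n k).Finite := by
  classical
  rw [withBoth_eq hg, fifthTwists_coe hg]
  exact (Finset.finite_toSet _).union (Finset.finite_toSet _)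

lemma withBoth_ball (hg : 2 ≤ g) (S : Finset (Mod g)) (n k r : ℕ) :
    ((ball (withBoth S n k) r).ncard : ℝ) ≤ 1 * (2 * (S.card + n + k) + 1 : ℝ) ^ r := by
  classical
  rw [one_mul, withBoth_eq hg, fifthTwists_coe hg, ← Finset.coe_union]
  have h1 := ball_card_le ((S ∪ (Finset.range k).image (fun i => toMod (zt hg i))) ∪
    (Finset.range n).image (fun i => toMod (tau ⟨0, by omega⟩ i) : ℕ → Mod g)) r
  have h2 : ((S ∪ (Finset.range k).image (fun i => toMod (zt hg i))) ∪
    (Finset.range n).image (fun i => toMod (tau ⟨0, by omega⟩ i) : ℕ → Mod g)).card ≤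
      S.card + n + k := by
    refine (Finset.card_union_le _ _).trans ?_
    have := Finset.card_image_le (s := Finset.range n)
      (f := (fun i => toMod (tau ⟨0, by omega⟩ i) : ℕ → Mod g))
    rw [Finset.card_range] at this
    have := card_zt hg S k
    omega
  have h3 : (ball ((((S ∪ (Finset.range k).image (fun i => toMod (zt hg i))) ∪
    (Finset.range n).image (fun i => toMod (tau ⟨0, by omega⟩ i) : ℕ → Mod g)) :
      Finset (Mod g)) : Set (Mod g)) r).ncard ≤ (2 * (S.card + n + k) + 1) ^ r := by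
    refine h1.trans ?_
    gcongr
  exact_mod_cast h3

theorem both_lower (hg : 2 ≤ g) (S : Finset (Mod g)) (n k : ℕ) (hn : 1 ≤ n)
    (hS : Subgroup.closure (withBoth S n k) = ⊤) (m : ℕ) :
    Real.log k / Real.log (2 * (S.card + n + k) + 1) ≤
      lowerLogDensity (withBoth S n k) (johnson g m) := by
  have hfin := withBoth_finite hg S n k
  rcases Nat.lt_or_ge k 2 with hk | hk
  · have h0 : Real.log k = 0 := by interval_cases k <;> simp
    rw [h0, zero_div]
    exact lower_nonneg hfin _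
  have hk' : (2 : ℝ) ≤ k := by exact_mod_cast hk
  have hn' : (1 : ℝ) ≤ n := by exact_mod_cast hn
  have hcard : (0 : ℝ) ≤ S.card := by positivity
  obtain ⟨c, hc⟩ := exists_ball (S := withBoth S n k) (x := toMod (deep hg m))
    (by rw [hS]; trivial)
  obtain ⟨E, P, hEP⟩ := near_count hg hfin (k := k) (m := m) (c := c) (by
    intro i hi
    refine Or.inr ((mem_sepTwists hg).2 ⟨i, hi, rfl⟩)) hc
  have h := lower_of_poly hfin (H := johnson g m) (K := 2 * (S.card + n + k) + 1) (C := 1)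
    (by linarith) le_rfl (fun r => withBoth_ball hg S n k r) (A := (k : ℝ) ^ 2)
    (by nlinarith) (E := E) (P := P) (D := 2) (c := c) (by norm_num) (by
      intro r hr
      have h1 := hEP r hr
      have h2 : ((k : ℝ) ^ 2) ^ r = (((k ^ r) ^ 2 : ℕ) : ℝ) := by
        push_cast; ring
      rw [h2]
      exact_mod_cast h1)
  rw [Real.log_pow] at h
  have e : ((2 : ℕ) : ℝ) * Real.log k / (((2 : ℕ) : ℝ) *
      Real.log (2 * (S.card + n + k) + 1)) =
      Real.log k / Real.log (2 * (S.card + n + k) + 1) := by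
    rw [mul_div_mul_left]
    norm_num
  rw [e] at h
  exact h

theorem both_upper (hg : 2 ≤ g) (S : Finset (Mod g)) (n k : ℕ) (hn : 2 ≤ n) (m : ℕ)
    (hm : 1 ≤ m) :
    upperLogDensity (withBoth S n k) (johnson g m) ≤
      Real.log (3 * ((2 * (S.card + k) + 1) ^ 2 + 4 * n)) / (2 * Real.log n) := by
  classical
  rw [withBoth_eq hg]
  refine (half_upper hg _ n hn m hm).trans ?_
  have hn' : (2 : ℝ) ≤ n := by exact_mod_cast hn
  have hlog : 0 < Real.log n := Real.log_pos (by linarith)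
  refine div_le_div_of_nonneg_right ?_ (by positivity)
  refine Real.log_le_log (by positivity) ?_
  have h1 : ((S ∪ (Finset.range k).image (fun i => toMod (zt hg i)) : Finset (Mod g)).card : ℝ) ≤
      S.card + k := by exact_mod_cast card_zt hg S k
  gcongr

/-- Bounds with an explicit error term, for all `α ∈ [1/2, 1]`. -/
theorem spectrum_rate (C : ℝ) : ∃ K : ℝ, ∀ g : ℕ, 2 ≤ g → ∀ α : ℝ, 1 / 2 ≤ α → α ≤ 1 →
    ∀ (S : Finset (Mod g)) (n : ℕ), 2 ≤ n → (S.card : ℝ) ^ 2 ≤ C * n →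
    Generates (withBoth S n ⌊(n : ℝ) ^ α⌋₊) → ∀ m : ℕ, 1 ≤ m →
      Near (withBoth S n ⌊(n : ℝ) ^ α⌋₊) m α (K / Real.log n) := by
  set C' := max C 0 with hC'
  have hC0 : 0 ≤ C' := le_max_right _ _
  refine ⟨Real.log 2 + Real.log (36 * C' + 57), ?_⟩
  intro g hg α hα hα1 S n hn hcard hgen m hm
  have hn' : (2 : ℝ) ≤ n := by exact_mod_cast hn
  have hlogn : 0 < Real.log n := Real.log_pos (by linarith)
  have hcard' : (S.card : ℝ) ^ 2 ≤ C' * n :=
    hcard.trans (by gcongr; exact le_max_left _ _)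
  have hK : 0 ≤ Real.log (36 * C' + 57) := Real.log_nonneg (by linarith)
  have hl2 : 0 < Real.log 2 := Real.log_pos (by norm_num)
  have hcard0 : (0 : ℝ) ≤ S.card := by positivity
  have hsq : (S.card : ℝ) ≤ (S.card : ℝ) ^ 2 := by
    rcases Nat.eq_zero_or_pos S.card with h | h
    · rw [h]; simp
    · have : (1 : ℝ) ≤ S.card := by exact_mod_cast h
      nlinarith
  set k := ⌊(n : ℝ) ^ α⌋₊ with hk
  have hnα1 : (1 : ℝ) ≤ (n : ℝ) ^ α := Real.one_le_rpow (by linarith) (by linarith)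
  have hkle : (k : ℝ) ≤ (n : ℝ) ^ α := Nat.floor_le (by linarith)
  have hk1 : 1 ≤ k := by
    rw [hk, Nat.one_le_floor_iff]
    exact hnα1
  have hk1' : (1 : ℝ) ≤ k := by exact_mod_cast hk1
  have hkge : (n : ℝ) ^ α / 2 ≤ k := by
    have h1 : (n : ℝ) ^ α < k + 1 := Nat.lt_floor_add_one _
    linarith
  have hkn : (k : ℝ) ≤ n := by
    refine hkle.trans ?_
    calc (n : ℝ) ^ α ≤ (n : ℝ) ^ (1 : ℝ) := Real.rpow_le_rpow_of_exponent_le (by linarith) hα1
      _ = n := Real.rpow_one _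
  have hfin := withBoth_finite hg S n k
  refine ⟨?_, lower_le_upper hfin _, ?_⟩
  · refine le_trans ?_ (both_lower hg S n k (by omega) hgen m)
    have h1 : 2 * (S.card + n + k) + 1 ≤ (36 * C' + 57) * n := by nlinarith
    have h2 : Real.log (2 * (S.card + n + k) + 1) ≤ Real.log (36 * C' + 57) + Real.log n := by
      rw [← Real.log_mul (by positivity) (by positivity)]
      exact Real.log_le_log (by positivity) h1
    have h3 : 0 < Real.log (2 * (S.card + n + k) + 1) := Real.log_pos (by linarith)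
    have h4 : Real.log n ≤ Real.log (2 * (S.card + n + k) + 1) :=
      Real.log_le_log (by linarith) (by linarith)
    have h5 : α * Real.log n - Real.log 2 ≤ Real.log k := by
      have := Real.log_le_log (by positivity) hkge
      rw [Real.log_div (by positivity) (by norm_num), Real.log_rpow (by linarith)] at this
      exact this
    rw [le_div_iff₀ h3]
    have h6 : 1 ≤ Real.log (2 * (S.card + n + k) + 1) / Real.log n := by
      rw [le_div_iff₀ hlogn]; linarith
    have h7 : (α - (Real.log 2 + Real.log (36 * C' + 57)) / Real.log n) *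
        Real.log (2 * (S.card + n + k) + 1) =
        α * Real.log (2 * (S.card + n + k) + 1) - (Real.log 2 + Real.log (36 * C' + 57)) *
          (Real.log (2 * (S.card + n + k) + 1) / Real.log n) := by
      field_simp
    rw [h7]
    have h8 : α * Real.log (2 * (S.card + n + k) + 1) ≤
        α * Real.log n + Real.log (36 * C' + 57) := by
      nlinarith
    nlinarith
  · refine (both_upper hg S n k hn m hm).trans ?_
    have hn2α : (n : ℝ) ≤ (n : ℝ) ^ (2 * α) := by
      calc (n : ℝ) = (n : ℝ) ^ (1 : ℝ) := (Real.rpow_one _).symm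
        _ ≤ (n : ℝ) ^ (2 * α) := Real.rpow_le_rpow_of_exponent_le (by linarith) (by linarith)
    have hk2 : (k : ℝ) ^ 2 ≤ (n : ℝ) ^ (2 * α) := by
      have e : (n : ℝ) ^ (2 * α) = ((n : ℝ) ^ α) ^ 2 := by
        rw [mul_comm, Real.rpow_mul (by linarith)]
        norm_cast
      rw [e]
      gcongr
    have h0 : (S.card : ℝ) ^ 2 ≤ C' * (n : ℝ) ^ (2 * α) := hcard'.trans (by gcongr)
    have h1 : 3 * ((2 * ((S.card : ℝ) + k) + 1) ^ 2 + 4 * n) ≤
        (36 * C' + 57) * (n : ℝ) ^ (2 * α) := by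
      have h9 : (2 * ((S.card : ℝ) + k) + 1) ^ 2 ≤
          12 * (S.card : ℝ) ^ 2 + 12 * (k : ℝ) ^ 2 + 3 := by
        nlinarith [sq_nonneg ((S.card : ℝ) - k), sq_nonneg (2 * (S.card : ℝ) - 1),
          sq_nonneg (2 * (k : ℝ) - 1)]
      nlinarith
    have h2 : Real.log (3 * ((2 * ((S.card : ℝ) + k) + 1) ^ 2 + 4 * n)) ≤
        Real.log (36 * C' + 57) + 2 * α * Real.log n := by
      have e : Real.log ((36 * C' + 57) * (n : ℝ) ^ (2 * α)) =
          Real.log (36 * C' + 57) + 2 * α * Real.log n := by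
        rw [Real.log_mul (by positivity) (by positivity), Real.log_rpow (by linarith)]
      rw [← e]
      exact Real.log_le_log (by positivity) h1
    rw [div_le_iff₀ (by positivity)]
    have h5 : (α + (Real.log 2 + Real.log (36 * C' + 57)) / Real.log n) * (2 * Real.log n) =
        2 * α * Real.log n + 2 * (Real.log 2 + Real.log (36 * C' + 57)) := by
      field_simp
    rw [h5]
    linarith

lemma near_mono {S : Set (Mod g)} {m : ℕ} {α δ δ' : ℝ} (h : δ ≤ δ') (hS : Near S m α δ) :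
    Near S m α δ' :=
  ⟨by linarith [hS.1], hS.2.1, by linarith [hS.2.2]⟩

/-- For fixed `g` and `S`, all `α ∈ [1/2, 1]` are limits, uniformly in `m`. -/
theorem spectrum_n (hg : 2 ≤ g) {α : ℝ} (hα : 1 / 2 ≤ α) (hα1 : α ≤ 1) (S : Finset (Mod g))
    (hgen : Generates (S : Set (Mod g))) {ε : ℝ} (hε : 0 < ε) :
    ∀ᶠ n : ℕ in atTop, ∀ m : ℕ, 1 ≤ m → Near (withBoth S n ⌊(n : ℝ) ^ α⌋₊) m α ε := by
  obtain ⟨K, hK⟩ := spectrum_rate ((S.card : ℝ) ^ 2)
  have ht : Tendsto (fun n : ℕ => K / Real.log n) atTop (𝓝 0) :=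
    tendsto_const_nhds.div_atTop (Real.tendsto_log_atTop.comp tendsto_natCast_atTop_atTop)
  filter_upwards [eventually_ge_atTop 2, ht.eventually (gt_mem_nhds hε)] with n hn hn2 m hm
  have hgen' : Generates (withBoth S n ⌊(n : ℝ) ^ α⌋₊) := by
    unfold Generates at hgen ⊢
    rw [eq_top_iff, ← hgen]
    exact Subgroup.closure_mono (Set.subset_union_left.trans Set.subset_union_left)
  have hn1 : (1 : ℝ) ≤ n := by exact_mod_cast (by omega : 1 ≤ n)
  have h := hK g hg α hα hα1 S n hn (by nlinarith [sq_nonneg (S.card : ℝ)]) hgen' m hm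
  exact near_mono hn2.le h

/-- As `g → ∞`, all `α ∈ [1/2, 1]` are limits, uniformly in `m`. -/
theorem spectrum_g {α : ℝ} (hα : 1 / 2 ≤ α) (hα1 : α ≤ 1) (S : ∀ g : ℕ, Finset (Mod g))
    (n : ℕ → ℕ) (C : ℝ)
    (hn : Tendsto n atTop atTop) (hcard : ∀ g, 2 ≤ g → ((S g).card : ℝ) ^ 2 ≤ C * n g)
    (hgen : ∀ g, 2 ≤ g → Generates (withBoth (S g) (n g) ⌊(n g : ℝ) ^ α⌋₊))
    {ε : ℝ} (hε : 0 < ε) :
    ∀ᶠ g : ℕ in atTop, ∀ m : ℕ, 1 ≤ m →
      Near (withBoth (S g) (n g) ⌊(n g : ℝ) ^ α⌋₊) m α ε := by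
  obtain ⟨K, hK⟩ := spectrum_rate C
  have ht : Tendsto (fun n : ℕ => K / Real.log n) atTop (𝓝 0) :=
    tendsto_const_nhds.div_atTop (Real.tendsto_log_atTop.comp tendsto_natCast_atTop_atTop)
  have ht2 : Tendsto (fun g : ℕ => K / Real.log (n g)) atTop (𝓝 0) := ht.comp hn
  filter_upwards [eventually_ge_atTop 2, hn.eventually (eventually_ge_atTop 2),
    ht2.eventually (gt_mem_nhds hε)] with g hg hn2 hn3 m hm
  have h := hK g hg α hα hα1 (S g) (n g) hn2 (hcard g hg) (hgen g hg) m hm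
  exact near_mono hn3.le h

end Pool.Agent.Helper119.MG
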