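import Pool.Agent.Helper119.MG.Energy

/-! The number of elements of the Torelli group in balls. This part is adapted from helper233's
file on the Torelli group. -/

open scoped Pointwise
open Filter Topology

namespace Pool.Agent.Helper119.MG

/-- The automorphism `φ` of the surface group acts trivially on the abelianization. -/
def ActsTrivially {g : ℕ} (φ : MulAut (SurfaceGroup g)) : Prop :=
  ∀ x : SurfaceGroup g, Abelianization.of (φ x) = Abelianization.of x

/-- The Torelli group: the mapping classes acting trivially on the abelianization of the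
fundamental group. -/
def torelli (g : ℕ) : Subgroup (Mod g) where
  carrier := {m | ∃ φ : orientedAut g, toMod φ = m ∧ ActsTrivially φ.1}
  one_mem' := ⟨1, rfl, fun _ => rfl⟩
  mul_mem' := by
    rintro _ _ ⟨φ, rfl, hφ⟩ ⟨ψ, rfl, hψ⟩
    exact ⟨φ * ψ, rfl, fun x => by rw [Subgroup.coe_mul, MulAut.mul_apply, hφ, hψ]⟩
  inv_mem' := by
    rintro _ ⟨φ, rfl, hφ⟩
    refine ⟨φ⁻¹, rfl, fun x => ?_⟩
    rw [← hφ, Subgroup.coe_inv, MulAut.apply_inv_self]

lemma johnson_subset_torelli (g m : ℕ) (hm : 1 ≤ m) : johnson g m ⊆ (torelli g : Set (Mod g)) := by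
  rintro _ ⟨φ, rfl, w, hw⟩
  refine ⟨φ, rfl, ?_⟩
  intro y
  have h1 : (w * y * w⁻¹)⁻¹ * (φ : MulAut (SurfaceGroup g)) y ∈ commutator (SurfaceGroup g) :=
    Subgroup.lowerCentralSeries_antitone _ hm (hw y)
  rw [← Abelianization.ker_of, MonoidHom.mem_ker] at h1
  simp only [map_mul, map_inv] at h1
  have h2 := inv_mul_eq_one.1 h1
  rw [← h2]
  rw [mul_comm (Abelianization.of w), mul_assoc, mul_inv_cancel, mul_one]

section Twists

variable {g : ℕ}

lemma homology_tau (i0 : Fin g) (i : ℕ) (x : SurfaceGroup g) :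
    homologyClass ((tau i0 i : MulAut (SurfaceGroup g)) x) (Sum.inl i0) =
      homologyClass x (Sum.inl i0) +
        i * (5 * (homologyClass x (Sum.inl i0) - i * homologyClass x (Sum.inr i0))) ∧
    homologyClass ((tau i0 i : MulAut (SurfaceGroup g)) x) (Sum.inr i0) =
      homologyClass x (Sum.inr i0) +
        5 * (homologyClass x (Sum.inl i0) - i * homologyClass x (Sum.inr i0)) := by
  have e : (tau i0 i : MulAut (SurfaceGroup g)) x =
      autA i0 i (autB i0 5 (autA i0 (-i) x)) := rfl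
  rw [e]
  constructor
  · simp only [homologyClass_autA, homologyClass_autB, Pi.add_apply, Pi.smul_apply,
      Pi.single_apply, smul_eq_mul]
    simp
    ring
  · simp only [homologyClass_autA, homologyClass_autB, Pi.add_apply, Pi.smul_apply,
      Pi.single_apply, smul_eq_mul]
    simp
    ring

end Twists

/-! ### The action on `Mod_g / Torelli` -/

section Cosets

variable {g : ℕ}

lemma homologyClass_congr (φ : MulAut (SurfaceGroup g)) {x y : SurfaceGroup g}
    (h : Abelianization.of x = Abelianization.of y) :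
    homologyClass (φ x) = homologyClass (φ y) := by
  have key : ∀ z : SurfaceGroup g, homologyHom g (φ z) =
      Abelianization.lift ((homologyHom g).comp φ.toMonoidHom) (Abelianization.of z) := by
    intro z
    rw [Abelianization.lift_apply_of]
    rfl
  unfold homologyClass
  rw [key, key, h]

/-- the coset space -/
abbrev Cos (g : ℕ) : Type := Mod g ⧸ torelli g

/-- the coset of an automorphism -/
def cosMk (φ : orientedAut g) : Cos g := QuotientGroup.mk (toMod φ)

lemma cosMk_surj (x : Cos g) : ∃ φ : orientedAut g, cosMk φ = x := by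
  obtain ⟨m, rfl⟩ := QuotientGroup.mk_surjective x
  obtain ⟨φ, rfl⟩ := QuotientGroup.mk_surjective m
  exact ⟨φ, rfl⟩

lemma cosMk_eq {φ ψ : orientedAut g} (h : cosMk φ = cosMk ψ) (x : SurfaceGroup g) :
    homologyClass ((φ : MulAut (SurfaceGroup g)) x) =
      homologyClass ((ψ : MulAut (SurfaceGroup g)) x) := by
  unfold cosMk at h
  rw [QuotientGroup.eq] at h
  obtain ⟨χ, hχ, htriv⟩ := h
  have hχ' : (QuotientGroup.mk χ : orientedAut g ⧸ innerAut g) =
      QuotientGroup.mk (φ⁻¹ * ψ) := hχ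
  rw [QuotientGroup.eq, innerAut, Subgroup.mem_subgroupOf] at hχ'
  obtain ⟨z, hz⟩ := hχ'
  have hψ : (ψ : MulAut (SurfaceGroup g)) =
      (φ : MulAut (SurfaceGroup g)) * χ * MulAut.conj z := by
    rw [hz]
    simp only [Subgroup.coe_mul, InvMemClass.coe_inv]
    group
  rw [hψ, MulAut.mul_apply, MulAut.mul_apply]
  refine (homologyClass_congr _ ?_)
  rw [htriv, MulAut.conj_apply]
  simp [mul_comm]

/-- representative -/
noncomputable def rep (x : Cos g) : orientedAut g := (cosMk_surj x).choose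

lemma cosMk_rep (x : Cos g) : cosMk (rep x) = x := (cosMk_surj x).choose_spec

/-- the `(a_1, b_1)`-part of the image of the `j`-th generator -/
noncomputable def col (i0 : Fin g) (x : Cos g) (j : Fin g ⊕ Fin g) : ℤ × ℤ :=
  (homologyClass ((rep x : MulAut (SurfaceGroup g)) (gen j)) (Sum.inl i0),
   homologyClass ((rep x : MulAut (SurfaceGroup g)) (gen j)) (Sum.inr i0))

lemma col_cosMk (i0 : Fin g) (φ : orientedAut g) (j : Fin g ⊕ Fin g) :
    col i0 (cosMk φ) j =
  (homologyClass ((φ : MulAut (SurfaceGroup g)) (gen j)) (Sum.inl i0),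
   homologyClass ((φ : MulAut (SurfaceGroup g)) (gen j)) (Sum.inr i0)) := by
  unfold col
  rw [cosMk_eq (cosMk_rep (cosMk φ))]

/-- the linear map on the plane -/
def lin (i : ℕ) (p : ℤ × ℤ) : ℤ × ℤ :=
  (p.1 + i * (5 * (p.1 - i * p.2)), p.2 + 5 * (p.1 - i * p.2))

lemma col_smul (i0 : Fin g) (i : ℕ) (x : Cos g) (j : Fin g ⊕ Fin g) :
    col i0 (toMod (tau i0 i) • x) j = lin i (col i0 x j) := by
  obtain ⟨φ, rfl⟩ := cosMk_surj x
  have e : toMod (tau i0 i) • cosMk φ = cosMk (tau i0 i * φ) := rfl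
  rw [e, col_cosMk, col_cosMk, Subgroup.coe_mul, MulAut.mul_apply]
  unfold lin
  have h := homology_tau i0 i ((φ : MulAut (SurfaceGroup g)) (gen j))
  rw [h.1, h.2]

lemma lin_eq_zero {i : ℕ} {p : ℤ × ℤ} : lin i p = 0 ↔ p = 0 := by
  obtain ⟨x, y⟩ := p
  unfold lin
  simp only [Prod.mk_eq_zero]
  constructor
  · rintro ⟨h1, h2⟩
    have h3 : x - i * y = 0 := by linear_combination h1 - i * h2
    rw [h3] at h1 h2
    constructor
    · linarith
    · linarith
  · rintro ⟨rfl, rfl⟩
    simp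

lemma exists_col_ne_zero (i0 : Fin g) (x : Cos g) : {j | col i0 x j ≠ 0}.Nonempty := by
  by_contra hne
  rw [Set.not_nonempty_iff_eq_empty] at hne
  have h0 : ∀ j, homologyClass ((rep x : MulAut (SurfaceGroup g)) (gen j))
      (Sum.inl i0) = 0 := by
    intro j
    by_contra hj
    have : j ∈ {j | col i0 x j ≠ 0} := by
      intro h
      exact hj (congrArg Prod.fst h)
    rw [hne] at this
    exact this
  have h1 : ∀ y, (fun y : SurfaceGroup g =>
      (Pi.single (Sum.inl i0) (homologyClass ((rep x : MulAut (SurfaceGroup g)) y) (Sum.inl i0)) :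
        Fin g ⊕ Fin g → ℤ)) y = (fun _ => 0) y := by
    refine hom_ext_class ?_ ?_ ?_
    · intro y z
      rw [map_mul, homologyClass_mul, Pi.add_apply, Pi.single_add]
    · intro y z
      simp
    · intro j
      simp only [h0 j]
      simp
  have h2 := h1 ((rep x : MulAut (SurfaceGroup g))⁻¹ (gen (Sum.inl i0)))
  simp only [MulAut.apply_inv_self, homologyClass_of] at h2
  simp at h2

open Classical in
/-- choice of an element of a nonempty set of indices -/
noncomputable def pick (i0 : Fin g) (A : Set (Fin g ⊕ Fin g)) : Fin g ⊕ Fin g :=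
  if h : A.Nonempty then h.some else Sum.inl i0

/-- the vector attached to a coset -/
noncomputable def vv (i0 : Fin g) (x : Cos g) : ℤ × ℤ :=
  col i0 x (pick i0 {j | col i0 x j ≠ 0})

lemma vv_ne_zero (i0 : Fin g) (x : Cos g) : vv i0 x ≠ 0 := by
  unfold vv pick
  rw [dif_pos (exists_col_ne_zero i0 x)]
  exact (exists_col_ne_zero i0 x).some_mem

lemma vv_smul (i0 : Fin g) (i : ℕ) (x : Cos g) :
    vv i0 (toMod (tau i0 i) • x) = lin i (vv i0 x) := by
  unfold vv
  rw [col_smul]
  congr 3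
  ext j
  simp only [Set.mem_ofPred_eq, col_smul, ne_eq, lin_eq_zero]

/-- attracting sets -/
def UU (i0 : Fin g) (i : ℕ) : Set (Cos g) :=
  {x | 5 * ((vv i0 x).1 - i * (vv i0 x).2) ^ 2 ≤
    2 * (vv i0 x).2 * ((vv i0 x).1 - i * (vv i0 x).2)}

/-- repelling sets -/
def VV (i0 : Fin g) (i : ℕ) : Set (Cos g) :=
  {x | 2 * (vv i0 x).2 * ((vv i0 x).1 - i * (vv i0 x).2) <
    -(5 * ((vv i0 x).1 - i * (vv i0 x).2) ^ 2)}

lemma UU_abs {i0 : Fin g} {i : ℕ} {x : Cos g} (h : x ∈ UU i0 i) :
    5 * ((vv i0 x).1 - i * (vv i0 x).2) ^ 2 ≤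
      |2 * (vv i0 x).2 * ((vv i0 x).1 - i * (vv i0 x).2)| :=
  le_trans h (le_abs_self _)

lemma VV_abs {i0 : Fin g} {i : ℕ} {x : Cos g} (h : x ∈ VV i0 i) :
    5 * ((vv i0 x).1 - i * (vv i0 x).2) ^ 2 ≤
      |2 * (vv i0 x).2 * ((vv i0 x).1 - i * (vv i0 x).2)| := by
  have h' : 2 * (vv i0 x).2 * ((vv i0 x).1 - i * (vv i0 x).2) <
    -(5 * ((vv i0 x).1 - i * (vv i0 x).2) ^ 2) := h
  have := neg_abs_le (2 * (vv i0 x).2 * ((vv i0 x).1 - i * (vv i0 x).2))
  linarith

end Cosets



open Classical in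
/-- The number of elements of the Torelli group in a ball. -/
theorem torelli_sq (g : ℕ) (hg : 1 ≤ g) (S : Finset (Mod g)) (n r : ℕ) :
    (ball ((S ∪ (Finset.range n).image (fun i => toMod (tau ⟨0, hg⟩ i)) : Finset (Mod g)) :
      Set (Mod g)) r ∩ (torelli g : Set (Mod g))).ncard ^ 2 ≤
      (3 * ((insert 1 (S ∪ S⁻¹)).card ^ 2 + 4 * n)) ^ r := by
  let i0 : Fin g := ⟨0, hg⟩
  have hpair : ∀ x : Cos g, ((vv i0 x).1, (vv i0 x).2) ≠ (0 : ℤ × ℤ) := fun x => vv_ne_zero i0 x
  have main := general_sq (X := Cos g) (cosMk 1)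
    (fun i => toMod (tau i0 i)) (UU i0) (VV i0) ?_ ?_ ?_ ?_ ?_ S n r
  · have e2 : {a : Mod g | a • (cosMk 1 : Cos g) = cosMk 1} = (torelli g : Set (Mod g)) := by
      ext a
      have : a • (cosMk 1 : Cos g) = QuotientGroup.mk (a * 1) := rfl
      change a • (cosMk 1 : Cos g) = cosMk 1 ↔ _
      rw [this, mul_one]
      have h1 : (cosMk 1 : Cos g) = QuotientGroup.mk (1 : Mod g) := rfl
      rw [h1, eq_comm, QuotientGroup.eq, inv_one, one_mul, SetLike.mem_coe]
    rw [e2] at main
    exact main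
  · intro i j hij
    rw [Set.disjoint_left]
    intro x hx hx'
    exact plane_disjoint hij (hpair x) (UU_abs hx) (UU_abs hx')
  · intro i j hij
    rw [Set.disjoint_left]
    intro x hx hx'
    exact plane_disjoint hij (hpair x) (VV_abs hx) (VV_abs hx')
  · intro i j
    rw [Set.disjoint_left]
    intro x hx hx'
    by_cases hij : i = j
    · subst hij
      have h1 : 5 * ((vv i0 x).1 - i * (vv i0 x).2) ^ 2 ≤
        2 * (vv i0 x).2 * ((vv i0 x).1 - i * (vv i0 x).2) := hx
      have h2 : 2 * (vv i0 x).2 * ((vv i0 x).1 - i * (vv i0 x).2) <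
        -(5 * ((vv i0 x).1 - i * (vv i0 x).2) ^ 2) := hx'
      nlinarith [sq_nonneg ((vv i0 x).1 - i * (vv i0 x).2)]
    · exact plane_disjoint hij (hpair x) (UU_abs hx) (VV_abs hx')
  · intro i x hx
    have h1 : ¬ (2 * (vv i0 x).2 * ((vv i0 x).1 - i * (vv i0 x).2) <
        -(5 * ((vv i0 x).1 - i * (vv i0 x).2) ^ 2)) := hx
    change 5 * ((vv i0 _).1 - i * (vv i0 _).2) ^ 2 ≤
      2 * (vv i0 _).2 * ((vv i0 _).1 - i * (vv i0 _).2)
    rw [vv_smul]
    unfold lin
    simp only
    nlinarith [sq_nonneg ((vv i0 x).1 - i * (vv i0 x).2)]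
  · intro i x hx
    set z : Cos g := (toMod (tau i0 i))⁻¹ • x with hz
    have hxz : x = toMod (tau i0 i) • z := by rw [hz, smul_inv_smul]
    have h1 : ¬ (5 * ((vv i0 x).1 - i * (vv i0 x).2) ^ 2 ≤
      2 * (vv i0 x).2 * ((vv i0 x).1 - i * (vv i0 x).2)) := hx
    rw [hxz, vv_smul] at h1
    unfold lin at h1
    simp only at h1
    change 2 * (vv i0 z).2 * ((vv i0 z).1 - i * (vv i0 z).2) <
      -(5 * ((vv i0 z).1 - i * (vv i0 z).2) ^ 2)
    nlinarith [sq_nonneg ((vv i0 z).1 - i * (vv i0 z).2)]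

end Pool.Agent.Helper119.MG
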