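import Pool.Agent.Helper119.MG.Defs

/-! Explicit automorphisms of the surface group. The part on `twA`, `twB` is adapted from
helper233's file on the Torelli group. -/

namespace Pool.Agent.Helper119.MG

variable {g : ℕ}

lemma relator_one : FreeGroup.lift (gen (g := g)) (surfaceRelator g) = 1 := by
  have h : FreeGroup.lift (PresentedGroup.of (rels := {surfaceRelator g})) =
      PresentedGroup.mk {surfaceRelator g} := by
    ext x; rfl
  have h2 : FreeGroup.lift (PresentedGroup.of (rels := {surfaceRelator g}))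
      (surfaceRelator g) = 1 := by
    rw [h]
    exact PresentedGroup.one_of_mem (Set.mem_singleton _)
  exact h2

lemma lift_eq_one (f : Fin g ⊕ Fin g → SurfaceGroup g)
    (hf : ∀ i : Fin g, f (Sum.inl i) * f (Sum.inr i) * (f (Sum.inl i))⁻¹ * (f (Sum.inr i))⁻¹ =
      gen (Sum.inl i) * gen (Sum.inr i) *
      (gen (Sum.inl i))⁻¹ * (gen (Sum.inr i))⁻¹) :
    FreeGroup.lift f (surfaceRelator g) = 1 := by
  rw [← relator_one, lift_relator, lift_relator]
  congr 2
  funext i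
  exact hf i

lemma prod_ofFn_congr {H : Type*} [Group H] : ∀ (g : ℕ) (F F' : Fin g → H) (i : ℕ)
    (hi : i + 1 < g), (∀ j : Fin g, (j : ℕ) ≠ i → (j : ℕ) ≠ i + 1 → F j = F' j) →
    F ⟨i, by omega⟩ * F ⟨i + 1, hi⟩ = F' ⟨i, by omega⟩ * F' ⟨i + 1, hi⟩ →
    (List.ofFn F).prod = (List.ofFn F').prod
  | 0, _, _, i, hi, _, _ => absurd hi (by omega)
  | 1, _, _, i, hi, _, _ => absurd hi (by omega)
  | (g + 2), F, F', 0, hi, h, h' => by
      rw [List.ofFn_succ, List.ofFn_succ, List.ofFn_succ, List.ofFn_succ]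
      simp only [List.prod_cons]
      rw [← mul_assoc, ← mul_assoc]
      have e : (fun i : Fin g => F i.succ.succ) = fun i : Fin g => F' i.succ.succ := by
        funext j
        refine h _ ?_ ?_
        · simp
        · simp
      rw [e]
      congr 1
  | (g + 2), F, F', (i + 1), hi, h, h' => by
      rw [List.ofFn_succ (f := F), List.ofFn_succ (f := F')]
      simp only [List.prod_cons]
      have h0 : F 0 = F' 0 := h 0 (by simp) (by simp)
      rw [h0]
      congr 1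
      refine prod_ofFn_congr (g + 1) (fun j => F j.succ) (fun j => F' j.succ) i (by omega) ?_ ?_
      · intro j hj hj'
        refine h _ ?_ ?_
        · simpa using hj
        · simpa using hj'
      · exact h'

lemma lift_eq_one' (f : Fin g ⊕ Fin g → SurfaceGroup g) (i : ℕ) (hi : i + 1 < g)
    (h0 : ∀ j : Fin g, (j : ℕ) ≠ i → (j : ℕ) ≠ i + 1 →
      f (Sum.inl j) = gen (Sum.inl j) ∧ f (Sum.inr j) = gen (Sum.inr j))
    (hf : (f (Sum.inl ⟨i, by omega⟩) * f (Sum.inr ⟨i, by omega⟩) *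
        (f (Sum.inl ⟨i, by omega⟩))⁻¹ * (f (Sum.inr ⟨i, by omega⟩))⁻¹) *
      (f (Sum.inl ⟨i + 1, hi⟩) * f (Sum.inr ⟨i + 1, hi⟩) *
        (f (Sum.inl ⟨i + 1, hi⟩))⁻¹ * (f (Sum.inr ⟨i + 1, hi⟩))⁻¹) =
      (gen (Sum.inl ⟨i, by omega⟩) * gen (Sum.inr ⟨i, by omega⟩) *
        (gen (Sum.inl ⟨i, by omega⟩))⁻¹ * (gen (Sum.inr ⟨i, by omega⟩))⁻¹) *
      (gen (Sum.inl ⟨i + 1, hi⟩) * gen (Sum.inr ⟨i + 1, hi⟩) *
        (gen (Sum.inl ⟨i + 1, hi⟩))⁻¹ * (gen (Sum.inr ⟨i + 1, hi⟩))⁻¹)) :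
    FreeGroup.lift f (surfaceRelator g) = 1 := by
  rw [← relator_one, lift_relator, lift_relator]
  refine prod_ofFn_congr g _ _ i hi ?_ hf
  intro j hj hj'
  simp only [(h0 j hj hj').1, (h0 j hj hj').2]

/-- `b ↦ b a^k` in the handle `i0`, all other generators fixed. -/
def twA (i0 : Fin g) (k : ℤ) : SurfaceGroup g →* SurfaceGroup g :=
  outHom (fun j => if j = Sum.inr i0 then gen (Sum.inr i0) * (gen (Sum.inl i0)) ^ k
      else gen j) (lift_eq_one _ (by
      intro i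
      by_cases h : i = i0
      · subst h
        simp only [reduceCtorEq, if_false, if_true]
        group
      · have h1 : (Sum.inr i : Fin g ⊕ Fin g) ≠ Sum.inr i0 := fun e => h (Sum.inr.inj e)
        simp only [reduceCtorEq, if_false, if_neg h1]))

/-- `a ↦ a b^k` in the handle `i0`, all other generators fixed. -/
def twB (i0 : Fin g) (k : ℤ) : SurfaceGroup g →* SurfaceGroup g :=
  outHom (fun j => if j = Sum.inl i0 then gen (Sum.inl i0) * (gen (Sum.inr i0)) ^ k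
      else gen j) (lift_eq_one _ (by
      intro i
      by_cases h : i = i0
      · subst h
        simp only [reduceCtorEq, if_false, if_true]
        group
      · have h1 : (Sum.inl i : Fin g ⊕ Fin g) ≠ Sum.inl i0 := fun e => h (Sum.inl.inj e)
        simp only [reduceCtorEq, if_false, if_neg h1]))

lemma twA_of (i0 : Fin g) (k : ℤ) (j : Fin g ⊕ Fin g) :
    twA i0 k (gen j) = if j = Sum.inr i0 then
      gen (Sum.inr i0) * (gen (Sum.inl i0)) ^ k
      else gen j :=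
  outHom_gen _ _ _

lemma twB_of (i0 : Fin g) (k : ℤ) (j : Fin g ⊕ Fin g) :
    twB i0 k (gen j) = if j = Sum.inl i0 then
      gen (Sum.inl i0) * (gen (Sum.inr i0)) ^ k
      else gen j :=
  outHom_gen _ _ _

lemma twA_comp (i0 : Fin g) (k : ℤ) : (twA i0 k).comp (twA i0 (-k)) = MonoidHom.id _ := by
  refine surface_ext ?_
  intro j
  rw [MonoidHom.comp_apply, twA_of, MonoidHom.id_apply]
  by_cases h : j = Sum.inr i0
  · rw [if_pos h, map_mul, map_zpow, twA_of, twA_of, if_pos rfl, if_neg (by simp), h]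
    group
  · rw [if_neg h, twA_of, if_neg h]

lemma twB_comp (i0 : Fin g) (k : ℤ) : (twB i0 k).comp (twB i0 (-k)) = MonoidHom.id _ := by
  refine surface_ext ?_
  intro j
  rw [MonoidHom.comp_apply, twB_of, MonoidHom.id_apply]
  by_cases h : j = Sum.inl i0
  · rw [if_pos h, map_mul, map_zpow, twB_of, twB_of, if_pos rfl, if_neg (by simp), h]
    group
  · rw [if_neg h, twB_of, if_neg h]

/-- `b ↦ b a^k` as an automorphism: the `k`-th power of a Dehn twist about the curve `a`. -/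
def autA (i0 : Fin g) (k : ℤ) : MulAut (SurfaceGroup g) :=
  MonoidHom.toMulEquiv (twA i0 k) (twA i0 (-k))
    (by simpa using twA_comp i0 (-k)) (twA_comp i0 k)

/-- `a ↦ a b^k` as an automorphism: the `k`-th power of a Dehn twist about the curve `b`. -/
def autB (i0 : Fin g) (k : ℤ) : MulAut (SurfaceGroup g) :=
  MonoidHom.toMulEquiv (twB i0 k) (twB i0 (-k))
    (by simpa using twB_comp i0 (-k)) (twB_comp i0 k)

/-- The images of the generators under the `k`-th power of the twist about the curve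
`e = c⁻¹ b a b⁻¹`: `a ↦ a`, `b ↦ e^{-k} b`, `c ↦ e^{-k} c e^k`, `d ↦ d e^k`. -/
def linkFun (i : ℕ) (hi : i + 1 < g) (k : ℤ) (j : Fin g ⊕ Fin g) : SurfaceGroup g :=
  if j = Sum.inr ⟨i, by omega⟩ then (linkCurve i hi) ^ (-k) * gen (Sum.inr ⟨i, by omega⟩)
  else if j = Sum.inl ⟨i + 1, hi⟩ then
    (linkCurve i hi) ^ (-k) * gen (Sum.inl ⟨i + 1, hi⟩) * (linkCurve i hi) ^ k
  else if j = Sum.inr ⟨i + 1, hi⟩ then gen (Sum.inr ⟨i + 1, hi⟩) * (linkCurve i hi) ^ k
  else gen j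

/-- The `k`-th power of the twist about the curve `c⁻¹ b a b⁻¹`, as a homomorphism. -/
def twL (i : ℕ) (hi : i + 1 < g) (k : ℤ) : SurfaceGroup g →* SurfaceGroup g :=
  outHom (linkFun i hi k) (by
    refine lift_eq_one' _ i hi ?_ ?_
    · intro j hj hj'
      have e1 : (j : Fin g) ≠ ⟨i, by omega⟩ := fun h => hj (by rw [h])
      have e2 : (j : Fin g) ≠ ⟨i + 1, hi⟩ := fun h => hj' (by rw [h])
      constructor
      · simp [linkFun, e1, e2]
      · simp [linkFun, e1, e2]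
    · have e1 : (⟨i, by omega⟩ : Fin g) ≠ ⟨i + 1, hi⟩ := by simp
      have e2 : (⟨i + 1, hi⟩ : Fin g) ≠ ⟨i, by omega⟩ := by simp
      have f1 : linkFun i hi k (Sum.inl ⟨i, by omega⟩) = gen (Sum.inl ⟨i, by omega⟩) := by
        simp [linkFun]
      have f2 : linkFun i hi k (Sum.inr ⟨i, by omega⟩) =
          (linkCurve i hi) ^ (-k) * gen (Sum.inr ⟨i, by omega⟩) := by
        simp [linkFun]
      have f3 : linkFun i hi k (Sum.inl ⟨i + 1, hi⟩) =
          (linkCurve i hi) ^ (-k) * gen (Sum.inl ⟨i + 1, hi⟩) * (linkCurve i hi) ^ k := by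
        simp [linkFun]
      have f4 : linkFun i hi k (Sum.inr ⟨i + 1, hi⟩) =
          gen (Sum.inr ⟨i + 1, hi⟩) * (linkCurve i hi) ^ k := by
        simp [linkFun]
      rw [f1, f2, f3, f4]
      have he : (linkCurve i hi)⁻¹ = gen (Sum.inr ⟨i, by omega⟩) *
          (gen (Sum.inl ⟨i, by omega⟩))⁻¹ * (gen (Sum.inr ⟨i, by omega⟩))⁻¹ *
          gen (Sum.inl ⟨i + 1, hi⟩) := by
        unfold linkCurve; group
      set e := linkCurve i hi with hedef
      set a := gen (g := g) (Sum.inl ⟨i, by omega⟩) with ha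
      set b := gen (g := g) (Sum.inr ⟨i, by omega⟩) with hb
      set c := gen (g := g) (Sum.inl ⟨i + 1, hi⟩) with hc
      set d := gen (g := g) (Sum.inr ⟨i + 1, hi⟩) with hd
      calc a * (e ^ (-k) * b) * a⁻¹ * (e ^ (-k) * b)⁻¹ *
          (e ^ (-k) * c * e ^ k * (d * e ^ k) * (e ^ (-k) * c * e ^ k)⁻¹ * (d * e ^ k)⁻¹)
          = a * e ^ (-k) * (b * a⁻¹ * b⁻¹ * c) * e ^ k * d * c⁻¹ * d⁻¹ := by group
        _ = a * e ^ (-k) * e⁻¹ * e ^ k * d * c⁻¹ * d⁻¹ := by rw [← he]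
        _ = a * e⁻¹ * d * c⁻¹ * d⁻¹ := by group
        _ = a * b * a⁻¹ * b⁻¹ * (c * d * c⁻¹ * d⁻¹) := by rw [he]; group)

lemma twL_gen (i : ℕ) (hi : i + 1 < g) (k : ℤ) (j : Fin g ⊕ Fin g) :
    twL i hi k (gen j) = linkFun i hi k j := outHom_gen _ _ _

lemma twL_a (i : ℕ) (hi : i + 1 < g) (k : ℤ) :
    twL i hi k (gen (Sum.inl ⟨i, by omega⟩)) = gen (Sum.inl ⟨i, by omega⟩) := by
  rw [twL_gen]; simp [linkFun]

lemma twL_b (i : ℕ) (hi : i + 1 < g) (k : ℤ) :
    twL i hi k (gen (Sum.inr ⟨i, by omega⟩)) =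
      (linkCurve i hi) ^ (-k) * gen (Sum.inr ⟨i, by omega⟩) := by
  rw [twL_gen]; simp [linkFun]

lemma twL_c (i : ℕ) (hi : i + 1 < g) (k : ℤ) :
    twL i hi k (gen (Sum.inl ⟨i + 1, hi⟩)) =
      (linkCurve i hi) ^ (-k) * gen (Sum.inl ⟨i + 1, hi⟩) * (linkCurve i hi) ^ k := by
  rw [twL_gen]; simp [linkFun]

lemma twL_d (i : ℕ) (hi : i + 1 < g) (k : ℤ) :
    twL i hi k (gen (Sum.inr ⟨i + 1, hi⟩)) =
      gen (Sum.inr ⟨i + 1, hi⟩) * (linkCurve i hi) ^ k := by
  rw [twL_gen]; simp [linkFun]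

lemma twL_curve (i : ℕ) (hi : i + 1 < g) (k : ℤ) :
    twL i hi k (linkCurve i hi) = linkCurve i hi := by
  have h : twL i hi k (linkCurve i hi) =
      (twL i hi k (gen (Sum.inl ⟨i + 1, hi⟩)))⁻¹ * twL i hi k (gen (Sum.inr ⟨i, by omega⟩)) *
      twL i hi k (gen (Sum.inl ⟨i, by omega⟩)) *
      (twL i hi k (gen (Sum.inr ⟨i, by omega⟩)))⁻¹ := by
    conv_lhs => unfold linkCurve
    simp only [map_mul, map_inv]
  rw [h, twL_a, twL_b, twL_c]
  have he : linkCurve i hi = (gen (Sum.inl ⟨i + 1, hi⟩))⁻¹ * gen (Sum.inr ⟨i, by omega⟩) *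
    gen (Sum.inl ⟨i, by omega⟩) * (gen (Sum.inr ⟨i, by omega⟩))⁻¹ := rfl
  set e := linkCurve i hi with hedef
  set a := gen (g := g) (Sum.inl ⟨i, by omega⟩) with ha
  set b := gen (g := g) (Sum.inr ⟨i, by omega⟩) with hb
  set c := gen (g := g) (Sum.inl ⟨i + 1, hi⟩) with hc
  calc (e ^ (-k) * c * e ^ k)⁻¹ * (e ^ (-k) * b) * a * (e ^ (-k) * b)⁻¹
      = e ^ (-k) * (c⁻¹ * b * a * b⁻¹) * e ^ k := by group
    _ = e ^ (-k) * e * e ^ k := by rw [← he]
    _ = e := by group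

lemma twL_comp (i : ℕ) (hi : i + 1 < g) (k : ℤ) :
    (twL i hi k).comp (twL i hi (-k)) = MonoidHom.id _ := by
  refine surface_ext ?_
  intro j
  rw [MonoidHom.comp_apply, MonoidHom.id_apply]
  by_cases h1 : j = Sum.inr ⟨i, by omega⟩
  · subst h1
    rw [twL_b, map_mul, map_zpow, twL_curve, twL_b]
    group
  · by_cases h2 : j = Sum.inl ⟨i + 1, hi⟩
    · subst h2
      rw [twL_c, map_mul, map_mul, map_zpow, map_zpow, twL_curve, twL_c]
      group
    · by_cases h3 : j = Sum.inr ⟨i + 1, hi⟩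
      · subst h3
        rw [twL_d, map_mul, map_zpow, twL_curve, twL_d]
        group
      · have h4 : ∀ k, linkFun i hi k j = gen j := by
          intro k
          simp only [linkFun, if_neg h1, if_neg h2, if_neg h3]
        rw [twL_gen, h4, twL_gen, h4]

/-- The `k`-th power of the Dehn twist about the curve `c⁻¹ b a b⁻¹` linking the handles `i` and
`i+1`: with `e = c⁻¹ b a b⁻¹` it maps `a ↦ a`, `b ↦ e^{-k} b`, `c ↦ e^{-k} c e^k`,
`d ↦ d e^k` and fixes the generators of all other handles. -/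
def autL (i : ℕ) (hi : i + 1 < g) (k : ℤ) : MulAut (SurfaceGroup g) :=
  MonoidHom.toMulEquiv (twL i hi k) (twL i hi (-k))
    (by simpa using twL_comp i hi (-k)) (twL_comp i hi k)

/-- the boundary word `a b a⁻¹ b⁻¹` of the handle `i0` -/
def bw (i0 : Fin g) : SurfaceGroup g :=
  gen (Sum.inl i0) * gen (Sum.inr i0) * (gen (Sum.inl i0))⁻¹ * (gen (Sum.inr i0))⁻¹

/-- conjugation of the handle `i0` by the `k`-th power of its boundary word -/
def twS (i0 : Fin g) (k : ℤ) : SurfaceGroup g →* SurfaceGroup g :=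
  outHom (fun j => if j = Sum.inl i0 ∨ j = Sum.inr i0 then
      (bw i0) ^ k * gen j * (bw i0) ^ (-k)
      else gen j) (lift_eq_one _ (by
      intro i
      by_cases h : i = i0
      · subst h
        simp only [reduceCtorEq, or_true, true_or, if_true]
        have he : bw i = gen (Sum.inl i) * gen (Sum.inr i) * (gen (Sum.inl i))⁻¹ *
          (gen (Sum.inr i))⁻¹ := rfl
        calc bw i ^ k * gen (Sum.inl i) * bw i ^ (-k) * (bw i ^ k * gen (Sum.inr i) * bw i ^ (-k)) *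
              (bw i ^ k * gen (Sum.inl i) * bw i ^ (-k))⁻¹ *
              (bw i ^ k * gen (Sum.inr i) * bw i ^ (-k))⁻¹
            = bw i ^ k * (gen (Sum.inl i) * gen (Sum.inr i) * (gen (Sum.inl i))⁻¹ *
          (gen (Sum.inr i))⁻¹) * bw i ^ (-k) := by group
          _ = bw i ^ k * bw i * bw i ^ (-k) := by rw [← he]
          _ = bw i := by group
          _ = _ := he
      · have h1 : (Sum.inr i : Fin g ⊕ Fin g) ≠ Sum.inr i0 := fun e => h (Sum.inr.inj e)
        have h2 : (Sum.inl i : Fin g ⊕ Fin g) ≠ Sum.inl i0 := fun e => h (Sum.inl.inj e)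
        simp only [reduceCtorEq, h1, h2, or_self, if_false]))

lemma twS_of (i0 : Fin g) (k : ℤ) (j : Fin g ⊕ Fin g) :
    twS i0 k (gen j) = if j = Sum.inl i0 ∨ j = Sum.inr i0 then
      (bw i0) ^ k * gen j * (bw i0) ^ (-k)
      else gen j :=
  outHom_gen _ _ _

lemma twS_comm (i0 : Fin g) (k : ℤ) : twS i0 k (bw i0) = bw i0 := by
  have he : bw i0 = gen (Sum.inl i0) * gen (Sum.inr i0) * (gen (Sum.inl i0))⁻¹ *
          (gen (Sum.inr i0))⁻¹ := rfl
  have h : twS i0 k (bw i0) = twS i0 k (gen (Sum.inl i0)) * twS i0 k (gen (Sum.inr i0)) *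
      (twS i0 k (gen (Sum.inl i0)))⁻¹ * (twS i0 k (gen (Sum.inr i0)))⁻¹ := by
    conv_lhs => rw [he]
    simp only [map_mul, map_inv]
  rw [h, twS_of, twS_of, if_pos (Or.inl rfl), if_pos (Or.inr rfl)]
  calc bw i0 ^ k * gen (Sum.inl i0) * bw i0 ^ (-k) *
        (bw i0 ^ k * gen (Sum.inr i0) * bw i0 ^ (-k)) *
        (bw i0 ^ k * gen (Sum.inl i0) * bw i0 ^ (-k))⁻¹ *
        (bw i0 ^ k * gen (Sum.inr i0) * bw i0 ^ (-k))⁻¹
      = bw i0 ^ k * (gen (Sum.inl i0) * gen (Sum.inr i0) * (gen (Sum.inl i0))⁻¹ *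
          (gen (Sum.inr i0))⁻¹) * bw i0 ^ (-k) := by group
    _ = bw i0 ^ k * bw i0 * bw i0 ^ (-k) := by rw [← he]
    _ = bw i0 := by group

lemma twS_comp (i0 : Fin g) (k : ℤ) : (twS i0 k).comp (twS i0 (-k)) = MonoidHom.id _ := by
  refine surface_ext ?_
  intro j
  rw [MonoidHom.comp_apply, MonoidHom.id_apply, twS_of]
  by_cases h : j = Sum.inl i0 ∨ j = Sum.inr i0
  · rw [if_pos h, map_mul, map_mul, map_zpow, map_zpow, twS_comm, twS_of, if_pos h]
    group
  · rw [if_neg h, twS_of, if_neg h]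

/-- the `k`-th power of the Dehn twist about the boundary curve of the handle `i0` -/
def autS (i0 : Fin g) (k : ℤ) : MulAut (SurfaceGroup g) :=
  MonoidHom.toMulEquiv (twS i0 k) (twS i0 (-k))
    (by simpa using twS_comp i0 (-k)) (twS_comp i0 k)

end Pool.Agent.Helper119.MG
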