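import Pool.Agent.Helper119.MG.Filt

/-! Conjugates of a deep element of the Johnson filtration by positive words in the twists. -/

namespace Pool.Agent.Helper119.MG

/-! ### The plane -/

lemma tv_om (k : ℤ) (f v w : ℤ × ℤ) : om (tv k f v) (tv k f w) = om v w := by
  simp only [tv_apply, om, Prod.fst_sub, Prod.snd_sub, Prod.smul_fst, Prod.smul_snd, smul_eq_mul]
  ring

lemma tv_inv_eq (k : ℤ) (f : ℤ × ℤ) : (tv k f)⁻¹ = tv (-k) f := by
  refine Equiv.ext ?_
  intro v
  rw [tv_inv_apply, tv_apply]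
  ext <;> simp

lemma conj_tv (k : ℤ) (f : ℤ × ℤ) (l : ℤ) (e : ℤ × ℤ) :
    tv k f * tv l e * (tv k f)⁻¹ = tv l (tv k f e) := by
  refine Equiv.ext ?_
  intro v
  simp only [Equiv.Perm.mul_apply, tv_inv_apply, tv_apply, om]
  ext <;> simp <;> ring

/-- attracting set of the `i`-th transvection -/
def InU (i : ℕ) (v : ℤ × ℤ) : Prop := 5 * (v.1 - i * v.2) ^ 2 ≤ 2 * v.2 * (v.1 - i * v.2)

/-- repelling set of the `i`-th transvection -/
def InV (i : ℕ) (v : ℤ × ℤ) : Prop := 2 * v.2 * (v.1 - i * v.2) < -(5 * (v.1 - i * v.2) ^ 2)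

lemma plane_bound {u y : ℤ} (h : 5 * u ^ 2 ≤ |2 * y * u|) : 5 * |u| ≤ 2 * |y| := by
  rcases eq_or_ne u 0 with rfl | hu
  · simp
  · have hu' : 0 < |u| := abs_pos.2 hu
    rw [abs_mul, abs_mul, ← sq_abs] at h
    have h2 : |(2 : ℤ)| = 2 := rfl
    rw [h2] at h
    nlinarith

lemma plane_disjoint {i j : ℕ} (hij : i ≠ j) {x y : ℤ} (hne : (x, y) ≠ (0 : ℤ × ℤ))
    (h1 : 5 * (x - i * y) ^ 2 ≤ |2 * y * (x - i * y)|)
    (h2 : 5 * (x - j * y) ^ 2 ≤ |2 * y * (x - j * y)|) : False := by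
  have b1 := plane_bound h1
  have b2 := plane_bound h2
  have hd : (1 : ℤ) ≤ |(i : ℤ) - j| := by
    apply Int.one_le_abs
    intro h
    exact hij (by exact_mod_cast (sub_eq_zero.1 h))
  have e : ((i : ℤ) - j) * y = (x - j * y) - (x - i * y) := by ring
  have h3 : |((i : ℤ) - j)| * |y| ≤ |x - j * y| + |x - i * y| := by
    rw [← abs_mul, e]
    exact abs_sub _ _
  have h4 : |y| ≤ |((i : ℤ) - j)| * |y| := le_mul_of_one_le_left (abs_nonneg y) hd
  have hy : y = 0 := by
    have : |y| ≤ 0 := by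
      by_contra hpos
      push Not at hpos
      linarith
    exact abs_eq_zero.1 (le_antisymm this (abs_nonneg y))
  subst hy
  have hx : x = 0 := by
    have h5 : 5 * |x| ≤ 0 := by simpa using b1
    have h6 := abs_nonneg x
    exact abs_eq_zero.1 (le_antisymm (by linarith) h6)
  exact hne (by rw [hx]; rfl)

lemma InU_abs {i : ℕ} {v : ℤ × ℤ} (h : InU i v) :
    5 * (v.1 - i * v.2) ^ 2 ≤ |2 * v.2 * (v.1 - i * v.2)| :=
  le_trans h (le_abs_self _)

lemma InV_abs {i : ℕ} {v : ℤ × ℤ} (h : InV i v) :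
    5 * (v.1 - i * v.2) ^ 2 ≤ |2 * v.2 * (v.1 - i * v.2)| := by
  have h' : 2 * v.2 * (v.1 - i * v.2) < -(5 * (v.1 - i * v.2) ^ 2) := h
  have := neg_abs_le (2 * v.2 * (v.1 - i * v.2))
  linarith

lemma InV_ne {i : ℕ} {v : ℤ × ℤ} (h : InV i v) : v ≠ 0 := by
  rintro rfl
  simp [InV] at h

lemma UU_disj {i j : ℕ} (hij : i ≠ j) {v : ℤ × ℤ} (hv : v ≠ 0) (h1 : InU i v) (h2 : InU j v) :
    False := plane_disjoint hij (x := v.1) (y := v.2) hv (InU_abs h1) (InU_abs h2)

lemma UV_disj {i j : ℕ} {v : ℤ × ℤ} (h1 : InU i v) (h2 : InV j v) : False := by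
  by_cases hij : i = j
  · subst hij
    unfold InU at h1
    unfold InV at h2
    nlinarith [sq_nonneg (v.1 - i * v.2)]
  · exact plane_disjoint hij (x := v.1) (y := v.2) (InV_ne h2) (InU_abs h1) (InV_abs h2)

/-- the matrix of the `i`-th twist -/
def tm (i : ℕ) : Equiv.Perm (ℤ × ℤ) := tv 5 ((i : ℤ), 1)

lemma tm_inv_InV {i : ℕ} {v : ℤ × ℤ} (h : ¬ InU i v) : InV i ((tm i)⁻¹ v) := by
  unfold InU at h
  unfold InV tm
  rw [tv_inv_apply]
  simp only [om, Prod.fst_add, Prod.snd_add, Prod.smul_fst, Prod.smul_snd, smul_eq_mul]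
  push Not at h
  nlinarith [sq_nonneg (v.1 - i * v.2)]

/-- matrix of a word -/
def wm (l : List ℕ) : Equiv.Perm (ℤ × ℤ) := (l.map tm).prod

lemma wm_cons_inv (i : ℕ) (l : List ℕ) (v : ℤ × ℤ) : (wm (i :: l))⁻¹ v = (wm l)⁻¹ ((tm i)⁻¹ v) := by
  unfold wm
  rw [List.map_cons, List.prod_cons, mul_inv_rev]
  rfl

lemma wm_om (l : List ℕ) (v w : ℤ × ℤ) : om (wm l v) (wm l w) = om v w := by
  induction l generalizing v w with
  | nil => rfl
  | cons i l ih =>
    have e : ∀ v, wm (i :: l) v = tm i (wm l v) := by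
      intro v
      unfold wm
      rw [List.map_cons, List.prod_cons]
      rfl
    rw [e, e]
    unfold tm
    rw [tv_om, ih]

lemma wm_inv_om (l : List ℕ) (v w : ℤ × ℤ) : om v (wm l w) = om ((wm l)⁻¹ v) w := by
  conv_lhs => rw [← papi (wm l) v]
  rw [wm_om]

lemma form_pos {Q : ℤ × ℤ → ℤ} (H1 : ∀ i v, InV i v → 0 < Q v) :
    ∀ (l : List ℕ) (i : ℕ) (v : ℤ × ℤ), InV i v → 0 < Q ((wm l)⁻¹ v)
  | [], i, v, h => by
    have e : (wm [])⁻¹ v = v := rfl
    rw [e]; exact H1 i v h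
  | (j :: l), i, v, h => by
    rw [wm_cons_inv]
    exact form_pos H1 l j _ (tm_inv_InV (fun h' => UV_disj h' h))

lemma form_inj {Q : ℤ × ℤ → ℤ} (H1 : ∀ i v, InV i v → 0 < Q v) (H2 : ∃ w, Q w < 0)
    (H3 : Q 0 = 0) : ∀ l l' : List ℕ, l.length = l'.length →
    ((∀ v, Q ((wm l)⁻¹ v) = Q ((wm l')⁻¹ v)) ∨ (∀ v, Q ((wm l)⁻¹ v) = -Q ((wm l')⁻¹ v))) →
    l = l'
  | [], [], _, _ => rfl
  | [], (j :: l'), h, _ => by simp at h
  | (i :: l), [], h, _ => by simp at h
  | (i :: l), (j :: l'), hlen, h => by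
    have hpos : ∀ (i : ℕ) (l : List ℕ) (v : ℤ × ℤ), ¬ InU i v → 0 < Q ((wm (i :: l))⁻¹ v) := by
      intro i l v hv
      rw [wm_cons_inv]
      exact form_pos H1 l i _ (tm_inv_InV hv)
    have hij : i = j := by
      by_contra hij
      rcases h with h | h
      · obtain ⟨w, hw⟩ := H2
        have hv := h (wm (i :: l) w)
        rw [pipa] at hv
        have hne : wm (i :: l) w ≠ 0 := by
          intro h0
          have h00 : ∀ l : List ℕ, wm l 0 = 0 := by
            intro l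
            induction l with
            | nil => rfl
            | cons k l ih =>
              have e : wm (k :: l) 0 = tm k (wm l 0) := by
                unfold wm
                rw [List.map_cons, List.prod_cons]
                rfl
              rw [e, ih]
              simp [tm, tv_apply, om]
          have : w = 0 := (wm (i :: l)).injective (by rw [h0, h00])
          rw [this, H3] at hw
          exact lt_irrefl _ hw
        by_cases hi : InU i (wm (i :: l) w)
        · have hj : ¬ InU j (wm (i :: l) w) := fun hj => UU_disj hij hne hi hj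
          have := hpos j l' _ hj
          rw [← hv] at this
          linarith
        · have := hpos i l _ hi
          rw [pipa] at this
          linarith
      · have hno : ∀ k : ℕ, ¬ InU k ((-1, 1) : ℤ × ℤ) := by
          intro k hk
          unfold InU at hk
          simp only at hk
          have : (0 : ℤ) ≤ k := Int.natCast_nonneg k
          nlinarith
        have h1 := hpos i l _ (hno i)
        have h2 := hpos j l' _ (hno j)
        have h3 := h (-1, 1)
        linarith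
    subst hij
    have hlen' : l.length = l'.length := by simpa using hlen
    have := form_inj H1 H2 H3 l l' hlen' (by
      rcases h with h | h
      · left
        intro v
        have := h (tm i v)
        rw [wm_cons_inv, wm_cons_inv, pipa] at this
        exact this
      · right
        intro v
        have := h (tm i v)
        rw [wm_cons_inv, wm_cons_inv, pipa] at this
        exact this)
    rw [this]

/-! ### The quadratic form of the deep elements -/

/-- the coordinates of the vectors `f_m` -/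
def pq : ℕ → ℤ × ℤ
  | 0 => (-4, 1)
  | (m + 1) => (-4 * (pq m).1 ^ 2, 1 - 4 * (pq m).1 * (pq m).2)

lemma pq_inv (m : ℕ) : (pq m).1 ≤ -4 ∧ 1 ≤ (pq m).2 ∧ 10 * (pq m).2 ≤ -3 * (pq m).1 - 2 := by
  induction m with
  | zero => simp [pq]
  | succ m ih =>
    obtain ⟨h1, h2, h3⟩ := ih
    simp only [pq]
    refine ⟨?_, ?_, ?_⟩
    · nlinarith
    · nlinarith
    · nlinarith

/-- the vector `f_m` -/
def fv (m : ℕ) : ℤ × ℤ := (-2 * (pq m).1 - 3 * (pq m).2, (pq m).1 + (pq m).2)

lemma fv_succ (m : ℕ) : tv 4 (fv m) (-3, 1) = fv (m + 1) := by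
  rw [tv_apply]
  simp only [fv, pq, om]
  ext <;> simp <;> ring

/-- the matrix of the deep elements -/
def xm (m : ℕ) : Equiv.Perm (ℤ × ℤ) := tv 4 (fv m) * (tv 4 (-3, 1))⁻¹

/-- the quadratic form -/
def qf (m : ℕ) (v : ℤ × ℤ) : ℤ := om v (xm m v)

lemma qf_eq (m : ℕ) (x y : ℤ) : qf m (x, y) =
    4 * ((-(pq m).1 * (x + 2 * y) - (pq m).2 * (x + 3 * y)) ^ 2 -
      4 * (x + 3 * y) * (-(pq m).1 * (x + 2 * y) - (pq m).2 * (x + 3 * y)) * (pq m).1 -
      (x + 3 * y) ^ 2) := by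
  unfold qf xm
  rw [Equiv.Perm.mul_apply, tv_inv_apply, tv_apply]
  simp only [fv, om, Prod.fst_add, Prod.snd_add, Prod.fst_sub, Prod.snd_sub, Prod.smul_fst,
    Prod.smul_snd, smul_eq_mul]
  ring

lemma qf_pos_core (m : ℕ) (x y : ℤ) (hy : 0 < y) (hx : -y ≤ 2 * x) : 0 < qf m (x, y) := by
  rw [qf_eq]
  obtain ⟨h1, h2, h3⟩ := pq_inv m
  set p := (pq m).1
  set q := (pq m).2
  have hA : 0 < x + 3 * y := by linarith
  have hG : 6 * (x + 3 * y) ≤ 10 * (x + 2 * y) := by linarith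
  have hb : 3 * (-p) * (x + 3 * y) ≤ 10 * (-p * (x + 2 * y) - q * (x + 3 * y)) := by
    nlinarith [mul_le_mul_of_nonneg_left hG (by linarith : (0:ℤ) ≤ -p),
      mul_le_mul_of_nonneg_right h3 hA.le]
  set b := -p * (x + 2 * y) - q * (x + 3 * y)
  set A := x + 3 * y
  have hb2 : 12 * A ≤ 10 * b := by nlinarith
  have hb3 : 0 < b := by linarith
  have h4 : 16 * (A * b) ≤ -(4 * A * b * p) := by
    nlinarith [mul_pos hA hb3]
  nlinarith [mul_pos hA hb3, mul_pos hA hA, mul_le_mul_of_nonneg_left hb2 hA.le]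

lemma qf_neg (m : ℕ) (v : ℤ × ℤ) : qf m (-v) = qf m v := by
  obtain ⟨x, y⟩ := v
  change qf m (-x, -y) = qf m (x, y)
  rw [qf_eq, qf_eq]
  ring

lemma qf_pos (m i : ℕ) (v : ℤ × ℤ) (h : InV i v) : 0 < qf m v := by
  obtain ⟨x, y⟩ := v
  unfold InV at h
  simp only at h
  have hi : (0 : ℤ) ≤ i := Int.natCast_nonneg i
  rcases lt_trichotomy y 0 with hy | hy | hy
  · have hu : 0 < x - i * y := by nlinarith [sq_nonneg (x - i * y)]
    have h1 : 5 * (x - i * y) < -(2 * y) := by nlinarith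
    rw [← qf_neg]
    refine qf_pos_core m (-x) (-y) (by linarith) ?_
    nlinarith
  · subst hy
    nlinarith [sq_nonneg (x - i * 0)]
  · have hu : x - i * y < 0 := by nlinarith [sq_nonneg (x - i * y)]
    have h1 : -(2 * y) < 5 * (x - i * y) := by nlinarith
    refine qf_pos_core m x y hy ?_
    nlinarith

lemma qf_fv (m : ℕ) : qf m (fv m) < 0 := by
  obtain ⟨h1, h2, h3⟩ := pq_inv m
  unfold fv
  rw [qf_eq]
  nlinarith

lemma qf_zero (m : ℕ) : qf m 0 = 0 := by
  change qf m (0, 0) = 0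
  rw [qf_eq]
  ring

end Pool.Agent.Helper119.MG
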