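import Pool.Agent.Helper119.MG.Asym
import Pool.Agent.Helper119.MG.Poly

/-! Ping-pong for the conjugates of a separating twist. -/

namespace Pool.Agent.Helper119.MG

/-- the linear coordinate -/
def zc (i : ℕ) (v : ℤ × ℤ) : ℤ := 5 * v.1 - (5 * i + 1) * v.2

/-- attracting set -/
def ZU (i : ℕ) (v : ℤ × ℤ) : Prop := 10 * zc i v ^ 2 ≤ v.2 * zc i v

/-- repelling set -/
def ZV (i : ℕ) (v : ℤ × ℤ) : Prop := v.2 * zc i v < -(10 * zc i v ^ 2)

/-- the matrix of the `i`-th letter -/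
def zm (i : ℕ) : Equiv.Perm (ℤ × ℤ) := tv 4 (5 * (i : ℤ) + 1, 5)

lemma zm_snd (i : ℕ) (v : ℤ × ℤ) : (zm i v).2 = v.2 + 20 * zc i v := by
  unfold zm zc
  rw [tv_apply]
  simp only [om, Prod.snd_sub, Prod.smul_snd, smul_eq_mul]
  ring

lemma zm_zc (i : ℕ) (v : ℤ × ℤ) : zc i (zm i v) = zc i v := by
  unfold zm zc
  rw [tv_apply]
  simp only [om, Prod.snd_sub, Prod.smul_snd, Prod.fst_sub, Prod.smul_fst, smul_eq_mul]
  ring

lemma zm_ZU {i : ℕ} {v : ℤ × ℤ} (h : ¬ ZV i v) : ZU i (zm i v) := by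
  unfold ZU
  unfold ZV at h
  rw [zm_zc, zm_snd]
  push Not at h
  nlinarith

lemma zm_inv_ZV {i : ℕ} {v : ℤ × ℤ} (h : ¬ ZU i v) : ZV i ((zm i)⁻¹ v) := by
  obtain ⟨w, rfl⟩ : ∃ w, v = zm i w := ⟨(zm i)⁻¹ v, (papi _ _).symm⟩
  rw [pipa]
  unfold ZV
  unfold ZU at h
  rw [zm_zc, zm_snd] at h
  push Not at h
  nlinarith

lemma ZV_pos {i : ℕ} {v : ℤ × ℤ} (h : ZV i v) : 0 < v.1 * v.2 := by
  obtain ⟨x, y⟩ := v
  unfold ZV zc at h
  simp only at h ⊢
  have hi : (0 : ℤ) ≤ i := Int.natCast_nonneg i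
  set w := 5 * x - (5 * (i : ℤ) + 1) * y with hw
  have hx : 5 * x = w + (5 * (i : ℤ) + 1) * y := by rw [hw]; ring
  rcases lt_trichotomy y 0 with hy | hy | hy
  · have h1 : 0 < w := by nlinarith [sq_nonneg w]
    have h2 : 10 * w < -y := by nlinarith
    have h3 : 5 * x < 0 := by rw [hx]; nlinarith
    nlinarith
  · subst hy
    nlinarith [sq_nonneg w]
  · have h1 : w < 0 := by nlinarith [sq_nonneg w]
    have h2 : -y < 10 * w := by nlinarith
    have h3 : 0 < 5 * x := by rw [hx]; nlinarith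
    nlinarith

lemma ZU_bound {i : ℕ} {v : ℤ × ℤ} (h : ZU i v) : 10 * |zc i v| ≤ |v.2| := by
  unfold ZU at h
  rcases eq_or_ne (zc i v) 0 with h0 | h0
  · rw [h0]; simp
  · have h1 : 0 < |zc i v| := abs_pos.2 h0
    have h2 : 10 * |zc i v| ^ 2 ≤ |v.2| * |zc i v| := by
      rw [sq_abs, ← abs_mul]
      exact h.trans (le_abs_self _)
    nlinarith

lemma ZV_bound {i : ℕ} {v : ℤ × ℤ} (h : ZV i v) : 10 * |zc i v| ≤ |v.2| := by
  unfold ZV at h
  rcases eq_or_ne (zc i v) 0 with h0 | h0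
  · rw [h0]; simp
  · have h1 : 0 < |zc i v| := abs_pos.2 h0
    have h2 : 10 * |zc i v| ^ 2 ≤ |v.2| * |zc i v| := by
      rw [sq_abs, ← abs_mul]
      have := neg_abs_le (v.2 * zc i v)
      linarith
    nlinarith

lemma z_disj {i j : ℕ} (hij : i ≠ j) {v : ℤ × ℤ} (hv : v ≠ 0) (h1 : 10 * |zc i v| ≤ |v.2|)
    (h2 : 10 * |zc j v| ≤ |v.2|) : False := by
  obtain ⟨x, y⟩ := v
  simp only at h1 h2
  have hd : (1 : ℤ) ≤ |(i : ℤ) - j| := by
    apply Int.one_le_abs
    intro h
    exact hij (by exact_mod_cast (sub_eq_zero.1 h))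
  have e : 5 * (((i : ℤ) - j) * y) = zc j (x, y) - zc i (x, y) := by
    unfold zc; ring
  have h3 : 5 * (|((i : ℤ) - j)| * |y|) ≤ |zc j (x, y)| + |zc i (x, y)| := by
    have h4 : |5 * (((i : ℤ) - j) * y)| = 5 * (|((i : ℤ) - j)| * |y|) := by
      rw [abs_mul, abs_mul]; rfl
    rw [← h4, e]
    exact abs_sub _ _
  have h4 : |y| ≤ |((i : ℤ) - j)| * |y| := le_mul_of_one_le_left (abs_nonneg y) hd
  have h6 := abs_nonneg y
  have hy : y = 0 := abs_eq_zero.1 (by linarith)
  subst hy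
  have h7 : |zc i (x, 0)| = 5 * |x| := by
    have : zc i (x, 0) = 5 * x := by unfold zc; simp
    rw [this, abs_mul]; rfl
  rw [h7] at h1
  have h8 := abs_nonneg x
  have hx : x = 0 := abs_eq_zero.1 (by simp at h1; linarith)
  exact hv (by rw [hx]; rfl)

lemma ZUU {i j : ℕ} {v : ℤ × ℤ} (hv : v ≠ 0) (h1 : ZU i v) (h2 : ZU j v) : i = j := by
  by_contra hij
  exact z_disj hij hv (ZU_bound h1) (ZU_bound h2)

lemma ZUV {i j : ℕ} {v : ℤ × ℤ} (h1 : ZU i v) (h2 : ZV j v) : False := by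
  by_cases hij : i = j
  · subst hij
    unfold ZU at h1
    unfold ZV at h2
    nlinarith [sq_nonneg (zc i v)]
  · refine z_disj hij ?_ (ZU_bound h1) (ZV_bound h2)
    rintro rfl
    simp [ZV, zc] at h2

/-- matrix of a word -/
def zwm (l : List ℕ) : Equiv.Perm (ℤ × ℤ) := (l.map zm).prod

lemma zwm_cons (i : ℕ) (l : List ℕ) : zwm (i :: l) = zm i * zwm l := by
  unfold zwm
  rw [List.map_cons, List.prod_cons]

/-- additive permutations -/
def AddP (A : Equiv.Perm (ℤ × ℤ)) : Prop := ∀ v w, A (v + w) = A v + A w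

lemma addP_neg {A : Equiv.Perm (ℤ × ℤ)} (h : AddP A) (v : ℤ × ℤ) : A (-v) = -A v := by
  have h0 : A 0 = 0 := by
    have := h 0 0
    rw [add_zero] at this
    exact left_eq_add.1 this
  have := h (-v) v
  rw [neg_add_cancel, h0] at this
  exact eq_neg_of_add_eq_zero_left this.symm

lemma addP_mul {A B : Equiv.Perm (ℤ × ℤ)} (hA : AddP A) (hB : AddP B) : AddP (A * B) := by
  intro v w
  rw [Equiv.Perm.mul_apply, hB, hA]; rfl

lemma addP_inv {A : Equiv.Perm (ℤ × ℤ)} (hA : AddP A) : AddP A⁻¹ := by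
  intro v w
  apply A.injective
  rw [papi, hA, papi, papi]

lemma addP_zm (i : ℕ) : AddP (zm i) := tv_add _ _

lemma addP_zwm (l : List ℕ) : AddP (zwm l) := by
  induction l with
  | nil => intro v w; rfl
  | cons i l ih => rw [zwm_cons]; exact addP_mul (addP_zm i) ih

lemma addP_xm (m : ℕ) : AddP (xm m) := addP_mul (tv_add _ _) (addP_inv (tv_add _ _))

/-- equality up to a global sign -/
def PM (A B : Equiv.Perm (ℤ × ℤ)) : Prop := (∀ v, A v = B v) ∨ (∀ v, A v = -B v)

lemma pm_left {A B C : Equiv.Perm (ℤ × ℤ)} (hC : AddP C) (h : PM (C * A) (C * B)) : PM A B := by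
  rcases h with h | h
  · left
    intro v
    exact C.injective (h v)
  · right
    intro v
    apply C.injective
    rw [addP_neg hC]
    exact h v

lemma pm_inv {A B : Equiv.Perm (ℤ × ℤ)} (hA : AddP A) (hB : AddP B) (h : PM A⁻¹ B⁻¹) :
    PM A B := by
  rcases h with h | h
  · left
    intro v
    have h1 := h (B v)
    rw [pipa] at h1
    have h2 : A (A⁻¹ (B v)) = A v := by rw [h1]
    rw [papi] at h2
    exact h2.symm
  · right
    intro v
    have h1 := h (B v)
    rw [pipa] at h1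
    have h2 : A (A⁻¹ (B v)) = A (-v) := by rw [h1]
    rw [papi, addP_neg hA] at h2
    rw [h2, neg_neg]

lemma ZU_neg {i : ℕ} {v : ℤ × ℤ} (h : ZU i (-v)) : ZU i v := by
  unfold ZU zc at *
  simp only [Prod.fst_neg, Prod.snd_neg] at h
  nlinarith

lemma headU : ∀ (i : ℕ) (l : List ℕ) (v : ℤ × ℤ), (∀ j, ¬ ZV j v) → ZU i (zwm (i :: l) v)
  | i, [], v, h => by
    rw [zwm_cons]
    exact zm_ZU (h i)
  | i, (j :: l), v, h => by
    rw [zwm_cons]
    exact zm_ZU (fun h' => ZUV (headU j l v h) h')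

lemma lastV : ∀ (l : List ℕ), l ≠ [] → ∀ (v : ℤ × ℤ), (∀ j, ¬ ZU j v) →
    ∃ j, ZV j ((zwm l)⁻¹ v)
  | [], h, _, _ => absurd rfl h
  | [i], _, v, h => by
    refine ⟨i, ?_⟩
    have e : zwm [i] = zm i := by rw [zwm_cons]; rfl
    rw [e]
    exact zm_inv_ZV (h i)
  | (i :: j :: l), _, v, h => by
    have e : (zwm (i :: j :: l))⁻¹ v = (zwm (j :: l))⁻¹ ((zm i)⁻¹ v) := by
      rw [zwm_cons, mul_inv_rev]; rfl
    rw [e]
    exact lastV (j :: l) (by simp) _ (fun k hk => ZUV hk (zm_inv_ZV (h i)))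

lemma zwm_zero (l : List ℕ) : zwm l 0 = 0 := by
  have := addP_zwm l 0 0
  rw [add_zero] at this
  exact left_eq_add.1 this

lemma pm_word : ∀ l k : List ℕ, l.length = k.length → PM (zwm l) (zwm k) → l = k
  | [], [], _, _ => rfl
  | [], (j :: k), h, _ => by simp at h
  | (i :: l), [], h, _ => by simp at h
  | (i :: l), (j :: k), hlen, h => by
    have hv : ∀ j, ¬ ZV j ((-1, 1) : ℤ × ℤ) := by
      intro j hj
      have := ZV_pos hj
      simp at this
    have h1 := headU i l _ hv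
    have h2 := headU j k _ hv
    have hne : zwm (i :: l) (-1, 1) ≠ 0 := by
      intro h0
      have := (zwm (i :: l)).injective (h0.trans (zwm_zero _).symm)
      simp [Prod.ext_iff] at this
    have hij : i = j := by
      rcases h with h | h
      · rw [← h] at h2
        exact ZUU hne h1 h2
      · have h3 : zwm (j :: k) (-1, 1) = -zwm (i :: l) (-1, 1) := by rw [h, neg_neg]
        rw [h3] at h2
        exact ZUU hne h1 (ZU_neg h2)
    subst hij
    rw [zwm_cons, zwm_cons] at h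
    rw [pm_word l k (by simpa using hlen) (pm_left (addP_zm i) h)]

lemma xm_region (m : ℕ) (x y : ℤ) (hx : 0 < x) (hy : 0 < y) :
    (xm m (x, y)).1 < 0 ∧ 0 < (xm m (x, y)).2 := by
  obtain ⟨h1, h2, h3⟩ := pq_inv m
  have e : xm m (x, y) = (13 * x + 36 * y - 4 *
      (-(pq m).1 * (5 * x + 14 * y) - (pq m).2 * (x + 3 * y)) * (-2 * (pq m).1 - 3 * (pq m).2),
      -4 * x - 11 * y - 4 *
      (-(pq m).1 * (5 * x + 14 * y) - (pq m).2 * (x + 3 * y)) * ((pq m).1 + (pq m).2)) := by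
    unfold xm
    rw [Equiv.Perm.mul_apply, tv_inv_apply, tv_apply]
    ext
    · simp only [fv, om, Prod.fst_add, Prod.snd_add, Prod.fst_sub, Prod.smul_fst,
        Prod.smul_snd, smul_eq_mul]
      ring
    · simp only [fv, om, Prod.fst_add, Prod.snd_add, Prod.snd_sub, Prod.smul_fst,
        Prod.smul_snd, smul_eq_mul]
      ring
  rw [e]
  simp only
  set p := (pq m).1
  set q := (pq m).2
  have hA : 0 < x + 3 * y := by linarith
  have hO : 4 * (4 * x + 13 * y) ≤ -p * (5 * x + 14 * y) - q * (x + 3 * y) := by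
    have a1 : 10 * (q * (x + 3 * y)) ≤ (-3 * p - 2) * (x + 3 * y) := by nlinarith
    have a2 : 4 * (4 * x + 13 * y) ≤ -p * (4 * x + 13 * y) := by nlinarith
    nlinarith
  set O := -p * (5 * x + 14 * y) - q * (x + 3 * y)
  have hOpos : 0 < O := by linarith
  have hf1 : 1 ≤ -2 * p - 3 * q := by linarith
  have hf2 : p + q ≤ -1 := by linarith
  constructor
  · have : O ≤ O * (-2 * p - 3 * q) := le_mul_of_one_le_right hOpos.le hf1
    linarith
  · have : O ≤ O * (-(p + q)) := le_mul_of_one_le_right hOpos.le (by linarith)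
    linarith

lemma xm_PN (m : ℕ) (v : ℤ × ℤ) (h : 0 < v.1 * v.2) : (xm m v).1 * (xm m v).2 < 0 := by
  obtain ⟨x, y⟩ := v
  simp only at h
  rcases lt_or_ge 0 x with hx | hx
  · have hy : 0 < y := by nlinarith
    obtain ⟨h1, h2⟩ := xm_region m x y hx hy
    exact mul_neg_of_neg_of_pos h1 h2
  · have hx' : x < 0 := by
      rcases hx.lt_or_eq with h' | h'
      · exact h'
      · rw [h'] at h; simp at h
    have hy : y < 0 := by nlinarith
    obtain ⟨h1, h2⟩ := xm_region m (-x) (-y) (by linarith) (by linarith)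
    have e : ((-x, -y) : ℤ × ℤ) = -(x, y) := rfl
    rw [e, addP_neg (addP_xm m)] at h1 h2
    simp only [Prod.fst_neg, Prod.snd_neg] at h1 h2
    exact mul_neg_of_pos_of_neg (by linarith) (by linarith)

/-- Uniqueness of the two words. -/
lemma zx_inj (m : ℕ) : ∀ l k l' k' : List ℕ, l.length = k.length → l'.length = k'.length →
    l' ≠ [] → PM (zwm l * (xm m * (zwm l')⁻¹)) (zwm k * (xm m * (zwm k')⁻¹)) →
    l = k ∧ l' = k'
  | [], [], l', k', _, h', _, h => by
    refine ⟨rfl, pm_word l' k' h' ?_⟩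
    have e : ∀ A : Equiv.Perm (ℤ × ℤ), zwm [] * A = A := fun A => one_mul A
    rw [e, e] at h
    exact pm_inv (addP_zwm _) (addP_zwm _) (pm_left (addP_xm m) h)
  | [], (j :: k), _, _, h, _, _, _ => by simp at h
  | (i :: l), [], _, _, h, _, _, _ => by simp at h
  | (i :: l), (j :: k), l', k', hlen, hlen', hne, h => by
    have hk' : k' ≠ [] := by
      rintro rfl
      exact hne (List.length_eq_zero_iff.1 hlen')
    have key : ∀ (i : ℕ) (l l' : List ℕ), l' ≠ [] →
        ZU i ((zwm (i :: l) * (xm m * (zwm l')⁻¹)) (-1, 1)) := by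
      intro i l l' hl'
      obtain ⟨j, hj⟩ := lastV l' hl' (-1, 1) (by
        intro j hj
        unfold ZU zc at hj
        simp only at hj
        have : (0 : ℤ) ≤ j := Int.natCast_nonneg j
        nlinarith)
      have h1 := xm_PN m _ (ZV_pos hj)
      have h2 : ∀ j, ¬ ZV j (xm m ((zwm l')⁻¹ (-1, 1))) := by
        intro j hj
        have := ZV_pos hj
        linarith
      exact headU i l _ h2
    have h1 := key i l l' hne
    have h2 := key j k k' hk'
    have hnz : (zwm (i :: l) * (xm m * (zwm l')⁻¹)) (-1, 1) ≠ 0 := by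
      intro h0
      have hadd := addP_mul (addP_zwm (i :: l)) (addP_mul (addP_xm m) (addP_inv (addP_zwm l')))
      have hz : (zwm (i :: l) * (xm m * (zwm l')⁻¹)) 0 = 0 := by
        have := hadd 0 0
        rw [add_zero] at this
        exact left_eq_add.1 this
      have := (zwm (i :: l) * (xm m * (zwm l')⁻¹)).injective (h0.trans hz.symm)
      simp [Prod.ext_iff] at this
    have hij : i = j := by
      rcases h with h | h
      · rw [← h] at h2
        exact ZUU hnz h1 h2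
      · have h3 : (zwm (j :: k) * (xm m * (zwm k')⁻¹)) (-1, 1) =
            -(zwm (i :: l) * (xm m * (zwm l')⁻¹)) (-1, 1) := by rw [h, neg_neg]
        rw [h3] at h2
        exact ZUU hnz h1 (ZU_neg h2)
    subst hij
    rw [zwm_cons, zwm_cons, mul_assoc, mul_assoc] at h
    obtain ⟨e1, e2⟩ := zx_inj m l k l' k' (by simpa using hlen) hlen' hne
      (pm_left (addP_zm i) h)
    exact ⟨by rw [e1], e2⟩

end Pool.Agent.Helper119.MG
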